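import Mathlib

set_option autoImplicit false

/-!
Context-free languages inside `(a b^*)^n` given by noncrossing families of chords.

The word of a vector `k : ℕ → ℕ` (of which only `k 0, …, k (n-1)` matter) is
`a b^{k 0} a b^{k 1} ⋯ a b^{k (n-1)}` with `a = true`, `b = false`.
-/

namespace Pool.Agent.MP_5c6631_lc

/-- The word `a b^{k 0} a b^{k 1} ⋯ a b^{k (n-1)}`. -/
def wordOf (n : ℕ) (k : ℕ → ℕ) : List Bool :=
  (List.range n).flatMap (fun t => true :: List.replicate (k t) false)

/-- Number of endpoints of edges of `l` at `i`. -/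
def cnt (l : List (ℕ × ℕ)) (i : ℕ) : ℕ :=
  (l.map (fun e => (if e.1 = i then 1 else 0) + (if e.2 = i then 1 else 0))).sum

namespace CFGImpl

/-! ### Interpretations of sentential forms -/

section Interp

variable {T N : Type*}

/-- `Mat I u w`: the word `w` can be obtained from the sentential form `u` by replacing each
nonterminal `A` by some word of `I A`. -/
def Mat (I : N → Set (List T)) : List (Symbol T N) → List T → Prop
  | [], w => w = []
  | (Symbol.terminal t) :: u, w => ∃ w', w = t :: w' ∧ Mat I u w'
  | (Symbol.nonterminal A) :: u, w => ∃ w₁ w₂, w = w₁ ++ w₂ ∧ w₁ ∈ I A ∧ Mat I u w₂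

lemma mat_append (I : N → Set (List T)) (u v : List (Symbol T N)) (w : List T) :
    Mat I (u ++ v) w ↔ ∃ w₁ w₂, w = w₁ ++ w₂ ∧ Mat I u w₁ ∧ Mat I v w₂ := by
  induction u generalizing w with
  | nil =>
    simp only [List.nil_append, Mat]
    constructor
    · intro h
      exact ⟨[], w, rfl, rfl, h⟩
    · rintro ⟨w₁, w₂, rfl, rfl, h⟩
      simpa using h
  | cons s u ih =>
    cases s with
    | terminal t =>
      simp only [List.cons_append, Mat]
      constructor
      · rintro ⟨w', rfl, h⟩
        obtain ⟨w₁, w₂, rfl, h1, h2⟩ := (ih w').1 h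
        exact ⟨t :: w₁, w₂, rfl, ⟨w₁, rfl, h1⟩, h2⟩
      · rintro ⟨_, w₂, rfl, ⟨w₁, rfl, h1⟩, h2⟩
        exact ⟨w₁ ++ w₂, rfl, (ih _).2 ⟨w₁, w₂, rfl, h1, h2⟩⟩
    | nonterminal A =>
      simp only [List.cons_append, Mat]
      constructor
      · rintro ⟨v₁, v₂, rfl, hA, h⟩
        obtain ⟨w₁, w₂, rfl, h1, h2⟩ := (ih v₂).1 h
        exact ⟨v₁ ++ w₁, w₂, by simp, ⟨v₁, w₁, rfl, hA, h1⟩, h2⟩
      · rintro ⟨_, w₂, rfl, ⟨v₁, w₁, rfl, hA, h1⟩, h2⟩
        exact ⟨v₁, w₁ ++ w₂, by simp, hA, (ih _).2 ⟨w₁, w₂, rfl, h1, h2⟩⟩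

lemma mat_terminals (I : N → Set (List T)) (x w : List T) :
    Mat I (x.map Symbol.terminal) w ↔ w = x := by
  induction x generalizing w with
  | nil => simp [Mat]
  | cons t x ih =>
    simp only [List.map_cons, Mat]
    constructor
    · rintro ⟨w', rfl, h⟩
      rw [(ih w').1 h]
    · rintro rfl
      exact ⟨x, rfl, (ih x).2 rfl⟩

end Interp

/-- Soundness: an interpretation closed under all rules contains the generated words. -/
lemma sound {T : Type*} (g : ContextFreeGrammar T) (I : g.NT → Set (List T))
    (hI : ∀ r ∈ g.rules, ∀ w, Mat I r.output w → w ∈ I r.input) (w : List T)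
    (hw : w ∈ g.language) : w ∈ I g.initial := by
  have key : ∀ u v : List (Symbol T g.NT), g.Derives u v → ∀ w, Mat I v w → Mat I u w := by
    intro u v huv
    induction huv with
    | refl => exact fun w h => h
    | tail _ hstep ih =>
      intro w h
      apply ih
      obtain ⟨r, hr, hrw⟩ := hstep
      obtain ⟨p, q, rfl, rfl⟩ := hrw.exists_parts
      obtain ⟨w₁, w₂, rfl, h1, h2⟩ := (mat_append I _ _ _).1 h
      obtain ⟨v₁, v₂, rfl, h3, h4⟩ := (mat_append I _ _ _).1 h1
      refine (mat_append I _ _ _).2 ⟨v₁ ++ v₂, w₂, rfl, (mat_append I _ _ _).2 ⟨v₁, v₂, rfl, h3, ?_⟩, h2⟩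
      exact ⟨v₂, [], by simp, hI r hr v₂ h4, rfl⟩
  have h := key _ _ hw w ((mat_terminals I w w).2 rfl)
  obtain ⟨w₁, w₂, rfl, h1, h2⟩ := h
  have : w₂ = [] := h2
  subst this
  simpa using h1

/-! ### Segments -/

/-- The word read from just after `a b^{c i}` to the end of position `i + k`. -/
def seg (c : ℕ → ℕ) (i : ℕ) : ℕ → (ℕ → ℕ) → List Bool
  | 0, u => List.replicate (u i) false
  | k + 1, u => seg c i k u ++ true :: List.replicate (c (i + k + 1) + u (i + k + 1)) false

lemma seg_congr (c : ℕ → ℕ) (i k : ℕ) (u v : ℕ → ℕ) (h : ∀ t, i ≤ t → t ≤ i + k → u t = v t) :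
    seg c i k u = seg c i k v := by
  induction k with
  | zero => simp only [seg]; rw [h i le_rfl (by omega)]
  | succ k ih =>
    simp only [seg]
    rw [ih fun t h1 h2 => h t h1 (by omega), h (i + k + 1) (by omega) (by omega)]

lemma seg_append_replicate (c : ℕ → ℕ) (i k : ℕ) (u : ℕ → ℕ) (x : ℕ) :
    seg c i k u ++ List.replicate x false =
      seg c i k (fun t => u t + if t = i + k then x else 0) := by
  cases k with
  | zero => simp [seg]
  | succ k =>
    simp only [seg]
    rw [seg_congr c i k (fun t => u t + if t = i + (k + 1) then x else 0) u]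
    · rw [if_pos (by ring), ← add_assoc]
      simp
    · intro t h1 h2
      rw [if_neg (by omega), add_zero]

lemma seg_append (c : ℕ → ℕ) (i k k' : ℕ) (u v : ℕ → ℕ)
    (hu : ∀ t, i + k < t → u t = 0) (hv : ∀ t, t < i + k → v t = 0) :
    seg c i k u ++ seg c (i + k) k' v = seg c i (k + k') (fun t => u t + v t) := by
  induction k' with
  | zero =>
    simp only [seg, add_zero]
    rw [seg_append_replicate]
    refine seg_congr _ _ _ _ _ fun t h1 h2 => ?_
    by_cases h : t = i + k
    · rw [if_pos h, h]
    · rw [if_neg h, hv t (by omega)]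
  | succ k' ih =>
    show seg c i k u ++ (seg c (i + k) k' v ++ _) = seg c i ((k + k') + 1) _
    simp only [seg]
    rw [← List.append_assoc, ih, show i + (k + k') + 1 = i + k + k' + 1 by ring,
      hu (i + k + k' + 1) (by omega), zero_add]

lemma wordOf_succ (c : ℕ → ℕ) (m : ℕ) (u : ℕ → ℕ) :
    wordOf (m + 1) (fun t => c t + u t) = true :: (List.replicate (c 0) false ++ seg c 0 m u) := by
  induction m with
  | zero => simp [wordOf, seg]
  | succ m ih =>
    unfold wordOf at ih ⊢
    rw [List.range_succ, List.flatMap_append, ih]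
    simp [seg]

lemma replicate_seg (c : ℕ → ℕ) (i k : ℕ) (u : ℕ → ℕ) (x : ℕ) :
    List.replicate x false ++ seg c i k u =
      seg c i k (fun t => u t + if t = i then x else 0) := by
  induction k with
  | zero => simp [seg, add_comm]
  | succ k ih =>
    simp only [seg]
    rw [← List.append_assoc, ih, if_neg (by omega), add_zero]

/-! ### Counting endpoints -/

@[simp] lemma cnt_nil (t : ℕ) : cnt [] t = 0 := rfl

lemma cnt_cons (e : ℕ × ℕ) (l : List (ℕ × ℕ)) (t : ℕ) :
    cnt (e :: l) t = (if e.1 = t then 1 else 0) + (if e.2 = t then 1 else 0) + cnt l t := rfl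

lemma cnt_append (l l' : List (ℕ × ℕ)) (t : ℕ) : cnt (l ++ l') t = cnt l t + cnt l' t := by
  simp [cnt]

lemma cnt_perm {l l' : List (ℕ × ℕ)} (h : l.Perm l') (t : ℕ) : cnt l t = cnt l' t :=
  (h.map _).sum_eq

lemma cnt_eq_zero (l : List (ℕ × ℕ)) (t : ℕ) (h : ∀ e ∈ l, e.1 ≠ t ∧ e.2 ≠ t) : cnt l t = 0 := by
  induction l with
  | nil => rfl
  | cons e l ih =>
    rw [cnt_cons, if_neg (h e (by simp)).1, if_neg (h e (by simp)).2,
      ih fun e' he' => h e' (by simp [he'])]

/-! ### The grammar -/

section Grammar

variable {ι : Type} (m : ℕ) (c : ι → ℕ → ℕ) (S : ι → ℕ → Prop) (E : ι → ℕ → ℕ → Prop)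

/-- Nonterminals: the start symbol `none` and `X d i j`. -/
abbrev NTy (ι : Type) := Option (ι × ℕ × ℕ)

/-- The nonterminal `X d i j`. -/
def X (d : ι) (i j : ℕ) : Symbol Bool (NTy ι) := Symbol.nonterminal (some (d, i, j))

/-- A terminal word as a sentential form. -/
def tm (w : List Bool) : List (Symbol Bool (NTy ι)) := w.map Symbol.terminal

/-- The rules of the grammar. -/
def ruleSet : Set (ContextFreeRule Bool (NTy ι)) :=
  {r | (∃ d, r = ⟨none, tm (true :: List.replicate (c d 0) false) ++ [X d 0 m]⟩) ∨
    (∃ d, ∃ i : Fin (m + 1), r = ⟨some (d, (i : ℕ), (i : ℕ)), []⟩) ∨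
    (∃ d, ∃ i : Fin (m + 1), S d i ∧
      r = ⟨some (d, (i : ℕ), (i : ℕ)), Symbol.terminal false :: [X d i i]⟩) ∨
    (∃ d, ∃ i : Fin (m + 1), r = ⟨some (d, (i : ℕ), (i : ℕ) + 1),
      [X d i i] ++ (tm (true :: List.replicate (c d (i + 1)) false) ++ [X d (i + 1) (i + 1)])⟩) ∨
    (∃ d, ∃ i k l : Fin (m + 1), r = ⟨some (d, (i : ℕ), (i : ℕ) + k + l),
      X d i (i + k) :: [X d (i + k) (i + k + l)]⟩) ∨
    (∃ d, ∃ i j : Fin (m + 1), E d i j ∧ (i : ℕ) ≤ j ∧ r = ⟨some (d, (i : ℕ), (j : ℕ)),
      Symbol.terminal false :: ([X d i j] ++ [Symbol.terminal false])⟩)}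

lemma ruleSet_finite [Finite ι] : (ruleSet m c S E).Finite := by
  unfold ruleSet
  simp only [Set.ofPred_or]
  refine Set.Finite.union ?_ (Set.Finite.union ?_ (Set.Finite.union ?_ (Set.Finite.union ?_
    (Set.Finite.union ?_ ?_))))
  · refine (Set.finite_range fun d : ι =>
      (⟨none, tm (true :: List.replicate (c d 0) false) ++ [X d 0 m]⟩ :
        ContextFreeRule Bool (NTy ι))).subset ?_
    rintro r ⟨d, rfl⟩
    exact ⟨d, rfl⟩
  · refine (Set.finite_range fun p : ι × Fin (m + 1) =>
      (⟨some (p.1, (p.2 : ℕ), (p.2 : ℕ)), []⟩ : ContextFreeRule Bool (NTy ι))).subset ?_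
    rintro r ⟨d, i, rfl⟩
    exact ⟨(d, i), rfl⟩
  · refine (Set.finite_range fun p : ι × Fin (m + 1) =>
      (⟨some (p.1, (p.2 : ℕ), (p.2 : ℕ)), Symbol.terminal false :: [X p.1 p.2 p.2]⟩ :
        ContextFreeRule Bool (NTy ι))).subset ?_
    rintro r ⟨d, i, _, rfl⟩
    exact ⟨(d, i), rfl⟩
  · refine (Set.finite_range fun p : ι × Fin (m + 1) =>
      (⟨some (p.1, (p.2 : ℕ), (p.2 : ℕ) + 1), [X p.1 p.2 p.2] ++
        (tm (true :: List.replicate (c p.1 (p.2 + 1)) false) ++ [X p.1 (p.2 + 1) (p.2 + 1)])⟩ :
        ContextFreeRule Bool (NTy ι))).subset ?_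
    rintro r ⟨d, i, rfl⟩
    exact ⟨(d, i), rfl⟩
  · refine (Set.finite_range fun p : ι × Fin (m + 1) × Fin (m + 1) × Fin (m + 1) =>
      (⟨some (p.1, (p.2.1 : ℕ), (p.2.1 : ℕ) + p.2.2.1 + p.2.2.2),
        X p.1 p.2.1 (p.2.1 + p.2.2.1) :: [X p.1 (p.2.1 + p.2.2.1) (p.2.1 + p.2.2.1 + p.2.2.2)]⟩ :
        ContextFreeRule Bool (NTy ι))).subset ?_
    rintro r ⟨d, i, k, l, rfl⟩
    exact ⟨(d, i, k, l), rfl⟩
  · refine (Set.finite_range fun p : ι × Fin (m + 1) × Fin (m + 1) =>
      (⟨some (p.1, (p.2.1 : ℕ), (p.2.2 : ℕ)),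
        Symbol.terminal false :: ([X p.1 p.2.1 p.2.2] ++ [Symbol.terminal false])⟩ :
        ContextFreeRule Bool (NTy ι))).subset ?_
    rintro r ⟨d, i, j, _, _, rfl⟩
    exact ⟨(d, i, j), rfl⟩

/-- The grammar. -/
noncomputable def gram [Finite ι] : ContextFreeGrammar Bool where
  NT := NTy ι
  initial := none
  rules := (ruleSet_finite m c S E).toFinset

/-- The intended meaning of the nonterminals. -/
def Int : NTy ι → Set (List Bool)
  | none => {w | ∃ (d : ι) (f : ℕ → ℕ) (l : List (ℕ × ℕ)), (∀ i, ¬ S d i → f i = 0) ∧ (∀ e ∈ l, E d e.1 e.2) ∧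
      w = wordOf (m + 1) (fun i => c d i + (f i + cnt l i))}
  | some (d, i, j) => {w | ∃ (k : ℕ) (f : ℕ → ℕ) (l : List (ℕ × ℕ)), j = i + k ∧
      (∀ t, ¬ S d t → f t = 0) ∧ (∀ t, ¬ (i ≤ t ∧ t ≤ j) → f t = 0) ∧
      (∀ e ∈ l, E d e.1 e.2 ∧ i ≤ e.1 ∧ e.2 ≤ j ∧ e.1 ≤ e.2) ∧
      w = seg (c d) i k (fun t => f t + cnt l t)}

lemma gram_sound [Finite ι] (w : List Bool) (hw : w ∈ (gram m c S E).language) :
    w ∈ Int m c S E none := by
  refine sound (gram m c S E) (Int m c S E) ?_ w hw
  intro r hr w h
  have hr' : r ∈ ruleSet m c S E := (Set.Finite.mem_toFinset _).1 hr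
  rcases hr' with ⟨d, rfl⟩ | ⟨d, i, rfl⟩ | ⟨d, i, hS, rfl⟩ | ⟨d, i, rfl⟩ | ⟨d, i, k, l, rfl⟩ |
    ⟨d, i, j, hE, hij, rfl⟩
  · -- start rule
    obtain ⟨w₁, w₂, rfl, h1, h2⟩ := (mat_append _ _ _ _).1 h
    obtain rfl := (mat_terminals _ _ _).1 h1
    obtain ⟨w₃, w₄, rfl, ⟨k, f, l, hk, hf, hf', hl, rfl⟩, h4⟩ := h2
    obtain rfl : w₄ = [] := h4
    obtain rfl : m = k := by omega
    refine ⟨d, f, l, hf, fun e he => (hl e he).1, ?_⟩
    rw [wordOf_succ]
    simp
  · obtain rfl : w = [] := h
    refine ⟨0, fun _ => 0, [], rfl, fun _ _ => rfl, fun _ _ => rfl, by simp, ?_⟩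
    simp [seg]
  · obtain ⟨w', rfl, w₁, w₂, rfl, ⟨k, f, l, hk, hf, hf', hl, rfl⟩, h4⟩ := h
    obtain rfl : w₂ = [] := h4
    obtain rfl : k = 0 := by omega
    refine ⟨0, fun t => f t + if t = (i : ℕ) then 1 else 0, l, rfl, ?_, ?_, hl, ?_⟩
    · intro t ht
      dsimp only
      rw [hf t ht, if_neg]
      rintro rfl
      exact ht hS
    · intro t ht
      dsimp only
      rw [hf' t ht, if_neg (by omega)]
    · have := replicate_seg (c d) i 0 (fun t => f t + cnt l t) 1
      simp only [List.replicate_one, List.singleton_append] at this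
      simp only [List.append_nil]
      rw [this]
      refine seg_congr _ _ _ _ _ fun t _ _ => ?_
      ring
  · obtain ⟨w₁, w₂, rfl, h1, h2⟩ := (mat_append _ _ _ _).1 h
    obtain ⟨w₃, w₄, rfl, ⟨k, f, l, hk, hf, hf', hl, rfl⟩, h4⟩ := h1
    obtain rfl : w₄ = [] := h4
    obtain rfl : k = 0 := by omega
    obtain ⟨w₅, w₆, rfl, h5, h6⟩ := (mat_append _ _ _ _).1 h2
    obtain rfl := (mat_terminals _ _ _).1 h5
    obtain ⟨w₇, w₈, rfl, ⟨k', f', l', hk', hf1, hf1', hl', rfl⟩, h8⟩ := h6
    obtain rfl : w₈ = [] := h8
    obtain rfl : k' = 0 := by omega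
    have hc1 : ∀ t, t ≠ (i : ℕ) → cnt l t = 0 := by
      intro t ht
      refine cnt_eq_zero _ _ fun e he => ?_
      have := hl e he
      omega
    have hc2 : ∀ t, t ≠ (i : ℕ) + 1 → cnt l' t = 0 := by
      intro t ht
      refine cnt_eq_zero _ _ fun e he => ?_
      have := hl' e he
      omega
    refine ⟨1, fun t => f t + f' t, l ++ l', rfl, ?_, ?_, ?_, ?_⟩
    · intro t ht
      dsimp only
      rw [hf t ht, hf1 t ht]
    · intro t ht
      dsimp only
      rw [hf' t (by omega), hf1' t (by omega)]
    · intro e he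
      rcases List.mem_append.1 he with he | he
      · have := hl e he
        exact ⟨this.1, by omega, by omega, by omega⟩
      · have := hl' e he
        exact ⟨this.1, by omega, by omega, by omega⟩
    · simp only [seg, cnt_append, add_zero]
      rw [hf1' i (by omega), hc2 i (by omega), hf' (i + 1) (by omega), hc1 (i + 1) (by omega)]
      simp
  · obtain ⟨w₁, w₂, rfl, ⟨a, f, l₁, ha, hf, hf', hl, rfl⟩, h2⟩ := h
    obtain ⟨w₃, w₄, rfl, ⟨b, f', l₂, hb, hf1, hf1', hl', rfl⟩, h4⟩ := h2
    obtain rfl : w₄ = [] := h4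
    obtain rfl : a = (k : ℕ) := by omega
    obtain rfl : b = (l : ℕ) := by omega
    refine ⟨k + l, fun t => f t + f' t, l₁ ++ l₂, by ring, ?_, ?_, ?_, ?_⟩
    · intro t ht
      dsimp only
      rw [hf t ht, hf1 t ht]
    · intro t ht
      dsimp only
      rw [hf' t (by omega), hf1' t (by omega)]
    · intro e he
      rcases List.mem_append.1 he with he | he
      · have := hl e he
        exact ⟨this.1, by omega, by omega, by omega⟩
      · have := hl' e he
        exact ⟨this.1, by omega, by omega, by omega⟩
    · rw [List.append_nil, seg_append]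
      · refine seg_congr _ _ _ _ _ fun t _ _ => ?_
        simp only [cnt_append]
        ring
      · intro t ht
        rw [hf' t (by omega), cnt_eq_zero]
        intro e he
        have := hl e he
        omega
      · intro t ht
        rw [hf1' t (by omega), cnt_eq_zero]
        intro e he
        have := hl' e he
        omega
  · obtain ⟨w', rfl, h⟩ := h
    obtain ⟨w₁, w₂, rfl, ⟨w₃, w₄, rfl, ⟨k, f, l, hk, hf, hf', hl, rfl⟩, h4⟩, h2⟩ :=
      (mat_append _ _ _ _).1 h
    obtain rfl : w₄ = [] := h4
    obtain ⟨w₅, rfl, h5⟩ := h2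
    obtain rfl : w₅ = [] := h5
    refine ⟨k, f, (i, j) :: l, hk, hf, hf', ?_, ?_⟩
    · intro e he
      rcases List.mem_cons.1 he with rfl | he
      · exact ⟨hE, le_rfl, le_rfl, hij⟩
      · exact hl e he
    · have h1 := replicate_seg (c d) i k (fun t => f t + cnt l t) 1
      simp only [List.replicate_one, List.singleton_append] at h1
      have h2 := seg_append_replicate (c d) i k
        (fun t => (f t + cnt l t) + if t = (i : ℕ) then 1 else 0) 1
      simp only [List.replicate_one] at h2
      simp only [List.append_nil]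
      rw [← List.cons_append, h1, h2]
      refine seg_congr _ _ _ _ _ fun t _ _ => ?_
      rw [cnt_cons, ← hk]
      simp only [eq_comm (a := t)]
      ring

/-! ### Completeness -/

variable [Finite ι]

lemma prod_rule {r : ContextFreeRule Bool (NTy ι)} (hr : r ∈ ruleSet m c S E) :
    (gram m c S E).Derives [Symbol.nonterminal r.input] r.output := by
  exact ContextFreeGrammar.Produces.single
    ⟨r, (Set.Finite.mem_toFinset _).2 hr, ContextFreeRule.Rewrites.input_output⟩

lemma derives_self (d : ι) (i : ℕ) (hi : i ≤ m) (x : ℕ) (hx : ¬ S d i → x = 0) :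
    (gram m c S E).Derives [X d i i] (tm (List.replicate x false)) := by
  induction x with
  | zero =>
    exact prod_rule m c S E (r := ⟨some (d, i, i), []⟩)
      (Or.inr (Or.inl ⟨d, ⟨i, by omega⟩, rfl⟩))
  | succ x ih =>
    have hS : S d i := by
      by_contra h
      exact absurd (hx h) (by omega)
    have h1 := prod_rule m c S E (r := ⟨some (d, i, i), Symbol.terminal false :: [X d i i]⟩)
      (Or.inr (Or.inr (Or.inl ⟨d, ⟨i, by omega⟩, hS, rfl⟩)))
    refine h1.trans ?_
    exact (ih fun h => absurd hS h).append_left [Symbol.terminal false]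

lemma derives_two {g : ContextFreeGrammar Bool} {u u' v v' : List (Symbol Bool g.NT)}
    (h : g.Derives u u') (h' : g.Derives v v') : g.Derives (u ++ v) (u' ++ v') :=
  (h.append_right v).trans (h'.append_left u')

lemma complete (hnc : ∀ d a b a' b', E d a b → E d a' b' → ¬ (a < a' ∧ a' < b ∧ b < b'))
    (hlt : ∀ d a b, E d a b → a < b) (d : ι) :
    ∀ (N i k : ℕ) (f : ℕ → ℕ) (l : List (ℕ × ℕ)), k + l.length ≤ N → i + k ≤ m →
      (∀ t, ¬ S d t → f t = 0) →
      (∀ e ∈ l, E d e.1 e.2 ∧ i ≤ e.1 ∧ e.2 ≤ i + k) →
      (gram m c S E).Derives [X d i (i + k)]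
        (tm (seg (c d) i k (fun t => f t + cnt l t))) := by
  intro N
  induction N with
  | zero =>
    intro i k f l hN hm hf hl
    obtain rfl : k = 0 := by omega
    obtain rfl : l = [] := List.length_eq_zero_iff.1 (by omega)
    simpa [seg] using derives_self m c S E d i (by omega) (f i) (hf i)
  | succ N ih =>
    intro i k f l hN hm hf hl
    by_cases hmem : (i, i + k) ∈ l
    · -- remove the edge `(i, i + k)`
      obtain ⟨s, t, rfl⟩ := List.append_of_mem hmem
      have hE := (hl _ hmem).1
      have hlt' := hlt _ _ _ hE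
      have h1 := prod_rule m c S E (r := ⟨some (d, i, i + k),
        Symbol.terminal false :: ([X d i (i + k)] ++ [Symbol.terminal false])⟩)
        (Or.inr (Or.inr (Or.inr (Or.inr (Or.inr
          ⟨d, ⟨i, by omega⟩, ⟨i + k, by omega⟩, hE, by simp, rfl⟩)))))
      refine h1.trans ?_
      have hN' : k + (s ++ t).length ≤ N := by
        simp only [List.length_append, List.length_cons] at hN ⊢
        omega
      have h2 := ih i k f (s ++ t) hN' hm hf fun e he => hl e (by
        rcases List.mem_append.1 he with he | he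
        · simp [he]
        · simp [he])
      have h3 := (h2.append_right [Symbol.terminal false]).append_left [Symbol.terminal false]
      have e1 : seg (c d) i k (fun t' => f t' + cnt (s ++ (i, i + k) :: t) t') =
          false :: (seg (c d) i k (fun t' => f t' + cnt (s ++ t) t') ++ [false]) := by
        have h1 := replicate_seg (c d) i k (fun t' => f t' + cnt (s ++ t) t') 1
        simp only [List.replicate_one, List.singleton_append] at h1
        have h2 := seg_append_replicate (c d) i k
          (fun t' => (f t' + cnt (s ++ t) t') + if t' = i then 1 else 0) 1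
        simp only [List.replicate_one] at h2
        rw [← List.cons_append, h1, h2]
        refine seg_congr _ _ _ _ _ fun t' _ _ => ?_
        rw [cnt_append, cnt_cons, cnt_append]
        simp only [eq_comm (a := t')]
        ring
      have e3 : ∀ w : List Bool, (tm (false :: (w ++ [false])) : List (Symbol Bool (NTy ι))) =
          [Symbol.terminal false] ++ (tm w ++ [Symbol.terminal false]) := by
        intro w
        simp [tm]
      rw [e1, e3]
      exact h3
    · rcases Nat.lt_or_ge k 2 with hk | hk
      · -- `k = 0` or `k = 1`: no edges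
        have hl0 : l = [] := by
          by_contra hne
          obtain ⟨e, he⟩ := List.exists_mem_of_ne_nil l hne
          have h1 := hl e he
          have h2 := hlt _ _ _ h1.1
          apply hmem
          have h3 : e.1 = i := by omega
          have h4 : e.2 = i + k := by omega
          rw [← h3, ← h4] at *
          exact he
        subst hl0
        obtain rfl | rfl : k = 0 ∨ k = 1 := by omega
        · simpa [seg] using derives_self m c S E d i (by omega) (f i) (hf i)
        · have h1 := prod_rule m c S E (r := ⟨some (d, i, i + 1), [X d i i] ++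
            (tm (true :: List.replicate (c d (i + 1)) false) ++ [X d (i + 1) (i + 1)])⟩)
            (Or.inr (Or.inr (Or.inr (Or.inl ⟨d, ⟨i, by omega⟩, rfl⟩))))
          refine h1.trans ?_
          have h2 := derives_self m c S E d i (by omega) (f i) (hf i)
          have h3 := derives_self m c S E d (i + 1) (by omega) (f (i + 1)) (hf (i + 1))
          have h4 := derives_two h2
            (h3.append_left (tm (true :: List.replicate (c d (i + 1)) false)))
          have e3 : (tm (seg (c d) i 1 (fun t => f t + cnt [] t)) :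
              List (Symbol Bool (NTy ι))) = tm (List.replicate (f i) false) ++
              (tm (true :: List.replicate (c d (i + 1)) false) ++
                tm (List.replicate (f (i + 1)) false)) := by
            simp [seg, tm]
          rw [e3]
          exact h4
      · -- split
        obtain ⟨p, hp1, hp2, hp3⟩ : ∃ p, 0 < p ∧ p < k ∧
            ∀ e ∈ l, e.2 ≤ i + p ∨ i + p ≤ e.1 := by
          by_cases hex : ∃ b, (i, b) ∈ l
          · -- the longest edge at `i`
            classical
            have hbdd : ∀ b, (i, b) ∈ l → b ≤ i + k := fun b hb => (hl _ hb).2.2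
            obtain ⟨b₀, hb₀, hmax⟩ : ∃ b₀, (i, b₀) ∈ l ∧ ∀ b, (i, b) ∈ l → b ≤ b₀ := by
              obtain ⟨b, hb⟩ := hex
              refine ⟨Nat.findGreatest (fun b => (i, b) ∈ l) (i + k), ?_, ?_⟩
              · exact Nat.findGreatest_spec (P := fun b => (i, b) ∈ l) (hbdd b hb) hb
              · intro b' hb'
                exact Nat.le_findGreatest (hbdd b' hb') hb'
            have h1 := hl _ hb₀
            have h2 := hlt _ _ _ h1.1
            have h3 : b₀ ≠ i + k := by
              rintro rfl
              exact hmem hb₀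
            simp only at h1 h2
            refine ⟨b₀ - i, by omega, by omega, fun e he => ?_⟩
            have h4 := hl e he
            have h5 := hlt _ _ _ h4.1
            by_contra hcon
            push Not at hcon
            by_cases h6 : e.1 = i
            · have := hmax e.2 (by rw [← h6]; exact he)
              omega
            · exact hnc d i b₀ e.1 e.2 h1.1 h4.1 ⟨by omega, by omega, by omega⟩
          · refine ⟨1, by omega, by omega, fun e he => ?_⟩
            right
            have h4 := hl e he
            by_contra hcon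
            apply hex
            refine ⟨e.2, ?_⟩
            have : e.1 = i := by omega
            rw [← this]
            exact he
        obtain ⟨q, rfl⟩ : ∃ q, k = p + q := ⟨k - p, by omega⟩
        have h1 := prod_rule m c S E (r := ⟨some (d, i, i + p + q),
          X d i (i + p) :: [X d (i + p) (i + p + q)]⟩)
          (Or.inr (Or.inr (Or.inr (Or.inr (Or.inl
            ⟨d, ⟨i, by omega⟩, ⟨p, by omega⟩, ⟨q, by omega⟩, rfl⟩)))))
        classical
        set l₁ := l.filter (fun e => decide (e.2 ≤ i + p)) with hl₁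
        set l₂ := l.filter (fun e => !decide (e.2 ≤ i + p)) with hl₂
        have hperm : (l₁ ++ l₂).Perm l := List.filter_append_perm _ l
        have hlen : l₁.length + l₂.length = l.length := by
          rw [← List.length_append]
          exact hperm.length_eq
        have h2 := ih i p (fun t => if t ≤ i + p then f t else 0) l₁ (by omega) (by omega)
          (fun t ht => by
            rw [hf t ht]
            simp) (by
          intro e he
          rw [hl₁, List.mem_filter] at he
          have := hl e he.1
          exact ⟨this.1, this.2.1, by simpa using he.2⟩)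
        have h3 := ih (i + p) q (fun t => if t ≤ i + p then 0 else f t) l₂ (by omega) (by omega)
          (fun t ht => by
            rw [hf t ht]
            simp) (by
          intro e he
          rw [hl₂, List.mem_filter] at he
          have := hl e he.1
          refine ⟨this.1, ?_, by omega⟩
          rcases hp3 e he.1 with h | h
          · exact absurd h (by simpa using he.2)
          · exact h)
        have h4 := derives_two h2 h3
        rw [← add_assoc]
        refine h1.trans ?_
        have e2 : seg (c d) i p (fun t => (if t ≤ i + p then f t else 0) + cnt l₁ t) ++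
            seg (c d) (i + p) q (fun t => (if t ≤ i + p then 0 else f t) + cnt l₂ t) =
            seg (c d) i (p + q) (fun t => f t + cnt l t) := by
          rw [seg_append]
          · refine seg_congr _ _ _ _ _ fun t _ _ => ?_
            rw [← cnt_perm hperm t, cnt_append]
            split_ifs <;> ring
          · intro t ht
            rw [if_neg (by omega), zero_add]
            refine cnt_eq_zero _ _ fun e he => ?_
            rw [hl₁, List.mem_filter] at he
            have h5 := hl e he.1
            have h6 := hlt _ _ _ h5.1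
            have h7 : e.2 ≤ i + p := by simpa using he.2
            omega
          · intro t ht
            rw [if_pos (by omega), zero_add]
            refine cnt_eq_zero _ _ fun e he => ?_
            rw [hl₂, List.mem_filter] at he
            have h5 := hl e he.1
            have h6 := hlt _ _ _ h5.1
            have h7 : ¬ e.2 ≤ i + p := by simpa using he.2
            rcases hp3 e he.1 with h | h
            · exact absurd h h7
            · omega
        have e3 : ∀ w₁ w₂ : List Bool, (tm (w₁ ++ w₂) : List (Symbol Bool (NTy ι))) =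
            tm w₁ ++ tm w₂ := by
          intro w₁ w₂
          simp [tm]
        rw [← e2, e3]
        exact h4

end Grammar

end CFGImpl

open CFGImpl

/-- A finite union of sets `c + {f supported on S} + {sums of pairs from a noncrossing set E}`,
read as a set of words of `(a b^*)^n`, is context-free. -/
theorem cf_union (n : ℕ) {ι : Type} [Finite ι] (c : ι → ℕ → ℕ) (S : ι → ℕ → Prop)
    (E : ι → ℕ → ℕ → Prop)
    (hE : ∀ d a b, E d a b → a < b ∧ b < n)
    (hnc : ∀ d a b a' b', E d a b → E d a' b' → ¬ (a < a' ∧ a' < b ∧ b < b')) :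
    Language.IsContextFree ({w | ∃ (d : ι) (f : ℕ → ℕ) (l : List (ℕ × ℕ)),
      (∀ i, ¬ S d i → f i = 0) ∧ (∀ e ∈ l, E d e.1 e.2) ∧
      w = wordOf n (fun i => c d i + f i + cnt l i)} : Language Bool) := by
  classical
  cases n with
  | zero =>
    -- no edges, the only possible word is the empty one
    refine ⟨⟨Unit, (), if Nonempty ι then {⟨(), []⟩} else ∅⟩, ?_⟩
    ext w
    by_cases hι : Nonempty ι
    · obtain ⟨d₀⟩ := hι
      have hι : Nonempty ι := ⟨d₀⟩
      constructor
      · intro hw
        have := sound _ (fun _ => {w | w = []}) (by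
          intro r hr w h
          simp only [hι, if_true, Finset.mem_singleton] at hr
          subst hr
          exact h) w hw
        have hw0 : w = [] := this
        subst hw0
        exact ⟨d₀, fun _ => 0, [], fun _ _ => rfl, by simp, rfl⟩
      · rintro ⟨d, f, l, _, _, rfl⟩
        refine ContextFreeGrammar.Produces.single ⟨⟨(), []⟩, by simp [hι], ?_⟩
        exact ContextFreeRule.Rewrites.input_output
    · constructor
      · intro hw
        have := sound _ (fun _ => ∅) (by
          intro r hr w h
          simp only [hι, if_false] at hr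
          exact absurd hr (Finset.notMem_empty _)) w hw
        exact absurd this (Set.notMem_empty _)
      · rintro ⟨d, _⟩
        exact absurd ⟨d⟩ hι
  | succ m =>
    refine ⟨gram m c S E, ?_⟩
    ext w
    constructor
    · intro hw
      obtain ⟨d, f, l, h1, h2, h3⟩ := gram_sound m c S E w hw
      exact ⟨d, f, l, h1, h2, by rw [h3]; simp only [add_assoc]⟩
    · rintro ⟨d, f, l, h1, h2, rfl⟩
      have h4 := complete m c S E hnc (fun d a b h => (hE d a b h).1) d (m + l.length) 0 m f l
        le_rfl (by omega) h1 (fun e he => ⟨h2 e he, Nat.zero_le _, by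
          have := hE _ _ _ (h2 e he)
          omega⟩)
      have h5 := prod_rule m c S E
        (r := ⟨none, tm (true :: List.replicate (c d 0) false) ++ [X d 0 m]⟩)
        (Or.inl ⟨d, rfl⟩)
      have h6 := h5.trans ((by simpa using h4 : (gram m c S E).Derives [X d 0 m] _).append_left
        (tm (true :: List.replicate (c d 0) false)))
      show (gram m c S E).Derives _ _
      have e : (fun i => c d i + f i + cnt l i) = fun i => c d i + (f i + cnt l i) := by
        funext i
        ring
      have e3 : ∀ u v : List Bool, (tm (true :: (u ++ v)) : List (Symbol Bool (NTy ι))) =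
          tm (true :: u) ++ tm v := by
        intro u v
        simp [tm]
      rw [e, wordOf_succ]
      show (gram m c S E).Derives _ (tm _)
      rw [e3]
      exact h6

end Pool.Agent.MP_5c6631_lc
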