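import Mathlib

set_option autoImplicit false

namespace Pool.Agent.MP_5c6631_lc

/-- `a` and `b` have the same sign. -/
def SameSign (a b : ℤ) : Prop := (0 < a ↔ 0 < b) ∧ (a < 0 ↔ b < 0)

/-- The closed arc of length `l` starting at `v` on the cycle `ZMod n`. -/
def arc {n : ℕ} (v : ZMod n) (l : ℕ) : Set (ZMod n) :=
  {w | ∃ i : ℕ, i ≤ l ∧ w = v + (i : ZMod n)}

/-- `k` has the same sign data as `x` on four points. -/
def blockSet {n : ℕ} (x : ZMod n → ℕ) (c0 c1 c2 c3 : ZMod n) : Set (ZMod n → ℕ) :=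
  {k | SameSign ((k c0 : ℤ) - k c3) ((x c0 : ℤ) - x c3) ∧
    SameSign ((k c1 : ℤ) - k c2) ((x c1 : ℤ) - x c2) ∧
    SameSign (|(k c0 : ℤ) - k c3| - |(k c1 : ℤ) - k c2|)
      (|(x c0 : ℤ) - x c3| - |(x c1 : ℤ) - x c2|)}

/-- `k` compares at `v`, `w` in the same way as `x`. -/
def chordSet {n : ℕ} (x : ZMod n → ℕ) (v w : ZMod n) : Set (ZMod n → ℕ) :=
  {k | SameSign ((k v : ℤ) - k w) ((x v : ℤ) - x w)}

/-- Non-crossing systems of comparisons: `Y` is the set of used points, `A` the set of all `k`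
which satisfy all recorded comparisons (as `x` does). -/
inductive Sys {n : ℕ} (x : ZMod n → ℕ) : Finset (ZMod n) → Set (ZMod n → ℕ) → Prop
  | empty : Sys x ∅ Set.univ
  | block (c : ZMod n) (t1 t2 t3 : ℕ) (h1 : 0 < t1) (h2 : t1 < t2) (h3 : t2 < t3) (h4 : t3 < n) :
      Sys x {c, c + (t1 : ZMod n), c + (t2 : ZMod n), c + (t3 : ZMod n)}
        (blockSet x c (c + (t1 : ZMod n)) (c + (t2 : ZMod n)) (c + (t3 : ZMod n)))
  | chord (Y : Finset (ZMod n)) (A : Set (ZMod n → ℕ)) (hS : Sys x Y A) (v : ZMod n) (l : ℕ)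
      (hl : 0 < l) (hln : l < n) (harc : ∀ w ∈ Y, w ∉ arc v l) :
      Sys x (insert v (insert (v + (l : ZMod n)) Y)) (A ∩ chordSet x v (v + (l : ZMod n)))

/-- Total number of endpoints of the pairs in `l` at `i`. -/
def cntZ {n : ℕ} (l : List (ZMod n × ZMod n)) (i : ZMod n) : ℕ :=
  (l.map (fun e => (if e.1 = i then 1 else 0) + (if e.2 = i then 1 else 0))).sum

end Pool.Agent.MP_5c6631_lc
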