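import Mathlib
import Pool.Agent.Lib.MP_5c6631_lc.CFG

set_option autoImplicit false

/-!
The word side: words of `(a b^*)^n`, primitivity of the word in terms of the vector of exponents.
-/

namespace Pool.Agent.MP_5c6631_lc

/-- The word `a b^{k_1} a b^{k_2} ⋯` of a list of exponents. -/
def enc (ks : List ℕ) : List Bool := (ks.map (fun k => true :: List.replicate k false)).flatten

lemma enc_nil : enc [] = [] := rfl

lemma enc_cons (k : ℕ) (ks : List ℕ) :
    enc (k :: ks) = true :: (List.replicate k false ++ enc ks) := by
  simp [enc]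

lemma enc_append (ks ks' : List ℕ) : enc (ks ++ ks') = enc ks ++ enc ks' := by
  simp [enc]

lemma enc_replicate_flatten (r : ℕ) (ks : List ℕ) :
    enc (List.replicate r ks).flatten = (List.replicate r (enc ks)).flatten := by
  induction r with
  | zero => simp [enc_nil]
  | succ r ih => simp [List.replicate_succ, enc_append, ih]

/-- Head of the encoding: empty or starting with `true`. -/
lemma enc_eq_nil_or (ks : List ℕ) : enc ks = [] ∨ ∃ t, enc ks = true :: t := by
  cases ks with
  | nil => left; rfl
  | cons k ks => right; exact ⟨_, enc_cons k ks⟩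

lemma replicate_false_append_inj {a b : ℕ} {ks ks' : List ℕ}
    (h : List.replicate a false ++ enc ks = List.replicate b false ++ enc ks') :
    a = b ∧ enc ks = enc ks' := by
  induction a generalizing b with
  | zero =>
    cases b with
    | zero => simpa using h
    | succ b =>
      exfalso
      simp only [List.replicate_zero, List.nil_append, List.replicate_succ,
        List.cons_append] at h
      rcases enc_eq_nil_or ks with h' | ⟨t, h'⟩ <;> rw [h'] at h <;> simp at h
  | succ a ih =>
    cases b with
    | zero =>
      exfalso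
      simp only [List.replicate_zero, List.nil_append, List.replicate_succ,
        List.cons_append] at h
      rcases enc_eq_nil_or ks' with h' | ⟨t, h'⟩ <;> rw [h'] at h <;> simp at h
    | succ b =>
      simp only [List.replicate_succ, List.cons_append, List.cons.injEq, true_and] at h
      obtain ⟨h1, h2⟩ := ih h
      exact ⟨by omega, h2⟩

lemma enc_injective : Function.Injective enc := by
  intro ks
  induction ks with
  | nil =>
    intro ks' h
    cases ks' with
    | nil => rfl
    | cons k ks' => rw [enc_nil, enc_cons] at h; exact absurd h.symm (List.cons_ne_nil _ _)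
  | cons k ks ih =>
    intro ks' h
    cases ks' with
    | nil => rw [enc_nil, enc_cons] at h; exact absurd h (List.cons_ne_nil _ _)
    | cons k' ks' =>
      rw [enc_cons, enc_cons, List.cons.injEq] at h
      obtain ⟨h1, h2⟩ := replicate_false_append_inj h.2
      rw [h1, ih h2]

lemma exists_enc (w : List Bool) : ∃ (j : ℕ) (ks : List ℕ), w = List.replicate j false ++ enc ks := by
  induction w with
  | nil => exact ⟨0, [], rfl⟩
  | cons b w ih =>
    obtain ⟨j, ks, rfl⟩ := ih
    cases b with
    | true => exact ⟨0, j :: ks, by simp [enc_cons]⟩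
    | false => exact ⟨j + 1, ks, by simp [List.replicate_succ]⟩

/-- A power decomposition (with exponent at least one) of an encoded word is encoded. -/
lemma exists_enc_of_flatten {u : List Bool} {r : ℕ} (hr : r ≠ 0) {ks : List ℕ}
    (h : (List.replicate r u).flatten = enc ks) : ∃ us, u = enc us := by
  obtain ⟨j, us, rfl⟩ := exists_enc u
  cases j with
  | zero => exact ⟨us, by simp⟩
  | succ j =>
    exfalso
    obtain ⟨r, rfl⟩ := Nat.exists_eq_succ_of_ne_zero hr
    simp only [List.replicate_succ, List.flatten_cons, List.cons_append] at h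
    rcases enc_eq_nil_or ks with h' | ⟨t, h'⟩ <;> rw [h'] at h <;> simp at h

/-- Primitivity of an encoded nonempty word. -/
lemma prim_enc_iff {ks : List ℕ} (hks : ks ≠ []) :
    (∀ (u : List Bool) (r : ℕ), (List.replicate r u).flatten = enc ks → r = 1) ↔
      ∀ p : ℕ, p.Prime → ∀ us : List ℕ, (List.replicate p us).flatten ≠ ks := by
  constructor
  · intro h p hp us hus
    have := h (enc us) p (by rw [← enc_replicate_flatten, hus])
    exact hp.one_lt.ne' this
  · intro h u r hur
    by_contra hr1
    rcases Nat.eq_zero_or_pos r with rfl | hr0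
    · apply hks
      apply enc_injective
      rw [enc_nil, ← hur]
      simp
    · obtain ⟨p, hp, q, rfl⟩ := Nat.exists_prime_and_dvd hr1
      obtain ⟨us, rfl⟩ := exists_enc_of_flatten hr0.ne' hur
      refine h p hp (List.replicate q us).flatten ?_
      apply enc_injective
      rw [← hur, enc_replicate_flatten, enc_replicate_flatten]
      clear hur hr0 hr1 h
      have key : ∀ p : ℕ, (List.replicate p (List.replicate q (enc us)).flatten).flatten =
          (List.replicate (p * q) (enc us)).flatten := by
        intro p
        induction p with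
        | zero => simp
        | succ p ih =>
          rw [List.replicate_succ, List.flatten_cons, ih, Nat.succ_mul, Nat.add_comm (p * q) q,
            List.replicate_add, List.flatten_append]
      exact key p

lemma length_replicate_flatten (r : ℕ) (us : List ℕ) :
    (List.replicate r us).flatten.length = r * us.length := by
  simp

lemma getElem?_replicate_flatten (us : List ℕ) (r i : ℕ) (hi : i < r * us.length) :
    (List.replicate r us).flatten[i]? = us[i % us.length]? := by
  induction r generalizing i with
  | zero => simp at hi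
  | succ r ih =>
    rw [List.replicate_succ, List.flatten_cons]
    by_cases h : i < us.length
    · rw [List.getElem?_append_left h, Nat.mod_eq_of_lt h]
    · push Not at h
      rw [List.getElem?_append_right h, ih _ (by
        rw [Nat.succ_mul] at hi; omega)]
      congr 1
      conv_rhs => rw [← Nat.sub_add_cancel h]
      simp

/-- Periodicity of a vector versus power decomposition of the list. -/
lemma flatten_eq_iff {n : ℕ} (hn : n ≠ 0) (k : ℕ → ℕ) {p : ℕ} (hp : p ≠ 0) :
    (∃ us : List ℕ, (List.replicate p us).flatten = (List.range n).map k) ↔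
      p ∣ n ∧ ∀ i, k (i % n) = k ((i + n / p) % n) := by
  constructor
  · rintro ⟨us, hus⟩
    have hlen : p * us.length = n := by
      rw [← length_replicate_flatten, hus]; simp
    have hdiv : n / p = us.length := by
      rw [← hlen]; exact Nat.mul_div_cancel_left _ (Nat.pos_of_ne_zero hp)
    refine ⟨⟨us.length, hlen.symm⟩, fun i => ?_⟩
    have key : ∀ i, some (k (i % n)) = us[i % us.length]? := by
      intro i
      have hi : i % n < n := Nat.mod_lt _ (Nat.pos_of_ne_zero hn)
      have h1 := getElem?_replicate_flatten us p (i % n) (by rw [hlen]; exact hi)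
      rw [hus] at h1
      have h2 : i % n % us.length = i % us.length := by
        rw [Nat.mod_mod_of_dvd _ ⟨p, by rw [← hlen, Nat.mul_comm]⟩]
      rw [h2] at h1
      rw [← h1]
      simp [hi]
    have h1 := key i
    have h2 := key (i + n / p)
    rw [hdiv, Nat.add_mod_right, ← h1] at h2
    rw [hdiv]
    exact (Option.some.inj h2).symm
  · rintro ⟨⟨m, rfl⟩, h⟩
    have hm : m ≠ 0 := by rintro rfl; simp at hn
    rw [Nat.mul_div_cancel_left _ (Nat.pos_of_ne_zero hp)] at h
    refine ⟨(List.range m).map k, ?_⟩
    apply List.ext_getElem?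
    intro i
    by_cases hi : i < p * m
    · rw [getElem?_replicate_flatten _ _ _ (by simpa using hi)]
      have him : i % m < m := Nat.mod_lt _ (Nat.pos_of_ne_zero hm)
      have key : ∀ j : ℕ, ∀ t < m, j < p → k (t + j * m) = k t := by
        intro j
        induction j with
        | zero => intro t _ _; simp
        | succ j ih =>
          intro t ht hj
          have hlt : t + j * m + m < p * m + 0 := by
            have : (j + 1 + 1) * m ≤ p * m := Nat.mul_le_mul_right m hj
            have e : (j + 1 + 1) * m = j * m + m + m := by ring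
            omega
          have h1 := h (t + j * m)
          rw [Nat.mod_eq_of_lt (by omega), Nat.mod_eq_of_lt (by omega), ih t ht (by omega)] at h1
          rw [h1]
          congr 1
          ring
      have h3 : k i = k (i % m) := by
        have := key (i / m) (i % m) him
          ((Nat.div_lt_iff_lt_mul (Nat.pos_of_ne_zero hm)).2 hi)
        rw [Nat.mul_comm, Nat.mod_add_div] at this
        exact this
      simp [hi, him, h3]
    · push Not at hi
      rw [List.getElem?_eq_none (by simpa using hi), List.getElem?_eq_none (by simpa using hi)]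

lemma wordOf_eq_enc (n : ℕ) (k : ℕ → ℕ) : wordOf n k = enc ((List.range n).map k) := by
  simp [wordOf, enc, List.flatMap, List.map_map, Function.comp_def]

/-- The word determines the vector on `[0, n)`. -/
theorem wordOf_inj {n : ℕ} {k k' : ℕ → ℕ} (h : wordOf n k = wordOf n k') :
    ∀ i < n, k i = k' i := by
  rw [wordOf_eq_enc, wordOf_eq_enc] at h
  have h1 := enc_injective h
  intro i hi
  have h2 := congrArg (fun l => l[i]?) h1
  simpa [hi] using h2

theorem wordOf_congr {n : ℕ} {k k' : ℕ → ℕ} (h : ∀ i < n, k i = k' i) :
    wordOf n k = wordOf n k' := by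
  rw [wordOf_eq_enc, wordOf_eq_enc]
  congr 1
  apply List.map_congr_left
  intro i hi
  exact h i (List.mem_range.1 hi)

theorem wordOf_eq_iff {n : ℕ} {k k' : ℕ → ℕ} :
    wordOf n k = wordOf n k' ↔ ∀ i < n, k i = k' i :=
  ⟨wordOf_inj, wordOf_congr⟩

/-- Primitivity of the word of a vector. -/
theorem primitive_iff {n : ℕ} (hn : n ≠ 0) (k : ℕ → ℕ) :
    (∀ (u : List Bool) (r : ℕ), (List.replicate r u).flatten = wordOf n k → r = 1) ↔
      ∀ p : ℕ, p.Prime → p ∣ n → ∃ i, k (i % n) ≠ k ((i + n / p) % n) := by
  rw [wordOf_eq_enc, prim_enc_iff (by simpa using hn)]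
  constructor
  · intro h p hp hpn
    by_contra hcon
    push Not at hcon
    obtain ⟨us, hus⟩ := (flatten_eq_iff hn k hp.ne_zero).2 ⟨hpn, hcon⟩
    exact h p hp us hus
  · intro h p hp us hus
    obtain ⟨hpn, hcon⟩ := (flatten_eq_iff hn k hp.ne_zero).1 ⟨us, hus⟩
    obtain ⟨i, hi⟩ := h p hp hpn
    exact hi (hcon i)

/-- Words of `(a b^*)^n` are the words of vectors. -/
theorem exists_list_iff (n : ℕ) (w : List Bool) :
    (∃ ks : List ℕ, ks.length = n ∧
        w = (ks.map (fun k => true :: List.replicate k false)).flatten) ↔
      ∃ k : ℕ → ℕ, w = wordOf n k := by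
  constructor
  · rintro ⟨ks, rfl, rfl⟩
    refine ⟨fun i => ks.getD i 0, ?_⟩
    rw [wordOf_eq_enc]
    change enc ks = _
    congr 1
    apply List.ext_getElem?
    intro i
    by_cases hi : i < ks.length
    · simp [hi]
    · push Not at hi
      rw [List.getElem?_eq_none hi, List.getElem?_eq_none (by simpa using hi)]
  · rintro ⟨k, rfl⟩
    exact ⟨(List.range n).map k, by simp, wordOf_eq_enc n k⟩

/-- Periodicity on `ZMod n` and on `ℕ`. -/
theorem zmod_shift_iff {n : ℕ} [NeZero n] (x : ZMod n → ℕ) (m : ℕ) :
    (∃ i : ℕ, x ((i % n : ℕ) : ZMod n) ≠ x (((i + m) % n : ℕ) : ZMod n)) ↔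
      ¬ ∀ u : ZMod n, x (u + (m : ZMod n)) = x u := by
  constructor
  · rintro ⟨i, hi⟩ h
    apply hi
    rw [ZMod.natCast_mod, ZMod.natCast_mod, Nat.cast_add]
    exact (h _).symm
  · intro h
    push Not at h
    obtain ⟨u, hu⟩ := h
    refine ⟨u.val, ?_⟩
    rw [ZMod.natCast_mod, ZMod.natCast_mod, Nat.cast_add, ZMod.natCast_zmod_val]
    exact fun h => hu h.symm

/-- The language of the problem, `n ≠ 0`, in terms of vectors `ZMod n → ℕ`. -/
theorem lang_eq (n : ℕ) [NeZero n] :
    (({w : List Bool |
          (∃ ks : List ℕ, ks.length = n ∧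
              w = (ks.map (fun k => true :: List.replicate k false)).flatten) ∧
          (∀ u : List Bool, ∀ k : ℕ, (List.replicate k u).flatten = w → k = 1)}) :
        Language Bool) =
    ({w : List Bool | ∃ x : ZMod n → ℕ,
        (∀ p : ℕ, p.Prime → p ∣ n → ¬ ∀ u : ZMod n, x (u + ((n / p : ℕ) : ZMod n)) = x u) ∧
        w = wordOf n (fun i => x (i : ZMod n))} : Language Bool) := by
  apply Set.ext
  intro w
  rw [Set.mem_ofPred_eq, Set.mem_ofPred_eq, exists_list_iff]
  constructor
  · rintro ⟨⟨k, rfl⟩, h⟩
    have hw : wordOf n k = wordOf n (fun i => k ((i : ZMod n)).val) := by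
      apply wordOf_congr
      intro i hi
      rw [ZMod.val_natCast_of_lt hi]
    refine ⟨fun u => k u.val, ?_, hw⟩
    rw [hw, primitive_iff (NeZero.ne n)] at h
    intro p hp hpn
    have := h p hp hpn
    exact (zmod_shift_iff (fun u => k u.val) (n / p)).1 this
  · rintro ⟨x, hx, rfl⟩
    refine ⟨⟨_, rfl⟩, ?_⟩
    rw [primitive_iff (NeZero.ne n)]
    intro p hp hpn
    exact (zmod_shift_iff x (n / p)).2 (hx p hp hpn)

/-- The language of the problem for `n = 0` is empty. -/
theorem lang_zero :
    (({w : List Bool |
          (∃ ks : List ℕ, ks.length = 0 ∧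
              w = (ks.map (fun k => true :: List.replicate k false)).flatten) ∧
          (∀ u : List Bool, ∀ k : ℕ, (List.replicate k u).flatten = w → k = 1)}) :
        Language Bool) = (∅ : Set (List Bool)) := by
  apply Set.eq_empty_of_forall_notMem
  rintro w ⟨⟨ks, hks, rfl⟩, h⟩
  have : ks = [] := List.length_eq_zero_iff.1 hks
  subst this
  have := h [] 0 (by simp)
  omega

end Pool.Agent.MP_5c6631_lc
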