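import Mathlib
import Pool.Agent.Lib.MP_5c6631_lc.CFG
import Pool.Agent.Lib.MP_5c6631_lc.Words
import Pool.Agent.Lib.MP_5c6631_lc.Sys

set_option autoImplicit false

/-!
Assembly: from the combinatorial claim (every irregular vector `x` has a noncrossing system all of
whose members are irregular) to context-freeness of the language of the problem.
-/

namespace Pool.Agent.MP_5c6631_lc

/-- `k` is irregular: not `n/p`-periodic for any prime divisor `p` of `n`. -/
def Irr (n : ℕ) (k : ZMod n → ℕ) : Prop :=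
  ∀ p : ℕ, p.Prime → p ∣ n → ¬ ∀ u : ZMod n, k (u + ((n / p : ℕ) : ZMod n)) = k u

/-- Data of a stratified linear set. -/
abbrev Dat (n : ℕ) : Type :=
  (ZMod n → Fin 3) × Finset (ZMod n) × Finset (ZMod n × ZMod n)

/-- Membership in the linear set of the data. -/
def Dat.mem {n : ℕ} (d : Dat n) (k : ZMod n → ℕ) : Prop :=
  ∃ (f : ZMod n → ℕ) (l : List (ZMod n × ZMod n)), (∀ i, i ∉ d.2.1 → f i = 0) ∧
    (∀ e ∈ l, e ∈ d.2.2) ∧ ∀ i, k i = (d.1 i : ℕ) + f i + cntZ l i

/-- Good data: normalised and noncrossing edges, all members irregular. -/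
def Dat.Good {n : ℕ} (d : Dat n) : Prop :=
  (∀ e ∈ d.2.2, e.1.val < e.2.val) ∧
  (∀ e ∈ d.2.2, ∀ e' ∈ d.2.2,
    ¬ (e.1.val < e'.1.val ∧ e'.1.val < e.2.val ∧ e.2.val < e'.2.val)) ∧
  ∀ k, d.mem k → Irr n k

lemma zmod_cast_inj {n : ℕ} [NeZero n] {a b : ℕ} (ha : a < n) (hb : b < n) :
    ((a : ZMod n) = (b : ZMod n)) ↔ a = b := by
  constructor
  · intro h
    have := congrArg ZMod.val h
    rwa [ZMod.val_natCast_of_lt ha, ZMod.val_natCast_of_lt hb] at this
  · rintro rfl; rfl

lemma zmod_val_eq_iff {n : ℕ} [NeZero n] (u : ZMod n) {b : ℕ} (hb : b < n) :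
    u.val = b ↔ u = (b : ZMod n) := by
  constructor
  · intro h
    rw [← h, ZMod.natCast_zmod_val]
  · rintro rfl
    exact ZMod.val_natCast_of_lt hb

lemma cnt_map_val {n : ℕ} [NeZero n] (l : List (ZMod n × ZMod n)) {i : ℕ} (hi : i < n) :
    cnt (l.map (fun e => (e.1.val, e.2.val))) i = cntZ l (i : ZMod n) := by
  unfold cnt cntZ
  rw [List.map_map]
  congr 1
  apply List.map_congr_left
  intro e _
  simp only [Function.comp_apply, zmod_val_eq_iff _ hi]

lemma cntZ_map_cast {n : ℕ} [NeZero n] (l : List (ℕ × ℕ)) (hl : ∀ e ∈ l, e.1 < n ∧ e.2 < n)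
    {i : ℕ} (hi : i < n) :
    cntZ (l.map (fun e => ((e.1 : ZMod n), (e.2 : ZMod n)))) (i : ZMod n) = cnt l i := by
  unfold cnt cntZ
  rw [List.map_map]
  congr 1
  apply List.map_congr_left
  intro e he
  simp only [Function.comp_apply, zmod_cast_inj (hl e he).1 hi, zmod_cast_inj (hl e he).2 hi]

lemma cf_transport {L L' : Language Bool} (h : ∀ w : List Bool, w ∈ L ↔ w ∈ L')
    (hL' : Language.IsContextFree L') : Language.IsContextFree L := by
  have : L = L' := Set.ext h
  rw [this]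
  exact hL'

/-- Reduction of the frozen statement (for `n ≠ 0`) to data. -/
theorem cf_of_data (n : ℕ) [NeZero n] (H : ∀ x : ZMod n → ℕ, Irr n x → ∃ d : Dat n,
      d.Good ∧ d.mem x) :
    Language.IsContextFree
      (({w : List Bool |
          (∃ ks : List ℕ, ks.length = n ∧
              w = (ks.map (fun k => true :: List.replicate k false)).flatten) ∧
          (∀ u : List Bool, ∀ k : ℕ, (List.replicate k u).flatten = w → k = 1)}) :
        Language Bool) := by
  rw [lang_eq]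
  have key := cf_union n (ι := {d : Dat n // d.Good})
    (fun d i => (d.1.1 (i : ZMod n) : ℕ))
    (fun d i => (i : ZMod n) ∈ d.1.2.1)
    (fun d a b => a < n ∧ b < n ∧ ((a : ZMod n), (b : ZMod n)) ∈ d.1.2.2)
    (by
      rintro ⟨d, hd⟩ a b ⟨ha, hb, he⟩
      have := hd.1 _ he
      simp only [ZMod.val_natCast_of_lt ha, ZMod.val_natCast_of_lt hb] at this
      exact ⟨this, hb⟩)
    (by
      rintro ⟨d, hd⟩ a b a' b' ⟨ha, hb, he⟩ ⟨ha', hb', he'⟩
      have := hd.2.1 _ he _ he'
      simpa only [ZMod.val_natCast_of_lt ha, ZMod.val_natCast_of_lt hb,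
        ZMod.val_natCast_of_lt ha', ZMod.val_natCast_of_lt hb'] using this)
  refine cf_transport ?_ key
  intro w
  constructor
  · rintro ⟨x, hx, rfl⟩
    obtain ⟨d, hd, f, l, hf, hl, hk⟩ := H x hx
    refine ⟨⟨d, hd⟩, fun i => f (i : ZMod n), l.map (fun e => (e.1.val, e.2.val)), ?_, ?_, ?_⟩
    · intro i hi
      exact hf _ hi
    · intro e he
      obtain ⟨e', he', rfl⟩ := List.mem_map.1 he
      refine ⟨ZMod.val_lt _, ZMod.val_lt _, ?_⟩
      simp only [ZMod.natCast_zmod_val]
      exact hl e' he'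
    · apply wordOf_congr
      intro i hi
      rw [hk, cnt_map_val l hi]
  · rintro ⟨⟨d, hd⟩, f, l, hf, hl, rfl⟩
    have hmem : d.mem (fun u => (d.1 u : ℕ) + f u.val +
        cntZ (l.map (fun e => ((e.1 : ZMod n), (e.2 : ZMod n)))) u) := by
      refine ⟨fun u => f u.val, l.map (fun e => ((e.1 : ZMod n), (e.2 : ZMod n))), ?_, ?_,
        fun i => rfl⟩
      · intro i hi
        apply hf
        simpa using hi
      · intro e he
        obtain ⟨e', he', rfl⟩ := List.mem_map.1 he
        exact (hl e' he').2.2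
    refine ⟨_, hd.2.2 _ hmem, ?_⟩
    apply wordOf_congr
    intro i hi
    simp only
    rw [cntZ_map_cast l (fun e he => ⟨(hl e he).1, (hl e he).2.1⟩) hi, ZMod.val_natCast_of_lt hi]

lemma SameSign.refl (a : ℤ) : SameSign a a := ⟨Iff.rfl, Iff.rfl⟩

lemma Sys.self_mem {n : ℕ} {x : ZMod n → ℕ} {Y : Finset (ZMod n)} {A : Set (ZMod n → ℕ)}
    (h : Sys x Y A) : x ∈ A := by
  induction h with
  | empty => trivial
  | block c t1 t2 t3 h1 h2 h3 h4 => exact ⟨SameSign.refl _, SameSign.refl _, SameSign.refl _⟩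
  | chord Y A hS v l hl hln harc ih => exact ⟨ih, SameSign.refl _⟩

/-- The statement of `Sys.realize` (part (C)). -/
def RealizeStatement (n : ℕ) : Prop :=
  ∀ (x : ZMod n → ℕ) (Y : Finset (ZMod n)) (A : Set (ZMod n → ℕ)), Sys x Y A →
  ∃ (c : ZMod n → ℕ) (S : Finset (ZMod n)) (E : Finset (ZMod n × ZMod n)),
    (∀ i, c i ≤ 2) ∧ (∀ e ∈ E, e.1.val < e.2.val) ∧
    (∀ e ∈ E, ∀ e' ∈ E, ¬ (e.1.val < e'.1.val ∧ e'.1.val < e.2.val ∧ e.2.val < e'.2.val)) ∧
    ∀ k : ZMod n → ℕ, k ∈ A ↔ ∃ (f : ZMod n → ℕ) (l : List (ZMod n × ZMod n)),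
      (∀ i, i ∉ S → f i = 0) ∧ (∀ e ∈ l, e ∈ E) ∧ ∀ i, k i = c i + f i + cntZ l i

/-- Final reduction: the frozen statement for `n ≠ 0` from `Sys.realize` and the claim. -/
theorem cf_of_sys (n : ℕ) [NeZero n] (hreal : RealizeStatement n)
    (H : ∀ x : ZMod n → ℕ, Irr n x → ∃ (Y : Finset (ZMod n)) (A : Set (ZMod n → ℕ)),
      Sys x Y A ∧ ∀ k ∈ A, Irr n k) :
    Language.IsContextFree
      (({w : List Bool |
          (∃ ks : List ℕ, ks.length = n ∧
              w = (ks.map (fun k => true :: List.replicate k false)).flatten) ∧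
          (∀ u : List Bool, ∀ k : ℕ, (List.replicate k u).flatten = w → k = 1)}) :
        Language Bool) := by
  apply cf_of_data
  intro x hx
  obtain ⟨Y, A, hS, hA⟩ := H x hx
  obtain ⟨c, S, E, hc, hE, hnc, hk⟩ := hreal x Y A hS
  have hmem : ∀ k, Dat.mem (n := n) (fun i => ⟨c i, by have := hc i; omega⟩, S, E) k ↔ k ∈ A := by
    intro k
    rw [hk]
    rfl
  refine ⟨(fun i => ⟨c i, by have := hc i; omega⟩, S, E), ⟨hE, hnc, ?_⟩, ?_⟩
  · intro k hk'
    exact hA k ((hmem k).1 hk')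
  · exact (hmem x).2 hS.self_mem

/-- The frozen statement for `n = 0`. -/
theorem cf_zero :
    Language.IsContextFree
      (({w : List Bool |
          (∃ ks : List ℕ, ks.length = 0 ∧
              w = (ks.map (fun k => true :: List.replicate k false)).flatten) ∧
          (∀ u : List Bool, ∀ k : ℕ, (List.replicate k u).flatten = w → k = 1)}) :
        Language Bool) := by
  rw [lang_zero]
  have key := cf_union 0 (ι := Empty) (fun d _ => d.elim) (fun d _ => d.elim)
    (fun d _ _ => d.elim) (fun d => d.elim) (fun d => d.elim)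
  refine cf_transport ?_ key
  intro w
  constructor
  · intro h; exact absurd h (Set.notMem_empty w)
  · rintro ⟨d, _⟩; exact d.elim

/-- The whole frozen statement from `Sys.realize` and the claim. -/
theorem main_of_sys (hreal : ∀ n : ℕ, n ≠ 0 → RealizeStatement n)
    (H : ∀ n : ℕ, n ≠ 0 → ∀ x : ZMod n → ℕ, Irr n x →
      ∃ (Y : Finset (ZMod n)) (A : Set (ZMod n → ℕ)), Sys x Y A ∧ ∀ k ∈ A, Irr n k) :
    ∀ n : ℕ, Language.IsContextFree
      (({w : List Bool |
          (∃ ks : List ℕ, ks.length = n ∧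
              w = (ks.map (fun k => true :: List.replicate k false)).flatten) ∧
          (∀ u : List Bool, ∀ k : ℕ, (List.replicate k u).flatten = w → k = 1)}) :
        Language Bool) := by
  intro n
  rcases Nat.eq_zero_or_pos n with rfl | hn
  · exact cf_zero
  · have : NeZero n := ⟨hn.ne'⟩
    exact cf_of_sys n (hreal n hn.ne') (H n hn.ne')

end Pool.Agent.MP_5c6631_lc
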