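import Mathlib

set_option autoImplicit false

namespace Pool.Agent.MP_5c6631_lc

open Finset

lemma int_prod_dvd {P : Finset ℕ} (hP : ∀ p ∈ P, p.Prime) {z : ℤ} (h : ∀ p ∈ P, (p : ℤ) ∣ z) :
    (∏ p ∈ P, (p : ℤ)) ∣ z := by
  apply Finset.prod_dvd_of_coprime
  · intro p hp q hq hpq
    have : Nat.Coprime p q := (Nat.coprime_primes (hP p hp) (hP q hq)).2 hpq
    exact Nat.isCoprime_iff_coprime.2 this
  · exact h

lemma exists_mul_modeq {p : ℕ} (hp : p.Prime) {κ : ℤ} (hκ : ¬ (p : ℤ) ∣ κ) (g : ℤ) :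
    ∃ m : ℕ, (p : ℤ) ∣ g - m * κ := by
  have hcop : IsCoprime (p : ℤ) κ := by
    exact ((Nat.prime_iff_prime_int.1 hp).coprime_iff_not_dvd).2 hκ
  obtain ⟨a, b, hab⟩ := hcop
  have hp0 : (p : ℤ) ≠ 0 := by exact_mod_cast hp.ne_zero
  refine ⟨((b * g) % p).toNat, ?_⟩
  rw [Int.toNat_of_nonneg (Int.emod_nonneg _ hp0)]
  have h1 : b * g % (p : ℤ) = b * g - p * (b * g / p) := by
    have := Int.emod_add_mul_ediv (b * g) p
    linarith
  rw [h1]
  refine ⟨a * g + (b * g / p) * κ, ?_⟩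
  have : g = (a * p + b * κ) * g := by rw [hab]; ring
  calc g - (b * g - ↑p * (b * g / ↑p)) * κ
      = (a * p + b * κ) * g - (b * g - ↑p * (b * g / ↑p)) * κ := by rw [← this]
    _ = _ := by ring

/-- the structural part of a bundle -/
structure IsTB {α : Type*} (P : Finset ℕ) (F : ℤ → α) (K κ : ℕ → ℤ) (J : Finset ℤ) (B : Finset ℕ) :
    Prop where
  sub : B ⊆ P
  neB : B.Nonempty
  neJ : J.Nonempty
  card : J.card ≤ B.card + 1
  pair : ∀ p ∈ B, ∃ y ∈ J, y + K p ∈ J ∧ F (y + K p) ≠ F y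
  out : ∀ y ∈ J, ∀ y' ∈ J, ∀ q ∈ P, q ∉ B → (q : ℤ) ∣ y - y'
  inn : ∀ y ∈ J, ∀ y' ∈ J, ∀ q ∈ B, ∃ ε : ℤ, (ε = -1 ∨ ε = 0 ∨ ε = 1) ∧ (q : ℤ) ∣ y - y' - ε * κ q
  dist : ∀ y ∈ J, ∀ y' ∈ J, y ≠ y' → ∃ q ∈ B, ¬ (q : ℤ) ∣ y - y'

variable {α : Type*} {P : Finset ℕ} {F : ℤ → α} {K κ : ℕ → ℤ}

lemma IsTB.start (hK : ∀ p ∈ P, ∀ q ∈ P, q ≠ p → (q : ℤ) ∣ K p)
    (hκ : ∀ p ∈ P, (p : ℤ) ∣ K p - κ p) (hκ' : ∀ p ∈ P, ¬ (p : ℤ) ∣ κ p)
    {p0 : ℕ} (hp0 : p0 ∈ P) {y0 : ℤ} (h0 : F (y0 + K p0) ≠ F y0) :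
    IsTB P F K κ {y0, y0 + K p0} {p0} := by
  have hKp : ¬ (p0 : ℤ) ∣ K p0 := fun h => hκ' p0 hp0 (by
    have := dvd_sub h (hκ p0 hp0)
    simpa using this)
  refine ⟨by simpa using hp0, by simp, by simp, ?_, ?_, ?_, ?_, ?_⟩
  · simpa using Finset.card_le_two
  · intro p hp
    rw [Finset.mem_singleton] at hp
    subst hp
    exact ⟨y0, by simp, by simp, h0⟩
  · intro y hy y' hy' q hq hqB
    have hqp : q ≠ p0 := by simpa using hqB
    have hd := hK p0 hp0 q hq hqp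
    simp only [Finset.mem_insert, Finset.mem_singleton] at hy hy'
    rcases hy with rfl | rfl <;> rcases hy' with rfl | rfl
    · simp
    · rw [show y - (y + K p0) = -(K p0) by ring]; exact hd.neg_right
    · rw [show y' + K p0 - y' = K p0 by ring]; exact hd
    · simp
  · intro y hy y' hy' q hq
    rw [Finset.mem_singleton] at hq
    subst hq
    have hd := hκ q hp0
    simp only [Finset.mem_insert, Finset.mem_singleton] at hy hy'
    rcases hy with rfl | rfl <;> rcases hy' with rfl | rfl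
    · exact ⟨0, by simp, by simp⟩
    · refine ⟨-1, by simp, ?_⟩
      rw [show y - (y + K q) - -1 * κ q = -(K q - κ q) by ring]; exact hd.neg_right
    · refine ⟨1, by simp, ?_⟩
      rw [show y' + K q - y' - 1 * κ q = (K q - κ q) by ring]; exact hd
    · exact ⟨0, by simp, by simp⟩
  · intro y hy y' hy' hne
    refine ⟨p0, by simp, ?_⟩
    simp only [Finset.mem_insert, Finset.mem_singleton] at hy hy'
    rcases hy with rfl | rfl <;> rcases hy' with rfl | rfl
    · exact absurd rfl hne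
    · rw [show y - (y + K p0) = -(K p0) by ring]; rwa [dvd_neg]
    · rw [show y' + K p0 - y' = K p0 by ring]; exact hKp
    · exact absurd rfl hne

lemma IsTB.extend (hK : ∀ p ∈ P, ∀ q ∈ P, q ≠ p → (q : ℤ) ∣ K p)
    (hκ : ∀ p ∈ P, (p : ℤ) ∣ K p - κ p) (hκ' : ∀ p ∈ P, ¬ (p : ℤ) ∣ κ p)
    {J : Finset ℤ} {B : Finset ℕ} (hT : IsTB P F K κ J B)
    {h : ℤ} (hh : ∀ y ∈ J, F (y + h) = F y) {y1 : ℤ} (hy1 : y1 ∈ J) {p : ℕ} (hp : p ∈ P)
    (hpB : p ∉ B) (hF : F (y1 + h + K p) ≠ F (y1 + h)) :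
    IsTB P F K κ (insert (y1 + h + K p) (J.image (· + h))) (insert p B) := by
  have hKp : ¬ (p : ℤ) ∣ K p := fun h => hκ' p hp (by
    have := dvd_sub h (hκ p hp)
    simpa using this)
  refine ⟨?_, by simp, by simp, ?_, ?_, ?_, ?_, ?_⟩
  · exact Finset.insert_subset hp hT.sub
  · have h1 := Finset.card_insert_le (y1 + h + K p) (J.image (· + h))
    have h2 : (J.image (· + h)).card ≤ J.card := Finset.card_image_le
    rw [Finset.card_insert_of_notMem hpB]
    have := hT.card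
    omega
  · intro q hq
    rcases Finset.mem_insert.1 hq with rfl | hq
    · exact ⟨y1 + h, by simp; right; exact hy1, by simp, hF⟩
    · obtain ⟨y, hy, hyK, hne⟩ := hT.pair q hq
      refine ⟨y + h, by simp; right; exact hy, ?_, ?_⟩
      · simp only [Finset.mem_insert, Finset.mem_image]
        right
        exact ⟨y + K q, hyK, by ring⟩
      · rw [show y + h + K q = y + K q + h by ring, hh _ hyK, hh _ hy]
        exact hne
  · intro y hy y' hy' q hq hqB
    have hqp : q ≠ p := fun e => hqB (by simp [e])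
    have hqB' : q ∉ B := fun e => hqB (by simp [e])
    have hd := hK p hp q hq hqp
    simp only [Finset.mem_insert, Finset.mem_image] at hy hy'
    rcases hy with rfl | ⟨z, hz, rfl⟩ <;> rcases hy' with rfl | ⟨z', hz', rfl⟩
    · simp
    · rw [show y1 + h + K p - (z' + h) = (y1 - z') + K p by ring]
      exact dvd_add (hT.out _ hy1 _ hz' q hq hqB') hd
    · rw [show z + h - (y1 + h + K p) = (z - y1) - K p by ring]
      exact dvd_sub (hT.out _ hz _ hy1 q hq hqB') hd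
    · rw [show z + h - (z' + h) = z - z' by ring]
      exact hT.out _ hz _ hz' q hq hqB'
  · intro y hy y' hy' q hq
    simp only [Finset.mem_insert, Finset.mem_image] at hy hy'
    rcases Finset.mem_insert.1 hq with rfl | hqB
    · have hd := hκ q hp
      rcases hy with rfl | ⟨z, hz, rfl⟩ <;> rcases hy' with rfl | ⟨z', hz', rfl⟩
      · exact ⟨0, by simp, by simp⟩
      · refine ⟨1, by simp, ?_⟩
        rw [show y1 + h + K q - (z' + h) - 1 * κ q = (y1 - z') + (K q - κ q) by ring]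
        exact dvd_add (hT.out _ hy1 _ hz' q hp hpB) hd
      · refine ⟨-1, by simp, ?_⟩
        rw [show z + h - (y1 + h + K q) - -1 * κ q = (z - y1) - (K q - κ q) by ring]
        exact dvd_sub (hT.out _ hz _ hy1 q hp hpB) hd
      · refine ⟨0, by simp, ?_⟩
        rw [show z + h - (z' + h) - 0 * κ q = z - z' by ring]
        exact hT.out _ hz _ hz' q hp hpB
    · have hqp : q ≠ p := fun e => hpB (e ▸ hqB)
      have hd := hK p hp q (hT.sub hqB) hqp
      rcases hy with rfl | ⟨z, hz, rfl⟩ <;> rcases hy' with rfl | ⟨z', hz', rfl⟩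
      · exact ⟨0, by simp, by simp⟩
      · obtain ⟨ε, hε, hdv⟩ := hT.inn _ hy1 _ hz' q hqB
        refine ⟨ε, hε, ?_⟩
        rw [show y1 + h + K p - (z' + h) - ε * κ q = (y1 - z' - ε * κ q) + K p by ring]
        exact dvd_add hdv hd
      · obtain ⟨ε, hε, hdv⟩ := hT.inn _ hz _ hy1 q hqB
        refine ⟨ε, hε, ?_⟩
        rw [show z + h - (y1 + h + K p) - ε * κ q = (z - y1 - ε * κ q) - K p by ring]
        exact dvd_sub hdv hd
      · obtain ⟨ε, hε, hdv⟩ := hT.inn _ hz _ hz' q hqB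
        refine ⟨ε, hε, ?_⟩
        rw [show z + h - (z' + h) - ε * κ q = z - z' - ε * κ q by ring]
        exact hdv
  · intro y hy y' hy' hne
    simp only [Finset.mem_insert, Finset.mem_image] at hy hy'
    rcases hy with rfl | ⟨z, hz, rfl⟩ <;> rcases hy' with rfl | ⟨z', hz', rfl⟩
    · exact absurd rfl hne
    · refine ⟨p, by simp, fun hdv => hKp ?_⟩
      have h1 := hT.out _ hy1 _ hz' p hp hpB
      have := dvd_sub hdv h1
      rwa [show y1 + h + K p - (z' + h) - (y1 - z') = K p by ring] at this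
    · refine ⟨p, by simp, fun hdv => hKp ?_⟩
      have h1 := hT.out _ hz _ hy1 p hp hpB
      have := dvd_sub h1 hdv
      rwa [show z - y1 - (z + h - (y1 + h + K p)) = K p by ring] at this
    · obtain ⟨q, hq, hqd⟩ := hT.dist _ hz _ hz' (fun e => hne (by rw [e]))
      refine ⟨q, by simp [hq], ?_⟩
      rwa [show z + h - (z' + h) = z - z' by ring]

lemma inv_of_stuck (hP : ∀ p ∈ P, p.Prime) (hFper : ∀ y, F (y + ∏ p ∈ P, (p : ℤ)) = F y)
    (hK : ∀ p ∈ P, ∀ q ∈ P, q ≠ p → (q : ℤ) ∣ K p)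
    (hκ : ∀ p ∈ P, (p : ℤ) ∣ K p - κ p) (hκ' : ∀ p ∈ P, ¬ (p : ℤ) ∣ κ p)
    {J : Finset ℤ} {B : Finset ℕ}
    (hst : ∀ h : ℤ, (∀ y ∈ J, F (y + h) = F y) → ∀ y ∈ J, ∀ p ∈ P, p ∉ B →
      F (y + h + K p) = F (y + h)) :
    ∀ y ∈ J, ∀ g : ℤ, (∏ q ∈ B, (q : ℤ)) ∣ g → F (y + g) = F y := by
  set R : ℤ := ∏ p ∈ P, (p : ℤ) with hR
  have hper : ∀ (m : ℤ) (y : ℤ), F (y + m * R) = F y := by
    have hnat : ∀ (m : ℕ) (y : ℤ), F (y + m * R) = F y := by
      intro m
      induction m with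
      | zero => intro y; simp
      | succ m ih =>
        intro y
        rw [show y + ((m + 1 : ℕ) : ℤ) * R = (y + m * R) + R by push_cast; ring, hFper, ih]
    intro m y
    obtain ⟨k, rfl | rfl⟩ := m.eq_nat_or_neg
    · exact hnat k y
    · have := hnat k (y + -(k : ℤ) * R)
      rw [show y + -(k : ℤ) * R + k * R = y by ring] at this
      exact this.symm
  -- closure
  have hstep : ∀ h : ℤ, (∀ y ∈ J, F (y + h) = F y) → ∀ p ∈ P, p ∉ B → ∀ m : ℕ,
      (∀ y ∈ J, F (y + (h + m * K p)) = F y) := by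
    intro h hh p hp hpB m
    induction m with
    | zero => intro y hy; simpa using hh y hy
    | succ m ih =>
      intro y hy
      have := hst (h + m * K p) ih y hy p hp hpB
      rw [show y + (h + ((m + 1 : ℕ) : ℤ) * K p) = y + (h + m * K p) + K p by push_cast; ring,
        this, ih y hy]
  intro y hy g hg
  -- choose multipliers
  have hm : ∀ p : ℕ, ∃ m : ℕ, p ∈ P → (p : ℤ) ∣ g - m * κ p := by
    intro p
    by_cases hp : p ∈ P
    · obtain ⟨m, hm⟩ := exists_mul_modeq (hP p hp) (hκ' p hp) g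
      exact ⟨m, fun _ => hm⟩
    · exact ⟨0, fun h => absurd h hp⟩
  choose m hm using hm
  have hsum : ∀ T : Finset ℕ, T ⊆ P → (∀ p ∈ T, p ∉ B) → ∀ y ∈ J,
      F (y + ∑ p ∈ T, (m p : ℤ) * K p) = F y := by
    intro T
    induction T using Finset.induction_on with
    | empty => intro _ _ y _; simp
    | insert a T haT ih =>
      intro hsub hB y hy
      have h1 := ih (fun q hq => hsub (Finset.mem_insert_of_mem hq))
        (fun q hq => hB q (Finset.mem_insert_of_mem hq))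
      have h2 := hstep _ h1 a (hsub (Finset.mem_insert_self _ _)) (hB a (Finset.mem_insert_self _ _))
        (m a) y hy
      rw [Finset.sum_insert haT]
      rw [← h2]
      congr 1
      ring
  have hdvd : R ∣ g - ∑ p ∈ P \ B, (m p : ℤ) * K p := by
    apply int_prod_dvd hP
    intro q hq
    by_cases hqB : q ∈ B
    · apply dvd_sub
      · exact (Finset.dvd_prod_of_mem _ hqB).trans hg
      · apply Finset.dvd_sum
        intro p hp
        have hp' := Finset.mem_sdiff.1 hp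
        exact Dvd.dvd.mul_left (hK p hp'.1 q hq (fun e => hp'.2 (e ▸ hqB))) _
    · rw [← Finset.add_sum_erase (P \ B) (fun p => (m p : ℤ) * K p)
        (Finset.mem_sdiff.2 ⟨hq, hqB⟩)]
      rw [show g - ((m q : ℤ) * K q + ∑ x ∈ (P \ B).erase q, (m x : ℤ) * K x) =
        (g - m q * κ q) - m q * (K q - κ q) - ∑ x ∈ (P \ B).erase q, (m x : ℤ) * K x by ring]
      apply dvd_sub
      · apply dvd_sub
        · exact hm q hq
        · exact Dvd.dvd.mul_left (hκ q hq) _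
      · apply Finset.dvd_sum
        intro p hp
        have hp' := Finset.mem_erase.1 hp
        have hp'' := Finset.mem_sdiff.1 hp'.2
        exact Dvd.dvd.mul_left (hK p hp''.1 q hq hp'.1.symm) _
  obtain ⟨t, ht⟩ := hdvd
  have h1 := hsum (P \ B) Finset.sdiff_subset (fun p hp => (Finset.mem_sdiff.1 hp).2) y hy
  rw [← h1, ← hper t (y + ∑ p ∈ P \ B, (m p : ℤ) * K p)]
  congr 1
  linarith [ht, mul_comm R t]

/-- The bundle lemma. -/
theorem bundle (hP : ∀ p ∈ P, p.Prime) (hFper : ∀ y, F (y + ∏ p ∈ P, (p : ℤ)) = F y)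
    (hK : ∀ p ∈ P, ∀ q ∈ P, q ≠ p → (q : ℤ) ∣ K p)
    (hκ : ∀ p ∈ P, (p : ℤ) ∣ K p - κ p) (hκ' : ∀ p ∈ P, ¬ (p : ℤ) ∣ κ p)
    {p0 : ℕ} (hp0 : p0 ∈ P) {y0 : ℤ} (h0 : F (y0 + K p0) ≠ F y0) :
    ∃ (J : Finset ℤ) (B : Finset ℕ), IsTB P F K κ J B ∧
      ∀ y ∈ J, ∀ g : ℤ, (∏ q ∈ B, (q : ℤ)) ∣ g → F (y + g) = F y := by
  have main : ∀ (m : ℕ) (J : Finset ℤ) (B : Finset ℕ), P.card - B.card ≤ m →
      IsTB P F K κ J B → ∃ (J : Finset ℤ) (B : Finset ℕ), IsTB P F K κ J B ∧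
      ∀ y ∈ J, ∀ g : ℤ, (∏ q ∈ B, (q : ℤ)) ∣ g → F (y + g) = F y := by
    intro m
    induction m with
    | zero =>
      intro J B hm hT
      refine ⟨J, B, hT, inv_of_stuck hP hFper hK hκ hκ' ?_⟩
      intro h _ y _ p hp hpB
      exfalso
      have h1 : B ⊂ P := by
        refine ⟨hT.sub, fun hs => hpB (hs hp)⟩
      have := Finset.card_lt_card h1
      omega
    | succ m ih =>
      intro J B hm hT
      by_cases hst : ∀ h : ℤ, (∀ y ∈ J, F (y + h) = F y) → ∀ y ∈ J, ∀ p ∈ P, p ∉ B →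
          F (y + h + K p) = F (y + h)
      · exact ⟨J, B, hT, inv_of_stuck hP hFper hK hκ hκ' hst⟩
      · push Not at hst
        obtain ⟨h, hh, y, hy, p, hp, hpB, hne⟩ := hst
        have hT' := hT.extend hK hκ hκ' hh hy hp hpB hne
        refine ih _ _ ?_ hT'
        rw [Finset.card_insert_of_notMem hpB]
        omega
  exact main _ _ _ le_rfl (IsTB.start hK hκ hκ' hp0 h0)

end Pool.Agent.MP_5c6631_lc
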