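import Pool.Agent.Lib.MP_5c6631_lc.Small

set_option autoImplicit false

namespace Pool.Agent.MP_5c6631_lc

open Finset

/-- one chord -/
lemma single {n : ℕ} (hn0 : n ≠ 0) {x : ZMod n → ℕ} {q : ℕ} (hq : q.Prime) (hqn : q ∣ n)
    (hx : ¬ Per x q) :
    ∃ Y A, Sys x Y A ∧ (∀ k ∈ A, ¬ Per k q) ∧ Y.card ≤ 2 := by
  classical
  unfold Per at hx
  push Not at hx
  obtain ⟨u, hu⟩ := hx
  have hpos : 0 < n := Nat.pos_of_ne_zero hn0
  have h1 : 0 < n / q := Nat.div_pos (Nat.le_of_dvd hpos hqn) hq.pos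
  have h2 : n / q < n := Nat.div_lt_self hpos hq.one_lt
  have hS := Sys.chord (x := x) ∅ Set.univ Sys.empty u (n / q) h1 h2 (by simp)
  refine ⟨_, _, hS, ?_, Finset.card_le_two⟩
  rintro k ⟨_, h3⟩ hper
  have h4 := (sameSign_iff _ _).1 h3
  rw [hper u, sub_self, Int.sign_zero] at h4
  have h5 := Int.sign_eq_zero_iff_zero.1 h4.symm
  apply hu
  have : (x (u + ((n / q : ℕ) : ZMod n)) : ℤ) = x u := by linarith
  exact_mod_cast this

theorem claim {n : ℕ} (hn0 : n ≠ 0) (x : ZMod n → ℕ) : ∀ P : Finset ℕ, (∀ p ∈ P, p.Prime) →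
    (∀ p ∈ P, p ∣ n) → (∀ p ∈ P, ¬ Per x p) → P ≠ {2} →
    ∃ Y A, Sys x Y A ∧ (∀ p ∈ P, ∀ k ∈ A, ¬ Per k p) ∧ Bd P Y.card := by
  classical
  intro P
  induction P using Finset.strongInduction with
  | H P ih =>
  intro hP hPn hx hPe
  by_cases h0 : P = ∅
  · subst h0
    refine ⟨∅, Set.univ, Sys.empty, by simp, ?_⟩
    refine ⟨by simp, by simp, by simp⟩
  by_cases h1 : ∃ q, P = {q}
  · obtain ⟨q, rfl⟩ := h1
    have hq : q.Prime := hP q (by simp)
    obtain ⟨Y, A, hS, hA, hc⟩ := single hn0 hq (hPn q (by simp)) (hx q (by simp))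
    refine ⟨Y, A, hS, ?_, ?_⟩
    · intro p hp
      rw [Finset.mem_singleton] at hp
      subst hp
      exact hA
    · refine ⟨fun _ => hc, fun _ => by omega, fun h3 _ => ?_⟩
      have h2' : q ≠ 2 := by
        rintro rfl
        exact hPe rfl
      have h3' : q ≠ 3 := by
        rintro rfl
        exact h3 rfl
      have := five_le hq h2' h3'
      simp only [Finset.prod_singleton]
      omega
  by_cases h2 : ∃ q, P = {2, q}
  · obtain ⟨q, rfl⟩ := h2
    have hq : q.Prime := hP q (by simp)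
    have hq2 : q ≠ 2 := by
      rintro rfl
      exact h1 ⟨2, by simp⟩
    have hodd : q % 2 = 1 := by
      rcases hq.eq_two_or_odd with h | h
      · exact absurd h hq2
      · exact h
    have hq3 : 3 ≤ q := by
      have := hq.two_le
      omega
    have hdvd : 2 * q ∣ n := by
      apply Nat.Coprime.mul_dvd_of_dvd_of_dvd
      · exact (Nat.coprime_primes Nat.prime_two hq).2 (Ne.symm hq2)
      · exact hPn 2 (by simp)
      · exact hPn q (by simp)
    obtain ⟨s, hs⟩ := hdvd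
    have hs0 : 0 < s := by
      rcases Nat.eq_zero_or_pos s with h | h
      · subst h; simp at hs; exact absurd hs hn0
      · exact h
    obtain ⟨Y, A, hS, hA, hA', hc⟩ := stepC2 hq3 hodd hs hs0 (hx 2 (by simp)) (hx q (by simp))
    refine ⟨Y, A, hS, ?_, ?_⟩
    · intro p hp
      simp only [Finset.mem_insert, Finset.mem_singleton] at hp
      rcases hp with rfl | rfl
      · exact hA
      · exact hA'
    · refine ⟨fun h => ?_, fun _ => hc, fun _ h3 => ?_⟩
      · exact absurd ⟨3, h⟩ h1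
      · have h3' : q ≠ 3 := by
          rintro rfl
          exact h3 rfl
        have := five_le hq hq2 h3'
        rw [Finset.prod_pair (Ne.symm hq2)]
        omega
  push Not at h1 h2
  have hRn : ∏ p ∈ P, p ∣ n :=
    Finset.prod_primes_dvd n (fun p hp => (hP p hp).prime) hPn
  obtain ⟨s, hs⟩ := hRn
  have hs0 : 0 < s := by
    rcases Nat.eq_zero_or_pos s with h | h
    · subst h; simp at hs; exact absurd hs hn0
    · exact h
  obtain ⟨q0, hq0, hq0'⟩ : ∃ q0 ∈ P, (2 ∈ P → q0 = 2) := by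
    by_cases h : 2 ∈ P
    · exact ⟨2, h, fun _ => rfl⟩
    · obtain ⟨q, hq⟩ := Finset.nonempty_iff_ne_empty.2 h0
      exact ⟨q, hq, fun h' => absurd h' h⟩
  have hxq := hx q0 hq0
  unfold Per at hxq
  push Not at hxq
  obtain ⟨a0, ha0⟩ := hxq
  obtain ⟨K, hKm, hKκ, hK⟩ := exists_K hP
  obtain ⟨p0, hp0, y0, hy0⟩ := exists_ne hP hs hKκ hK hq0 ha0
  have hcast : ((∏ p ∈ P, p : ℕ) : ℤ) = ∏ p ∈ P, (p : ℤ) := by push_cast; rfl
  obtain ⟨J, B, hT, hinv⟩ := bundle (F := sg x a0 s) hP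
    (fun y => sg_per hs x a0 y _ (by rw [hcast])) hK hKκ (fun p hp => kap_not_dvd (hP p hp)) hp0 hy0
  by_cases hcase : P \ B = {2}
  · have h2P : 2 ∈ P := by
      have : 2 ∈ P \ B := by rw [hcase]; simp
      exact (Finset.mem_sdiff.1 this).1
    have := hq0' h2P
    subst this
    exact stepB hP hs hs0 ha0 h2 hKm hT hinv hcase
  · have hss : P \ B ⊂ P := by
      refine ⟨Finset.sdiff_subset, fun h => ?_⟩
      obtain ⟨b, hb⟩ := hT.neB
      exact (Finset.mem_sdiff.1 (h (hT.sub hb))).2 hb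
    obtain ⟨Y', A', hS', hA', hbd'⟩ := ih (P \ B) hss
      (fun p hp => hP p (hss.1 hp)) (fun p hp => hPn p (hss.1 hp)) (fun p hp => hx p (hss.1 hp))
      hcase
    exact stepA hP hs hs0 h1 h2 hKm hT hinv hcase hS' hA' hbd'

/-- Every irregular vector has a non-crossing system of comparisons forcing irregularity. -/
theorem claim_final {n : ℕ} (hn0 : n ≠ 0) (x : ZMod n → ℕ)
    (hx : ∀ p : ℕ, p.Prime → p ∣ n → ¬ Per x p) :
    ∃ Y A, Sys x Y A ∧ ∀ k ∈ A, ∀ p : ℕ, p.Prime → p ∣ n → ¬ Per k p := by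
  by_cases h2 : n.primeFactors = {2}
  · have h2' : 2 ∈ n.primeFactors := by rw [h2]; simp
    have hd := Nat.dvd_of_mem_primeFactors h2'
    obtain ⟨Y, A, hS, hA, _⟩ := single hn0 Nat.prime_two hd (hx 2 Nat.prime_two hd)
    refine ⟨Y, A, hS, ?_⟩
    intro k hk p hp hpn
    have : p ∈ n.primeFactors := Nat.mem_primeFactors.2 ⟨hp, hpn, hn0⟩
    rw [h2, Finset.mem_singleton] at this
    subst this
    exact hA k hk
  · obtain ⟨Y, A, hS, hA, _⟩ := claim hn0 x n.primeFactors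
      (fun p hp => Nat.prime_of_mem_primeFactors hp) (fun p hp => Nat.dvd_of_mem_primeFactors hp)
      (fun p hp => hx p (Nat.prime_of_mem_primeFactors hp) (Nat.dvd_of_mem_primeFactors hp)) h2
    refine ⟨Y, A, hS, ?_⟩
    intro k hk p hp hpn
    exact hA p (Nat.mem_primeFactors.2 ⟨hp, hpn, hn0⟩) k hk

end Pool.Agent.MP_5c6631_lc
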