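import Pool.Agent.Lib.MP_5c6631_lc.Place

set_option autoImplicit false

namespace Pool.Agent.MP_5c6631_lc

open Finset

/-- `k` is invariant under the rotation by `n / p`. -/
def Per {n : ℕ} (k : ZMod n → ℕ) (p : ℕ) : Prop :=
  ∀ u : ZMod n, k (u + ((n / p : ℕ) : ZMod n)) = k u

lemma sameSign_iff (a b : ℤ) : SameSign a b ↔ Int.sign a = Int.sign b := by
  unfold SameSign
  constructor
  · rintro ⟨h1, h2⟩
    rcases lt_trichotomy a 0 with ha | ha | ha
    · rw [Int.sign_eq_neg_one_of_neg ha, Int.sign_eq_neg_one_of_neg (h2.1 ha)]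
    · subst ha
      have : b = 0 := by omega
      rw [this]
    · rw [Int.sign_eq_one_of_pos ha, Int.sign_eq_one_of_pos (h1.1 ha)]
  · intro h
    constructor
    · rw [← Int.sign_pos_iff, h, Int.sign_pos_iff]
    · rw [← Int.sign_neg_iff, h, Int.sign_neg_iff]

/-- `F z` is the sign of `x z - x (z+1)` -/
def sg {n : ℕ} (x : ZMod n → ℕ) (a0 : ZMod n) (s : ℕ) (z : ℤ) : ℤ :=
  Int.sign ((x (pt a0 s z) : ℤ) - x (pt a0 s (z + 1)))

lemma sg_per {n R s : ℕ} (hn : n = R * s) (x : ZMod n → ℕ) (a0 : ZMod n) (z g : ℤ)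
    (hg : (R : ℤ) ∣ g) : sg x a0 s (z + g) = sg x a0 s z := by
  unfold sg
  rw [show z + g + 1 = (z + 1) + g by ring, pt_add_dvd hn a0 z g hg, pt_add_dvd hn a0 (z + 1) g hg]

/-- `kap p` is `1` for `p = 2` and `2` otherwise -/
def kap (p : ℕ) : ℤ := if p = 2 then 1 else 2

lemma kap_not_dvd {p : ℕ} (hp : p.Prime) : ¬ (p : ℤ) ∣ kap p := by
  unfold kap
  split_ifs with h
  · subst h; norm_num
  · intro hd
    have : p ∣ 2 := by exact_mod_cast hd
    exact h ((Nat.prime_dvd_prime_iff_eq hp Nat.prime_two).1 this)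

lemma exists_K {P : Finset ℕ} (hP : ∀ p ∈ P, p.Prime) :
    ∃ K : ℕ → ℤ, (∀ p ∈ P, ∃ m : ℕ, K p = m * ((∏ q ∈ P.erase p, q : ℕ) : ℤ)) ∧
      (∀ p ∈ P, (p : ℤ) ∣ K p - kap p) ∧ (∀ p ∈ P, ∀ q ∈ P, q ≠ p → (q : ℤ) ∣ K p) := by
  have h1 : ∀ p : ℕ, ∃ m : ℕ, p ∈ P → (p : ℤ) ∣ kap p - m * ((∏ q ∈ P.erase p, q : ℕ) : ℤ) := by
    intro p
    by_cases hp : p ∈ P
    · have hnd : ¬ (p : ℤ) ∣ ((∏ q ∈ P.erase p, q : ℕ) : ℤ) := by
        intro h
        have h' : p ∣ ∏ q ∈ P.erase p, q := by exact_mod_cast h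
        obtain ⟨q, hq, hpq⟩ := ((hP p hp).prime.dvd_finsetProd_iff _).1 h'
        have := Finset.mem_erase.1 hq
        exact this.1 ((Nat.prime_dvd_prime_iff_eq (hP p hp) (hP q this.2)).1 hpq).symm
      obtain ⟨m, hm⟩ := exists_mul_modeq (hP p hp) hnd (kap p)
      exact ⟨m, fun _ => hm⟩
    · exact ⟨0, fun h => absurd h hp⟩
  choose m hm using h1
  refine ⟨fun p => m p * ((∏ q ∈ P.erase p, q : ℕ) : ℤ), fun p _ => ⟨m p, rfl⟩, ?_, ?_⟩
  · intro p hp
    have := (hm p hp).neg_right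
    rwa [neg_sub] at this
  · intro p hp q hq hqp
    apply Dvd.dvd.mul_left
    have : q ∣ ∏ q ∈ P.erase p, q := Finset.dvd_prod_of_mem _ (Finset.mem_erase.2 ⟨hqp, hq⟩)
    exact_mod_cast this

lemma Per.mul {n : ℕ} {k : ZMod n → ℕ} {p : ℕ} (h : Per k p) (m : ℕ) (u : ZMod n) :
    k (u + ((m * (n / p) : ℕ) : ZMod n)) = k u := by
  induction m with
  | zero => simp
  | succ m ih =>
    rw [show (((m + 1) * (n / p) : ℕ) : ZMod n) = ((m * (n / p) : ℕ) : ZMod n) + ((n / p : ℕ) : ZMod n)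
      by push_cast; ring, ← add_assoc, h, ih]

lemma div_eq {n s : ℕ} {P : Finset ℕ} (hP : ∀ p ∈ P, p.Prime) (hn : n = (∏ p ∈ P, p) * s) {p : ℕ}
    (hp : p ∈ P) : n / p = (∏ q ∈ P.erase p, q) * s := by
  rw [hn, ← Finset.mul_prod_erase P (fun q => q) hp, mul_assoc]
  exact Nat.mul_div_cancel_left _ (hP p hp).pos

lemma Per.pt {n s : ℕ} {P : Finset ℕ} (hP : ∀ p ∈ P, p.Prime) (hn : n = (∏ p ∈ P, p) * s) {p : ℕ}
    (hp : p ∈ P) {k : ZMod n → ℕ} (h : Per k p) {m : ℕ} {K : ℤ}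
    (hK : K = m * ((∏ q ∈ P.erase p, q : ℕ) : ℤ)) (a0 : ZMod n) (z : ℤ) :
    k (pt a0 s (z + K)) = k (pt a0 s z) := by
  have h1 : MP_5c6631_lc.pt a0 s (z + K) =
      MP_5c6631_lc.pt a0 s z + ((m * (n / p) : ℕ) : ZMod n) := by
    rw [div_eq hP hn hp, hK]
    simp only [MP_5c6631_lc.pt]
    push_cast
    ring
  rw [h1, h.mul]

lemma exists_ne {n s : ℕ} {P : Finset ℕ} (hP : ∀ p ∈ P, p.Prime) (hn : n = (∏ p ∈ P, p) * s)
    {K : ℕ → ℤ} (hKκ : ∀ p ∈ P, (p : ℤ) ∣ K p - kap p)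
    (hK : ∀ p ∈ P, ∀ q ∈ P, q ≠ p → (q : ℤ) ∣ K p) {x : ZMod n → ℕ} {a0 : ZMod n}
    {q0 : ℕ} (hq0 : q0 ∈ P) (ha0 : x (a0 + ((n / q0 : ℕ) : ZMod n)) ≠ x a0) :
    ∃ p ∈ P, ∃ y : ℤ, sg x a0 s (y + K p) ≠ sg x a0 s y := by
  by_contra hcon
  push Not at hcon
  have hRpos : 0 < ∏ p ∈ P, p := Finset.prod_pos (fun p hp => (hP p hp).pos)
  have hcast : ((∏ p ∈ P, p : ℕ) : ℤ) = ∏ p ∈ P, (p : ℤ) := by push_cast; rfl
  have hconst : ∀ g : ℤ, sg x a0 s g = sg x a0 s 0 := by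
    intro g
    have := inv_of_stuck (P := P) (F := sg x a0 s) (K := K) (κ := kap) (J := {0}) (B := ∅) hP
      (fun y => sg_per hn x a0 y _ (by rw [hcast])) hK hKκ (fun p hp => kap_not_dvd (hP p hp))
      (fun h _ y _ p hp _ => hcon p hp _) 0 (by simp) g (by simp)
    simpa using this
  have hR0 : pt a0 s ((∏ p ∈ P, p : ℕ) : ℤ) = pt a0 s 0 := by
    have := pt_add_dvd hn a0 0 ((∏ p ∈ P, p : ℕ) : ℤ) dvd_rfl
    simpa using this
  rcases lt_trichotomy (sg x a0 s 0) 0 with h | h | h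
  · -- increasing
    have hinc : ∀ m : ℕ, (x (pt a0 s 0) : ℤ) + m ≤ x (pt a0 s m) := by
      intro m
      induction m with
      | zero => simp
      | succ m ih =>
        have h1 := hconst m
        have h2 : Int.sign ((x (pt a0 s m) : ℤ) - x (pt a0 s ((m : ℤ) + 1))) < 0 := by
          have : sg x a0 s m < 0 := by rw [h1]; exact h
          exact this
        have h3 := Int.sign_neg_iff.1 h2
        push_cast
        linarith
    have := hinc (∏ p ∈ P, p)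
    rw [hR0] at this
    have h4 : (0 : ℤ) < ((∏ p ∈ P, p : ℕ) : ℤ) := by exact_mod_cast hRpos
    linarith
  · have hc : ∀ m : ℕ, x (pt a0 s m) = x (pt a0 s 0) := by
      intro m
      induction m with
      | zero => simp
      | succ m ih =>
        have h1 := hconst m
        have h2 : Int.sign ((x (pt a0 s m) : ℤ) - x (pt a0 s ((m : ℤ) + 1))) = 0 := by
          have : sg x a0 s m = 0 := by rw [h1]; exact h
          exact this
        have h3 := Int.sign_eq_zero_iff_zero.1 h2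
        push_cast
        have h4 : (x (pt a0 s ((m : ℤ) + 1)) : ℤ) = x (pt a0 s m) := by linarith
        have h5 : x (pt a0 s ((m : ℤ) + 1)) = x (pt a0 s m) := by exact_mod_cast h4
        rw [h5, ih]
    apply ha0
    have h6 := hc (∏ q ∈ P.erase q0, q)
    rw [pt_zero] at h6
    rw [← h6, div_eq hP hn hq0]
    congr 1
    simp only [pt]
    push_cast
    ring
  · have hinc : ∀ m : ℕ, (x (pt a0 s m) : ℤ) ≤ x (pt a0 s 0) - m := by
      intro m
      induction m with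
      | zero => simp
      | succ m ih =>
        have h1 := hconst m
        have h2 : 0 < Int.sign ((x (pt a0 s m) : ℤ) - x (pt a0 s ((m : ℤ) + 1))) := by
          have : 0 < sg x a0 s m := by rw [h1]; exact h
          exact this
        have h3 := Int.sign_pos_iff.1 h2
        push_cast
        linarith
    have := hinc (∏ p ∈ P, p)
    rw [hR0] at this
    have h4 : (0 : ℤ) < ((∏ p ∈ P, p : ℕ) : ℤ) := by exact_mod_cast hRpos
    linarith

end Pool.Agent.MP_5c6631_lc
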