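import Mathlib

set_option autoImplicit false

namespace Pool.Agent.MP_5c6631_lc

open Finset

/-- the bound on the number of points used for the set of primes `P` -/
def Bd (P : Finset ℕ) (m : ℕ) : Prop :=
  (P = {3} → m ≤ 2) ∧ (P = {2, 3} → m ≤ 4) ∧ (P ≠ {3} → P ≠ {2, 3} → 2 * m < ∏ p ∈ P, p)

lemma prod_ge {B : Finset ℕ} (hB : ∀ p ∈ B, p.Prime) (hne : B.Nonempty) :
    2 * 3 ^ (B.card - 1) ≤ ∏ p ∈ B, p := by
  by_cases h2 : 2 ∈ B
  · rw [← Finset.mul_prod_erase B (fun q => q) h2]
    apply Nat.mul_le_mul_left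
    rw [← Finset.card_erase_of_mem h2]
    apply Finset.pow_card_le_prod
    intro p hp
    have h := Finset.mem_erase.1 hp
    have h' := (hB p h.2).two_le
    have := h.1
    omega
  · have h3 : 3 ^ B.card ≤ ∏ p ∈ B, p := by
      apply Finset.pow_card_le_prod
      intro p hp
      have h' := (hB p hp).two_le
      have : p ≠ 2 := fun e => h2 (e ▸ hp)
      omega
    have hc : B.card = (B.card - 1) + 1 := by
      have := Finset.card_pos.2 hne
      omega
    rw [hc, pow_succ] at h3
    have : 0 < 3 ^ (B.card - 1) := by positivity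
    linarith

lemma five_le {p : ℕ} (hp : p.Prime) (h2 : p ≠ 2) (h3 : p ≠ 3) : 5 ≤ p := by
  have := hp.two_le
  by_contra hcon
  have h4 : p = 4 := by omega
  subst h4
  revert hp
  decide

lemma prod_ge_odd {B : Finset ℕ} (hB : ∀ p ∈ B, p.Prime) (hne : B.Nonempty) (h2 : 2 ∉ B) :
    3 * 5 ^ (B.card - 1) ≤ ∏ p ∈ B, p := by
  have hn2 : ∀ p ∈ B, p ≠ 2 := fun p hp e => h2 (e ▸ hp)
  by_cases h3 : 3 ∈ B
  · rw [← Finset.mul_prod_erase B (fun q => q) h3]
    apply Nat.mul_le_mul_left
    rw [← Finset.card_erase_of_mem h3]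
    apply Finset.pow_card_le_prod
    intro p hp
    have h := Finset.mem_erase.1 hp
    exact five_le (hB p h.2) (hn2 p h.2) h.1
  · have h3' : 5 ^ B.card ≤ ∏ p ∈ B, p := by
      apply Finset.pow_card_le_prod
      intro p hp
      exact five_le (hB p hp) (hn2 p hp) (fun e => h3 (e ▸ hp))
    have hc : B.card = (B.card - 1) + 1 := by
      have := Finset.card_pos.2 hne
      omega
    rw [hc, pow_succ] at h3'
    have : 0 < 5 ^ (B.card - 1) := by positivity
    linarith

lemma pow_three_ge {b : ℕ} (hb : 3 ≤ b) : 3 * b ≤ 3 ^ (b - 1) := by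
  induction b, hb using Nat.le_induction with
  | base => norm_num
  | succ b hb ih =>
    have : b + 1 - 1 = (b - 1) + 1 := by omega
    rw [this, pow_succ]
    omega

/-- `B` odd with at least two elements -/
lemma ineq_odd {B : Finset ℕ} (hB : ∀ p ∈ B, p.Prime) (hb : 2 ≤ B.card) (h2 : 2 ∉ B ∨ 3 ≤ B.card) :
    4 * (B.card + 1) < ∏ p ∈ B, p := by
  have hne : B.Nonempty := Finset.card_pos.1 (by omega)
  by_cases h3 : 3 ≤ B.card
  · have h4 := prod_ge hB hne
    have h5 := pow_three_ge h3
    omega
  · have h4 := prod_ge_odd hB hne (by tauto)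
    have h5 : B.card = 2 := by omega
    rw [h5] at h4 ⊢
    omega

lemma bd_lt {P : Finset ℕ} {m : ℕ} (h : Bd P m) : m < ∏ p ∈ P, p := by
  obtain ⟨h1, h2, h3⟩ := h
  by_cases e1 : P = {3}
  · have := h1 e1
    subst e1
    simp
    omega
  by_cases e2 : P = {2, 3}
  · have := h2 e2
    subst e2
    simp
    omega
  have := h3 e1 e2
  omega

lemma ineq_main {P B P' : Finset ℕ} (hP : ∀ p ∈ P, p.Prime) (hBP : B ⊆ P) (hP' : P' = P \ B)
    (hBne : B.Nonempty) (hP1 : ∀ q, P ≠ {q}) (hP2 : ∀ q, P ≠ {2, q}) (hPe : P' ≠ {2})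
    {m m' : ℕ} (hm' : Bd P' m') (hm : m ≤ m' + 2 * (B.card + 1)) : Bd P m := by
  have hBp : ∀ p ∈ B, p.Prime := fun p hp => hP p (hBP hp)
  have hPp' : ∀ p ∈ P', p.Prime := fun p hp => hP p (Finset.mem_sdiff.1 (hP' ▸ hp)).1
  have hprod : (∏ p ∈ P', p) * ∏ p ∈ B, p = ∏ p ∈ P, p := by
    rw [hP']; exact Finset.prod_sdiff hBP
  have hdisj : ∀ p ∈ P', p ∉ B := fun p hp => (Finset.mem_sdiff.1 (hP' ▸ hp)).2
  have hPu : P = P' ∪ B := by rw [hP', Finset.sdiff_union_of_subset hBP]
  refine ⟨fun h => absurd h (hP1 3), fun h => absurd h (hP2 3), fun _ _ => ?_⟩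
  rw [← hprod]
  have hb1 : 1 ≤ B.card := Finset.card_pos.2 hBne
  have hge := prod_ge hBp hBne
  by_cases e0 : P' = ∅
  · subst e0
    have hm0 : 2 * m' < 1 := by
      have := hm'.2.2 (by decide) (by decide)
      simpa using this
    simp only [Finset.prod_empty, one_mul]
    have hPB : P = B := by rw [hPu]; simp
    have hb2 : 2 ≤ B.card := by
      by_contra hc
      have : B.card = 1 := by omega
      obtain ⟨q, hq⟩ := Finset.card_eq_one.1 this
      exact hP1 q (by rw [hPB, hq])
    have := ineq_odd hBp hb2 (by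
      by_cases h2 : 2 ∈ B
      · right
        by_contra hc
        have h3 : (B.erase 2).card = 1 := by
          rw [Finset.card_erase_of_mem h2]; omega
        obtain ⟨q, hq⟩ := Finset.card_eq_one.1 h3
        apply hP2 q
        rw [hPB, ← hq, Finset.insert_erase h2]
      · left; exact h2)
    omega
  by_cases e3 : P' = {3}
  · have h1 := hm'.1 e3
    rw [e3]
    simp only [Finset.prod_singleton]
    by_cases hb : B.card = 1
    · obtain ⟨q, hq⟩ := Finset.card_eq_one.1 hb
      have hqp : q.Prime := hBp q (by rw [hq]; simp)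
      have hq2 : q ≠ 2 := by
        rintro rfl
        apply hP2 3
        rw [hPu, e3, hq]
        ext z; simp; tauto
      have hq3 : q ≠ 3 := by
        rintro rfl
        exact hdisj 3 (by rw [e3]; simp) (by rw [hq]; simp)
      have := five_le hqp hq2 hq3
      rw [hq] at hm ⊢
      simp only [Finset.prod_singleton, Finset.card_singleton] at hm ⊢
      omega
    · by_cases hb' : B.card = 2
      · rw [hb'] at hge hm
        norm_num at hge
        omega
      · have := pow_three_ge (b := B.card) (by omega)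
        omega
  by_cases e23 : P' = {2, 3}
  · have h1 := hm'.2.1 e23
    rw [e23]
    have h6 : ∏ p ∈ ({2, 3} : Finset ℕ), p = 6 := by decide
    rw [h6]
    by_cases hb : B.card = 1
    · obtain ⟨q, hq⟩ := Finset.card_eq_one.1 hb
      have hqp : q.Prime := hBp q (by rw [hq]; simp)
      have hq2 : q ≠ 2 := by
        rintro rfl
        exact hdisj 2 (by rw [e23]; simp) (by rw [hq]; simp)
      have hq3 : q ≠ 3 := by
        rintro rfl
        exact hdisj 3 (by rw [e23]; simp) (by rw [hq]; simp)
      have := five_le hqp hq2 hq3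
      rw [hq] at hm ⊢
      simp only [Finset.prod_singleton, Finset.card_singleton] at hm ⊢
      omega
    · by_cases hb' : B.card = 2
      · rw [hb'] at hge hm
        norm_num at hge
        omega
      · have := pow_three_ge (b := B.card) (by omega)
        omega
  have h1 := hm'.2.2 e3 e23
  have hne' : P'.Nonempty := Finset.nonempty_iff_ne_empty.2 e0
  have hge' := prod_ge hPp' hne'
  have hpos' : 1 ≤ P'.card := Finset.card_pos.2 hne'
  have hw5 : 5 ≤ ∏ p ∈ P', p := by
    by_cases hc : P'.card = 1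
    · obtain ⟨q, hq⟩ := Finset.card_eq_one.1 hc
      rw [hq]
      simp only [Finset.prod_singleton]
      refine five_le (hPp' q (by rw [hq]; simp)) ?_ ?_
      · rintro rfl; exact hPe hq
      · rintro rfl; exact e3 hq
    · have : 3 ^ 1 ≤ 3 ^ (P'.card - 1) := Nat.pow_le_pow_right (by norm_num) (by omega)
      omega
  set w := ∏ p ∈ P', p with hw
  by_cases hb : B.card = 1
  · obtain ⟨q, hq⟩ := Finset.card_eq_one.1 hb
    have hqp : q.Prime := hBp q (by rw [hq]; simp)
    rw [hq] at hm ⊢
    simp only [Finset.prod_singleton, Finset.card_singleton] at hm ⊢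
    by_cases hq2 : q = 2
    · subst hq2
      have hc : 2 ≤ P'.card := by
        by_contra hc
        have : P'.card = 1 := by omega
        obtain ⟨r, hr⟩ := Finset.card_eq_one.1 this
        apply hP2 r
        rw [hPu, hr, hq]
        ext z; simp; tauto
      have h2' : 2 ∉ P' := fun h => hdisj 2 h (by rw [hq]; simp)
      have h15 := prod_ge_odd hPp' hne' h2'
      have : 5 ^ 1 ≤ 5 ^ (P'.card - 1) := Nat.pow_le_pow_right (by norm_num) (by omega)
      rw [← hw] at h15
      omega
    · have : 3 ≤ q := by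
        have := hqp.two_le
        omega
      have h6 : w * 3 ≤ w * q := Nat.mul_le_mul_left _ this
      omega
  · set W := ∏ p ∈ B, p with hW
    by_cases hb' : B.card = 2
    · rw [hb'] at hge hm
      norm_num at hge
      have h6 : w * 6 ≤ w * W := Nat.mul_le_mul_left _ hge
      omega
    · have h7 := pow_three_ge (b := B.card) (by omega)
      have h8 : 6 * B.card ≤ W := by omega
      have h9 : w * (6 * B.card) ≤ w * W := Nat.mul_le_mul_left _ h8
      have h10 : 3 ≤ B.card := by omega
      nlinarith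

end Pool.Agent.MP_5c6631_lc
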