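import Mathlib
import Pool.Agent.Lib.MP_5c6631_lc.Sys

set_option autoImplicit false

namespace Pool.Agent.MP_5c6631_lc

open Finset

/-- number of endpoints of `e` at `i` -/
def dl {n : ℕ} (e : ZMod n × ZMod n) (i : ZMod n) : ℕ :=
  (if e.1 = i then 1 else 0) + (if e.2 = i then 1 else 0)

/-- `(f, lam)` is a representation of `k`. -/
def IsRep {n : ℕ} (c : ZMod n → ℕ) (S : Finset (ZMod n)) (E : Finset (ZMod n × ZMod n))
    (k f : ZMod n → ℕ) (lam : ZMod n × ZMod n → ℕ) : Prop :=
  (∀ i, i ∉ S → f i = 0) ∧ ∀ i, k i = c i + f i + ∑ e ∈ E, lam e * dl e i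

def Rep {n : ℕ} (c : ZMod n → ℕ) (S : Finset (ZMod n)) (E : Finset (ZMod n × ZMod n))
    (A : Set (ZMod n → ℕ)) : Prop :=
  ∀ k, k ∈ A ↔ ∃ f lam, IsRep c S E k f lam

lemma sum_update {n : ℕ} (E : Finset (ZMod n × ZMod n)) (e : ZMod n × ZMod n) (he : e ∉ E)
    (lam : ZMod n × ZMod n → ℕ) (t : ℕ) (i : ZMod n) :
    ∑ e' ∈ insert e E, (Function.update lam e t) e' * dl e' i = t * dl e i + ∑ e' ∈ E, lam e' * dl e' i := by
  rw [Finset.sum_insert he]
  congr 1
  · simp
  · apply Finset.sum_congr rfl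
    intro e' he'
    have : e' ≠ e := fun h => he (h ▸ he')
    rw [Function.update_of_ne this]

lemma ext_eq {n : ℕ} {c : ZMod n → ℕ} {S : Finset (ZMod n)} {E : Finset (ZMod n × ZMod n)}
    {A : Set (ZMod n → ℕ)} (h : Rep c S E A) (v w : ZMod n) (hvw : v ≠ w) (hv : v ∈ S) (hw : w ∈ S)
    (e : ZMod n × ZMod n) (he : e ∉ E) (hed : ∀ i, dl e i = (if v = i then 1 else 0) + (if w = i then 1 else 0))
    (Fv Fw : (ZMod n → ℕ) → ℕ)
    (hF : ∀ k f lam, IsRep c S E k f lam → f v = Fv k ∧ f w = Fw k) :
    Rep c ((S.erase v).erase w) (insert e E) (A ∩ {k | Fv k = Fw k}) := by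
  intro k
  constructor
  · rintro ⟨hk, hk2⟩
    obtain ⟨f, lam, hr⟩ := (h k).1 hk
    obtain ⟨h1, h2⟩ := hF k f lam hr
    have h3 : f v = f w := by rw [h1, h2]; exact hk2
    refine ⟨fun i => if i = v ∨ i = w then 0 else f i, Function.update lam e (f v), ?_, ?_⟩
    · intro i hi
      by_cases h4 : i = v ∨ i = w
      · simp [h4]
      · simp only [h4, if_false]
        apply hr.1
        intro h5
        apply hi
        push Not at h4
        simp [h4, h5]
    · intro i
      rw [sum_update E e he, hr.2 i, hed i]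
      by_cases h4 : i = v
      · subst h4
        simp [hvw.symm]
        omega
      · by_cases h5 : i = w
        · subst h5
          simp [hvw]
          omega
        · have h6 : ¬ (v = i) := fun h => h4 h.symm
          have h7 : ¬ (w = i) := fun h => h5 h.symm
          simp [h4, h5, h6, h7]
  · rintro ⟨f, lam, hr1, hr2⟩
    have hrep : IsRep c S E k (fun i => f i + lam e * dl e i) lam := by
      constructor
      · intro i hi
        have h6 : ¬ (v = i) := fun h => hi (h ▸ hv)
        have h7 : ¬ (w = i) := fun h => hi (h ▸ hw)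
        have : f i = 0 := hr1 i (by simp [hi])
        simp [this, hed, h6, h7]
      · intro i
        rw [hr2 i, Finset.sum_insert he]
        ring
    refine ⟨(h k).2 ⟨_, _, hrep⟩, ?_⟩
    obtain ⟨h1, h2⟩ := hF k _ lam hrep
    have h3 : f v = 0 := hr1 v (by simp)
    have h4 : f w = 0 := hr1 w (by simp)
    simp only [Set.mem_ofPred_eq]
    rw [← h1, ← h2, h3, h4, hed, hed]
    simp [hvw, hvw.symm]

lemma ext_lt {n : ℕ} {c : ZMod n → ℕ} {S : Finset (ZMod n)} {E : Finset (ZMod n × ZMod n)}
    {A : Set (ZMod n → ℕ)} (h : Rep c S E A) (v w : ZMod n) (hvw : v ≠ w) (hv : v ∈ S) (hw : w ∈ S)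
    (e : ZMod n × ZMod n) (he : e ∉ E) (hed : ∀ i, dl e i = (if v = i then 1 else 0) + (if w = i then 1 else 0))
    (Fv Fw : (ZMod n → ℕ) → ℕ)
    (hF : ∀ k f lam, IsRep c S E k f lam → f v = Fv k ∧ f w = Fw k) :
    Rep (Function.update c w (c w + 1)) (S.erase v) (insert e E) (A ∩ {k | Fv k < Fw k}) := by
  intro k
  constructor
  · rintro ⟨hk, hk2⟩
    obtain ⟨f, lam, hr⟩ := (h k).1 hk
    obtain ⟨h1, h2⟩ := hF k f lam hr
    have h3 : f v < f w := by rw [h1, h2]; exact hk2
    refine ⟨fun i => if i = v then 0 else if i = w then f w - f v - 1 else f i, Function.update lam e (f v), ?_, ?_⟩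
    · intro i hi
      by_cases h4 : i = v
      · simp [h4]
      · by_cases h5 : i = w
        · exfalso; apply hi; subst h5; simp [hw, h4]
        · simp only [h4, h5, if_false]
          apply hr.1
          intro h6
          apply hi
          simp [h4, h6]
    · intro i
      rw [sum_update E e he, hr.2 i, hed i]
      by_cases h4 : i = v
      · subst h4
        simp [hvw, hvw.symm]
        omega
      · by_cases h5 : i = w
        · subst h5
          simp [hvw, hvw.symm]
          omega
        · have h6 : ¬ (v = i) := fun h => h4 h.symm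
          have h7 : ¬ (w = i) := fun h => h5 h.symm
          simp [h4, h5, h6, h7]
  · rintro ⟨f, lam, hr1, hr2⟩
    have hrep : IsRep c S E k (fun i => f i + lam e * dl e i + (if i = w then 1 else 0)) lam := by
      constructor
      · intro i hi
        have h6 : ¬ (v = i) := fun h => hi (h ▸ hv)
        have h7 : ¬ (w = i) := fun h => hi (h ▸ hw)
        have h8 : ¬ (i = w) := fun h => hi (h ▸ hw)
        have : f i = 0 := hr1 i (by simp [hi])
        simp [this, hed, h6, h7, h8]
      · intro i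
        rw [hr2 i, Finset.sum_insert he]
        by_cases h5 : i = w
        · subst h5
          simp
          ring
        · simp [h5]
          ring
    refine ⟨(h k).2 ⟨_, _, hrep⟩, ?_⟩
    obtain ⟨h1, h2⟩ := hF k _ lam hrep
    have h3 : f v = 0 := hr1 v (by simp)
    simp only [Set.mem_ofPred_eq]
    rw [← h1, ← h2, h3, hed, hed]
    simp [hvw, hvw.symm]

/-- ordered version of the pair `{v,w}` -/
def nrm {n : ℕ} (v w : ZMod n) : ZMod n × ZMod n := if v.val < w.val then (v, w) else (w, v)

lemma nrm_dl {n : ℕ} (v w i : ZMod n) : dl (nrm v w) i = (if v = i then 1 else 0) + (if w = i then 1 else 0) := by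
  unfold nrm dl
  split_ifs <;> simp_all

lemma nrm_lt {n : ℕ} [NeZero n] {v w : ZMod n} (h : v ≠ w) : (nrm v w).1.val < (nrm v w).2.val := by
  unfold nrm
  split_ifs with h1
  · exact h1
  · have : v.val ≠ w.val := fun h2 => h (ZMod.val_injective n h2)
    simp only
    omega

lemma nrm_comm {n : ℕ} [NeZero n] (v w : ZMod n) : nrm v w = nrm w v := by
  by_cases h : v = w
  · rw [h]
  · have : v.val ≠ w.val := fun h2 => h (ZMod.val_injective n h2)
    unfold nrm
    split_ifs with h1 h2 <;> first | rfl | omega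

lemma nrm_touch {n : ℕ} (v w i : ZMod n) (h1 : v ≠ i) (h2 : w ≠ i) :
    (nrm v w).1 ≠ i ∧ (nrm v w).2 ≠ i := by
  unfold nrm
  split_ifs <;> simp [h1, h2]

def Cross {n : ℕ} (e e' : ZMod n × ZMod n) : Prop :=
  e.1.val < e'.1.val ∧ e'.1.val < e.2.val ∧ e.2.val < e'.2.val

lemma arc_facts {n : ℕ} [NeZero n] (v : ZMod n) (l : ℕ) (hln : l < n) (u : ZMod n)
    (hu : u ∉ arc v l) :
    (v.val + l < n ∧ (v + (l : ZMod n)).val = v.val + l ∧ (u.val < v.val ∨ v.val + l < u.val)) ∨
    (n ≤ v.val + l ∧ (v + (l : ZMod n)).val + n = v.val + l ∧ (v + (l : ZMod n)).val < u.val ∧ u.val < v.val) := by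
  have hv := v.val_lt
  have hu' := u.val_lt
  have hmem : ∀ i : ℕ, i ≤ l → (v.val + i = u.val ∨ v.val + i = u.val + n) → False := by
    intro i hi h
    apply hu
    refine ⟨i, hi, ?_⟩
    have h1 : (u : ZMod n) = ((u.val : ℕ) : ZMod n) := (ZMod.natCast_zmod_val u).symm
    have h2 : (v : ZMod n) = ((v.val : ℕ) : ZMod n) := (ZMod.natCast_zmod_val v).symm
    rcases h with h | h
    · rw [h1, ← h]; push_cast; rw [← h2]
    · have : ((v.val + i : ℕ) : ZMod n) = ((u.val + n : ℕ) : ZMod n) := by rw [h]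
      push_cast at this
      simp at this
      exact this.symm
  have hval : (v + (l : ZMod n)).val = (v.val + l) % n := by
    rw [ZMod.val_add, ZMod.val_natCast, Nat.add_mod_mod]
  by_cases h : v.val + l < n
  · left
    rw [Nat.mod_eq_of_lt h] at hval
    refine ⟨h, hval, ?_⟩
    by_contra h3
    push Not at h3
    exact hmem (u.val - v.val) (by omega) (Or.inl (by omega))
  · right
    push Not at h
    have hval2 : (v.val + l) % n = v.val + l - n := by
      rw [Nat.mod_eq_sub_mod h, Nat.mod_eq_of_lt (by omega)]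
    rw [hval2] at hval
    refine ⟨h, by omega, ?_, ?_⟩
    · by_contra h3
      push Not at h3
      exact hmem (u.val + n - v.val) (by omega) (Or.inr (by omega))
    · by_contra h3
      push Not at h3
      exact hmem (u.val - v.val) (by omega) (Or.inl (by omega))

lemma not_cross_arc {n : ℕ} [NeZero n] (v : ZMod n) (l : ℕ) (hln : l < n)
    (e : ZMod n × ZMod n) (h1 : e.1 ∉ arc v l) (h2 : e.2 ∉ arc v l) :
    ¬ Cross (nrm v (v + (l : ZMod n))) e ∧ ¬ Cross e (nrm v (v + (l : ZMod n))) := by
  have f1 := arc_facts v l hln e.1 h1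
  have f2 := arc_facts v l hln e.2 h2
  unfold Cross nrm
  split_ifs with h3
  · constructor
    · rintro ⟨a, b, c⟩; simp only at a b c; omega
    · rintro ⟨a, b, c⟩; simp only at a b c; omega
  · constructor
    · rintro ⟨a, b, c⟩; simp only at a b c; omega
    · rintro ⟨a, b, c⟩; simp only at a b c; omega

lemma not_cross_self {n : ℕ} (e : ZMod n × ZMod n) : ¬ Cross e e := by
  rintro ⟨a, -, -⟩
  exact lt_irrefl _ a

/-- the full package -/
structure Good {n : ℕ} (Y : Finset (ZMod n)) (A : Set (ZMod n → ℕ)) (c : ZMod n → ℕ)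
    (S : Finset (ZMod n)) (E : Finset (ZMod n × ZMod n)) : Prop where
  le : ∀ i, c i ≤ 2
  lt : ∀ e ∈ E, e.1.val < e.2.val
  nc : ∀ e ∈ E, ∀ e' ∈ E, ¬ Cross e e'
  rep : Rep c S E A
  c0 : ∀ i, i ∉ Y → c i = 0
  inS : ∀ i, i ∉ Y → i ∈ S
  tch : ∀ i, i ∉ Y → ∀ e ∈ E, e.1 ≠ i ∧ e.2 ≠ i

lemma sameSign_zero (a : ℤ) : SameSign a 0 ↔ a = 0 := by
  unfold SameSign
  constructor
  · rintro ⟨h1, h2⟩
    simp at h1 h2
    omega
  · rintro rfl; simp

lemma sameSign_pos (a b : ℤ) (hb : 0 < b) : SameSign a b ↔ 0 < a := by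
  unfold SameSign
  constructor
  · rintro ⟨h1, -⟩
    exact h1.2 hb
  · intro h
    refine ⟨⟨fun _ => hb, fun _ => h⟩, ⟨fun h2 => by omega, fun h2 => by omega⟩⟩

lemma sameSign_neg (a b : ℤ) (hb : b < 0) : SameSign a b ↔ a < 0 := by
  unfold SameSign
  constructor
  · rintro ⟨-, h1⟩
    exact h1.2 hb
  · intro h
    refine ⟨⟨fun h2 => by omega, fun h2 => by omega⟩, ⟨fun _ => hb, fun _ => h⟩⟩

lemma Good.fv {n : ℕ} {Y : Finset (ZMod n)} {A : Set (ZMod n → ℕ)} {c : ZMod n → ℕ}
    {S : Finset (ZMod n)} {E : Finset (ZMod n × ZMod n)} (h : Good Y A c S E) (v : ZMod n) (hv : v ∉ Y)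
    (k f : ZMod n → ℕ) (lam : ZMod n × ZMod n → ℕ) (hr : IsRep c S E k f lam) : f v = k v := by
  rw [hr.2 v, h.c0 v hv]
  have : ∑ e ∈ E, lam e * dl e v = 0 := by
    apply Finset.sum_eq_zero
    intro e he
    have := h.tch v hv e he
    simp [dl, this.1, this.2]
  rw [this]
  ring

/-- adding one chord -/
lemma Good.addChord {n : ℕ} [NeZero n] {Y : Finset (ZMod n)} {A : Set (ZMod n → ℕ)} {c : ZMod n → ℕ}
    {S : Finset (ZMod n)} {E : Finset (ZMod n × ZMod n)} (h : Good Y A c S E) (v w : ZMod n)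
    (hvw : v ≠ w) (hv : v ∉ Y) (hw : w ∉ Y)
    (hnc : ∀ e ∈ E, ¬ Cross (nrm v w) e ∧ ¬ Cross e (nrm v w)) :
    (∃ c' S' E', Good (insert v (insert w Y)) (A ∩ {k | k v = k w}) c' S' E' ∧
      c' = c ∧ S' = (S.erase v).erase w ∧ E' = insert (nrm v w) E) ∧
    (∃ c' S' E', Good (insert v (insert w Y)) (A ∩ {k | k v < k w}) c' S' E' ∧
      c' = Function.update c w (c w + 1) ∧ S' = S.erase v ∧ E' = insert (nrm v w) E) := by
  have he : nrm v w ∉ E := by
    intro h1
    have := h.tch v hv _ h1
    have h2 := h.tch w hw _ h1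
    unfold nrm at this h2
    split_ifs at this h2 <;> simp_all
  have hed : ∀ i, dl (nrm v w) i = (if v = i then 1 else 0) + (if w = i then 1 else 0) :=
    nrm_dl v w
  have hncE : ∀ e ∈ insert (nrm v w) E, ∀ e' ∈ insert (nrm v w) E, ¬ Cross e e' := by
    intro e h1 e' h2
    rw [Finset.mem_insert] at h1 h2
    rcases h1 with rfl | h1
    · rcases h2 with rfl | h2
      · exact not_cross_self _
      · exact (hnc e' h2).1
    · rcases h2 with rfl | h2
      · exact (hnc e h1).2
      · exact h.nc e h1 e' h2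
  have hltE : ∀ e ∈ insert (nrm v w) E, e.1.val < e.2.val := by
    intro e h1
    rw [Finset.mem_insert] at h1
    rcases h1 with rfl | h1
    · exact nrm_lt hvw
    · exact h.lt e h1
  have htch : ∀ i, i ∉ insert v (insert w Y) → ∀ e ∈ insert (nrm v w) E, e.1 ≠ i ∧ e.2 ≠ i := by
    intro i hi e h1
    simp only [Finset.mem_insert, not_or] at hi
    rw [Finset.mem_insert] at h1
    rcases h1 with rfl | h1
    · exact nrm_touch v w i (fun h => hi.1 h.symm) (fun h => hi.2.1 h.symm)
    · exact h.tch i hi.2.2 e h1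
  have hF : ∀ k f lam, IsRep c S E k f lam → f v = k v ∧ f w = k w := fun k f lam hr =>
    ⟨h.fv v hv k f lam hr, h.fv w hw k f lam hr⟩
  constructor
  · refine ⟨_, _, _, ?_, rfl, rfl, rfl⟩
    refine ⟨h.le, hltE, hncE, ext_eq h.rep v w hvw (h.inS v hv) (h.inS w hw) (nrm v w) he hed
      (fun k => k v) (fun k => k w) hF, ?_, ?_, htch⟩
    · intro i hi
      simp only [Finset.mem_insert, not_or] at hi
      exact h.c0 i hi.2.2
    · intro i hi
      simp only [Finset.mem_insert, not_or] at hi
      simp [hi.1, hi.2.1, h.inS i hi.2.2]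
  · refine ⟨_, _, _, ?_, rfl, rfl, rfl⟩
    refine ⟨?_, hltE, hncE, ext_lt h.rep v w hvw (h.inS v hv) (h.inS w hw) (nrm v w) he hed
      (fun k => k v) (fun k => k w) hF, ?_, ?_, htch⟩
    · intro i
      by_cases hi : i = w
      · subst hi
        simp [h.c0 i hw]
      · rw [Function.update_of_ne hi]
        exact h.le i
    · intro i hi
      simp only [Finset.mem_insert, not_or] at hi
      rw [Function.update_of_ne hi.2.1]
      exact h.c0 i hi.2.2
    · intro i hi
      simp only [Finset.mem_insert, not_or] at hi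
      simp [hi.1, h.inS i hi.2.2]

lemma Good.congr {n : ℕ} {Y Y' : Finset (ZMod n)} {A A' : Set (ZMod n → ℕ)} {c : ZMod n → ℕ}
    {S : Finset (ZMod n)} {E : Finset (ZMod n × ZMod n)} (h : Good Y A c S E) (hY : Y = Y') (hA : A = A') :
    Good Y' A' c S E := by
  subst hY; subst hA; exact h

/-- chord with recorded comparison -/
lemma Good.addSign {n : ℕ} [NeZero n] {Y : Finset (ZMod n)} {A : Set (ZMod n → ℕ)} {c : ZMod n → ℕ}
    {S : Finset (ZMod n)} {E : Finset (ZMod n × ZMod n)} (h : Good Y A c S E) (x : ZMod n → ℕ) (v w : ZMod n)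
    (hvw : v ≠ w) (hv : v ∉ Y) (hw : w ∉ Y)
    (hnc : ∀ e ∈ E, ¬ Cross (nrm v w) e ∧ ¬ Cross e (nrm v w)) :
    ∃ c' S' E', Good (insert v (insert w Y)) (A ∩ chordSet x v w) c' S' E' ∧
      E' = insert (nrm v w) E := by
  rcases lt_trichotomy (x v) (x w) with hx | hx | hx
  · obtain ⟨c', S', E', hg, -, -, hE⟩ := (h.addChord v w hvw hv hw hnc).2
    refine ⟨c', S', E', hg.congr rfl ?_, hE⟩
    congr 1
    ext k
    simp only [chordSet, Set.mem_ofPred_eq]
    rw [sameSign_neg _ _ (by omega)]
    omega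
  · obtain ⟨c', S', E', hg, -, -, hE⟩ := (h.addChord v w hvw hv hw hnc).1
    refine ⟨c', S', E', hg.congr rfl ?_, hE⟩
    congr 1
    ext k
    simp only [chordSet, Set.mem_ofPred_eq]
    have : ((x v : ℤ) - x w) = 0 := by omega
    rw [this, sameSign_zero]
    omega
  · obtain ⟨c', S', E', hg, -, -, hE⟩ := (h.addChord w v hvw.symm hw hv (by
      intro e he; rw [nrm_comm]; exact hnc e he)).2
    refine ⟨c', S', E', hg.congr (Finset.insert_comm _ _ _) ?_, by rw [hE, nrm_comm]⟩
    congr 1
    ext k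
    simp only [chordSet, Set.mem_ofPred_eq]
    rw [sameSign_pos _ _ (by omega)]
    omega

lemma not_cross_share {n : ℕ} (e e' : ZMod n × ZMod n) (i : ZMod n) (h : dl e i ≠ 0) (h' : dl e' i ≠ 0) :
    ¬ Cross e e' ∧ ¬ Cross e' e := by
  have hi : e.1 = i ∨ e.2 = i := by
    by_contra h1
    push Not at h1
    apply h
    simp [dl, h1.1, h1.2]
  have hi' : e'.1 = i ∨ e'.2 = i := by
    by_contra h1
    push Not at h1
    apply h'
    simp [dl, h1.1, h1.2]
  have hi2 : e.1.val = i.val ∨ e.2.val = i.val := hi.imp (congrArg _) (congrArg _)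
  have hi2' : e'.1.val = i.val ∨ e'.2.val = i.val := hi'.imp (congrArg _) (congrArg _)
  unfold Cross
  constructor
  · rintro ⟨a, b, c⟩
    omega
  · rintro ⟨a, b, c⟩
    omega

lemma Good.start {n : ℕ} [NeZero n] :
    Good (n := n) ∅ Set.univ (fun _ => 0) (Finset.univ : Finset (ZMod n)) ∅ := by
  refine ⟨fun _ => by simp, by simp, by simp, ?_, by simp, by simp, by simp⟩
  intro k
  simp only [Set.mem_univ, true_iff]
  exact ⟨k, fun _ => 0, by simp, by simp⟩

lemma block_gen {n : ℕ} [NeZero n] (x : ZMod n → ℕ) (p q r s : ZMod n)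
    (hpq : p ≠ q) (hpr : p ≠ r) (hps : p ≠ s) (hqr : q ≠ r) (hqs : q ≠ s) (hrs : r ≠ s)
    (hnc : ¬ Cross (nrm p q) (nrm r s) ∧ ¬ Cross (nrm r s) (nrm p q)) :
    ∃ c S E, Good {p, q, r, s} {k | k p < k q ∧ k r < k s ∧
      SameSign (((k q : ℤ) - k p) - ((k s : ℤ) - k r)) (((x q : ℤ) - x p) - ((x s : ℤ) - x r))} c S E := by
  obtain ⟨c1, S1, E1, hg1, hc1, hS1, hE1⟩ :=
    ((Good.start (n := n)).addChord r s hrs (by simp) (by simp) (by simp)).2
  have hE1' : E1 = {nrm r s} := by rw [hE1]; simp
  obtain ⟨c2, S2, E2, hg2, hc2, hS2, hE2⟩ :=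
    (hg1.addChord p q hpq (by simp [hpr, hps]) (by simp [hqr, hqs]) (by
      intro e he
      rw [hE1', Finset.mem_singleton] at he
      subst he
      exact hnc)).2
  have hE2' : E2 = {nrm p q, nrm r s} := by rw [hE2, hE1']
  have c2p : c2 p = 0 := by
    rw [hc2, Function.update_of_ne hpq, hc1, Function.update_of_ne hps]
  have c2q : c2 q = 1 := by
    rw [hc2, Function.update_self, hc1, Function.update_of_ne hqs]
  have c2r : c2 r = 0 := by
    rw [hc2, Function.update_of_ne hqr.symm, hc1, Function.update_of_ne hrs]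
  have c2s : c2 s = 1 := by
    rw [hc2, Function.update_of_ne hqs.symm, hc1, Function.update_self]
  have Sp : p ∉ S2 := by rw [hS2]; simp
  have Sr : r ∉ S2 := by rw [hS2, hS1]; simp
  have Sq : q ∈ S2 := by rw [hS2, hS1]; simp [hpq.symm, hqr]
  have Ss : s ∈ S2 := by rw [hS2, hS1]; simp [hps.symm, hrs.symm]
  have hne12 : nrm p q ≠ nrm r s := by
    intro h
    have := nrm_dl p q p
    rw [h, nrm_dl] at this
    simp [hpr.symm, hps.symm, hpq.symm] at this
  have hF : ∀ k f lam, IsRep c2 S2 E2 k f lam → f q = k q - k p - 1 ∧ f s = k s - k r - 1 := by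
    intro k f lam hr
    have h1 := hr.2 p
    have h2 := hr.2 q
    have h3 := hr.2 r
    have h4 := hr.2 s
    rw [hE2', Finset.sum_pair hne12, nrm_dl, nrm_dl] at h1 h2 h3 h4
    have h5 := hr.1 p Sp
    have h6 := hr.1 r Sr
    simp [hpq, hpr, hps, hqr, hqs, hrs, hpq.symm, hpr.symm, hps.symm, hqr.symm, hqs.symm, hrs.symm, c2p, c2q, c2r, c2s, h5, h6] at h1 h2 h3 h4
    omega
  have hdl : ∀ i, dl (nrm q s) i = (if q = i then 1 else 0) + (if s = i then 1 else 0) := nrm_dl q s
  have he3 : nrm q s ∉ E2 := by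
    rw [hE2']
    simp only [Finset.mem_insert, Finset.mem_singleton, not_or]
    constructor
    · intro h
      have := nrm_dl q s p
      rw [h, nrm_dl] at this
      simp [hpq.symm, hps.symm] at this
    · intro h
      have := nrm_dl q s r
      rw [h, nrm_dl] at this
      simp [hqr, hrs.symm] at this
  have hq1 : dl (nrm q s) q ≠ 0 := by rw [nrm_dl]; simp
  have hs1 : dl (nrm q s) s ≠ 0 := by rw [nrm_dl]; simp
  have hq2 : dl (nrm p q) q ≠ 0 := by rw [nrm_dl]; simp
  have hs2 : dl (nrm r s) s ≠ 0 := by rw [nrm_dl]; simp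
  have hnc3 : ∀ e ∈ insert (nrm q s) E2, ∀ e' ∈ insert (nrm q s) E2, ¬ Cross e e' := by
    have key : ∀ e ∈ E2, ¬ Cross (nrm q s) e ∧ ¬ Cross e (nrm q s) := by
      intro e he
      rw [hE2'] at he
      simp only [Finset.mem_insert, Finset.mem_singleton] at he
      rcases he with rfl | rfl
      · exact not_cross_share _ _ q hq1 hq2
      · exact not_cross_share _ _ s hs1 hs2
    intro e h1 e' h2
    rw [Finset.mem_insert] at h1 h2
    rcases h1 with rfl | h1
    · rcases h2 with rfl | h2
      · exact not_cross_self _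
      · exact (key e' h2).1
    · rcases h2 with rfl | h2
      · exact (key e h1).2
      · exact hg2.nc e h1 e' h2
  have hlt3 : ∀ e ∈ insert (nrm q s) E2, e.1.val < e.2.val := by
    intro e h1
    rw [Finset.mem_insert] at h1
    rcases h1 with rfl | h1
    · exact nrm_lt hqs
    · exact hg2.lt e h1
  have hY : insert p (insert q (insert r (insert s (∅ : Finset (ZMod n))))) = {p, q, r, s} := rfl
  have htch3 : ∀ i, i ∉ ({p, q, r, s} : Finset (ZMod n)) → ∀ e ∈ insert (nrm q s) E2, e.1 ≠ i ∧ e.2 ≠ i := by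
    intro i hi e h1
    rw [Finset.mem_insert] at h1
    rcases h1 with rfl | h1
    · simp only [Finset.mem_insert, Finset.mem_singleton, not_or] at hi
      exact nrm_touch _ _ _ (fun h => hi.2.1 h.symm) (fun h => hi.2.2.2 h.symm)
    · exact hg2.tch i hi e h1
  have hle2 : ∀ i, c2 i ≤ 1 := by
    intro i
    by_cases h1 : i = p
    · rw [h1, c2p]; omega
    by_cases h2 : i = q
    · rw [h2, c2q]
    by_cases h3 : i = r
    · rw [h3, c2r]; omega
    by_cases h4 : i = s
    · rw [h4, c2s]
    rw [hg2.c0 i (by simp [h1, h2, h3, h4])]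
    omega
  rcases lt_trichotomy (x q + x r) (x s + x p) with hx | hx | hx
  · have hrep := ext_lt hg2.rep q s hqs Sq Ss (nrm q s) he3 hdl (fun k => k q - k p - 1)
      (fun k => k s - k r - 1) hF
    refine ⟨Function.update c2 s (c2 s + 1), S2.erase q, insert (nrm q s) E2,
      ⟨?_, hlt3, hnc3, ?_, ?_, ?_, htch3⟩⟩
    rotate_left
    · convert hrep using 1
      ext k
      simp only [Set.mem_inter_iff, Set.mem_ofPred_eq, Set.mem_univ, true_and]
      rw [sameSign_neg _ _ (by omega)]
      omega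
    · intro i hi
      simp only [Finset.mem_insert, Finset.mem_singleton, not_or] at hi
      rw [Function.update_of_ne hi.2.2.2]
      exact hg2.c0 i (by simp [hi])
    · intro i hi
      have := hg2.inS i hi
      simp only [Finset.mem_insert, Finset.mem_singleton, not_or] at hi
      simp [hi, this]
    · intro i
      by_cases h : i = s
      · subst h
        simp [c2s]
      · rw [Function.update_of_ne h]
        exact (hle2 i).trans (by norm_num)
  · have hrep := ext_eq hg2.rep q s hqs Sq Ss (nrm q s) he3 hdl (fun k => k q - k p - 1)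
      (fun k => k s - k r - 1) hF
    refine ⟨c2, (S2.erase q).erase s, insert (nrm q s) E2, ⟨?_, hlt3, hnc3, ?_, ?_, ?_, htch3⟩⟩
    rotate_left
    · convert hrep using 1
      ext k
      simp only [Set.mem_inter_iff, Set.mem_ofPred_eq, Set.mem_univ, true_and]
      have : (((x q : ℤ) - x p) - ((x s : ℤ) - x r)) = 0 := by omega
      rw [this, sameSign_zero]
      omega
    · intro i hi
      exact hg2.c0 i hi
    · intro i hi
      have := hg2.inS i hi
      simp only [Finset.mem_insert, Finset.mem_singleton, not_or] at hi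
      simp [hi, this]
    · intro i
      exact (hle2 i).trans (by norm_num)
  · have hrep := ext_lt hg2.rep s q hqs.symm Ss Sq (nrm q s) he3 (by
      intro i; rw [hdl i, add_comm]) (fun k => k s - k r - 1) (fun k => k q - k p - 1)
      (fun k f lam hr => (hF k f lam hr).symm)
    refine ⟨Function.update c2 q (c2 q + 1), S2.erase s, insert (nrm q s) E2,
      ⟨?_, hlt3, hnc3, ?_, ?_, ?_, htch3⟩⟩
    rotate_left
    · convert hrep using 1
      ext k
      simp only [Set.mem_inter_iff, Set.mem_ofPred_eq, Set.mem_univ, true_and]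
      rw [sameSign_pos _ _ (by omega)]
      omega
    · intro i hi
      simp only [Finset.mem_insert, Finset.mem_singleton, not_or] at hi
      rw [Function.update_of_ne hi.2.1]
      exact hg2.c0 i (by simp [hi])
    · intro i hi
      have := hg2.inS i hi
      simp only [Finset.mem_insert, Finset.mem_singleton, not_or] at hi
      simp [hi, this]
    · intro i
      by_cases h : i = q
      · subst h
        simp [c2q]
      · rw [Function.update_of_ne h]
        exact (hle2 i).trans (by norm_num)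

lemma natCast_ne {n : ℕ} (a b : ℕ) (hab : a < b) (hb : b < n) : (a : ZMod n) ≠ (b : ZMod n) := by
  intro h
  rw [ZMod.natCast_eq_natCast_iff'] at h
  rw [Nat.mod_eq_of_lt (by omega), Nat.mod_eq_of_lt hb] at h
  omega

set_option maxHeartbeats 2000000 in
lemma block_real {n : ℕ} [NeZero n] (x : ZMod n → ℕ) (c : ZMod n) (t1 t2 t3 : ℕ) (h1 : 0 < t1)
    (h2 : t1 < t2) (h3 : t2 < t3) (h4 : t3 < n) :
    ∃ c' S E, Good {c, c + (t1 : ZMod n), c + (t2 : ZMod n), c + (t3 : ZMod n)}
        (blockSet x c (c + (t1 : ZMod n)) (c + (t2 : ZMod n)) (c + (t3 : ZMod n))) c' S E := by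
  have h01 : c ≠ c + (t1 : ZMod n) := by
    intro h; exact natCast_ne (n := n) 0 t1 h1 (by omega) (by simp at h; simp [h])
  have h02 : c ≠ c + (t2 : ZMod n) := by
    intro h; exact natCast_ne (n := n) 0 t2 (by omega) (by omega) (by simp at h; simp [h])
  have h03 : c ≠ c + (t3 : ZMod n) := by
    intro h; exact natCast_ne (n := n) 0 t3 (by omega) (by omega) (by simp at h; simp [h])
  have h12 : c + (t1 : ZMod n) ≠ c + (t2 : ZMod n) := by
    intro h; exact natCast_ne t1 t2 (by omega) (by omega) (add_left_cancel h)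
  have h13 : c + (t1 : ZMod n) ≠ c + (t3 : ZMod n) := by
    intro h; exact natCast_ne t1 t3 (by omega) (by omega) (add_left_cancel h)
  have h23 : c + (t2 : ZMod n) ≠ c + (t3 : ZMod n) := by
    intro h; exact natCast_ne t2 t3 (by omega) (by omega) (add_left_cancel h)
  have hc2 : c + (t2 : ZMod n) = c + (t1 : ZMod n) + ((t2 - t1 : ℕ) : ZMod n) := by
    rw [Nat.cast_sub h2.le]; ring
  have a0 : c ∉ arc (c + (t1 : ZMod n)) (t2 - t1) := by
    rintro ⟨i, hi, h⟩
    exact natCast_ne (n := n) 0 (t1 + i) (by omega) (by omega) (by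
      push_cast
      have : c + 0 = c + ((t1 : ZMod n) + i) := by rw [add_zero, ← add_assoc]; exact h
      exact add_left_cancel this)
  have a3 : c + (t3 : ZMod n) ∉ arc (c + (t1 : ZMod n)) (t2 - t1) := by
    rintro ⟨i, hi, h⟩
    exact natCast_ne (n := n) (t1 + i) t3 (by omega) (by omega) (by
      push_cast
      rw [add_assoc] at h
      exact (add_left_cancel h).symm)
  generalize hp1 : c + (t1 : ZMod n) = c1 at *
  generalize hp2 : c + (t2 : ZMod n) = c2 at *
  generalize hp3 : c + (t3 : ZMod n) = c3 at *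
  have hnc : ¬ Cross (nrm c1 c2) (nrm c c3) ∧ ¬ Cross (nrm c c3) (nrm c1 c2) := by
    rw [hc2]
    apply not_cross_arc c1 (t2 - t1) (by omega)
    · unfold nrm; split_ifs <;> assumption
    · unfold nrm; split_ifs <;> assumption
  have hnc' := hnc.symm
  -- two chords
  have two : x c = x c3 ∨ x c1 = x c2 → ∃ c' S E, Good {c, c1, c2, c3} (blockSet x c c1 c2 c3) c' S E := by
    intro hx
    obtain ⟨d1, S1, E1, hg1, hE1⟩ :=
      (Good.start (n := n)).addSign x c1 c2 h12 (by simp) (by simp) (by simp)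
    obtain ⟨d2, S2, E2, hg2, hE2⟩ := hg1.addSign x c c3 h03 (by simp [h01, h02])
      (by simp [h13.symm, h23.symm]) (by
        intro e he
        rw [hE1] at he
        simp only [Finset.mem_insert, Finset.notMem_empty, or_false] at he
        subst he
        exact hnc')
    refine ⟨d2, S2, E2, hg2.congr ?_ ?_⟩
    · ext i; simp only [Finset.mem_insert, Finset.notMem_empty, or_false, Finset.mem_singleton]; tauto
    · ext k
      simp only [blockSet, chordSet, Set.mem_inter_iff, Set.mem_ofPred_eq, Set.mem_univ, true_and]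
      constructor
      · rintro ⟨b, a⟩
        refine ⟨a, b, ?_⟩
        rcases hx with hx | hx
        · have e1 : ((x c : ℤ) - x c3) = 0 := by omega
          rw [e1] at a ⊢
          rw [sameSign_zero] at a
          rw [a]
          simp only [abs_zero, zero_sub]
          rcases eq_or_ne (x c1) (x c2) with hy | hy
          · have e2 : ((x c1 : ℤ) - x c2) = 0 := by omega
            rw [e2] at b ⊢
            rw [sameSign_zero] at b
            rw [b]
            simp [sameSign_zero]
          · have e3 : 0 < |(x c1 : ℤ) - x c2| := abs_pos.2 (by omega)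
            rw [sameSign_neg _ _ (by omega)]
            have : ((k c1 : ℤ) - k c2) ≠ 0 := by
              intro h; rw [h] at b
              rcases lt_or_gt_of_ne hy with hy | hy
              · rw [sameSign_neg _ _ (by omega)] at b; omega
              · rw [sameSign_pos _ _ (by omega)] at b; omega
            have := abs_pos.2 this
            omega
        · have e1 : ((x c1 : ℤ) - x c2) = 0 := by omega
          rw [e1] at b ⊢
          rw [sameSign_zero] at b
          rw [b]
          simp only [abs_zero, sub_zero]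
          rcases eq_or_ne (x c) (x c3) with hy | hy
          · have e2 : ((x c : ℤ) - x c3) = 0 := by omega
            rw [e2] at a ⊢
            rw [sameSign_zero] at a
            rw [a]
            simp [sameSign_zero]
          · have e3 : 0 < |(x c : ℤ) - x c3| := abs_pos.2 (by omega)
            rw [sameSign_pos _ _ (by omega)]
            have : ((k c : ℤ) - k c3) ≠ 0 := by
              intro h; rw [h] at a
              rcases lt_or_gt_of_ne hy with hy | hy
              · rw [sameSign_neg _ _ (by omega)] at a; omega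
              · rw [sameSign_pos _ _ (by omega)] at a; omega
            have := abs_pos.2 this
            omega
      · rintro ⟨a, b, -⟩
        exact ⟨b, a⟩
  rcases lt_trichotomy (x c) (x c3) with hx | hx | hx
  · rcases lt_trichotomy (x c1) (x c2) with hy | hy | hy
    · obtain ⟨d, S, E, hg⟩ := block_gen x c c3 c1 c2 h03 h01 h02 h13.symm h23.symm h12 (by simpa using hnc')
      refine ⟨d, S, E, hg.congr ?_ ?_⟩
      · ext i; simp only [Finset.mem_insert, Finset.mem_singleton]; tauto
      · ext k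
        simp only [blockSet, Set.mem_ofPred_eq]
        rw [sameSign_neg ((k c : ℤ) - k c3) _ (by omega), sameSign_neg ((k c1 : ℤ) - k c2) _ (by omega)]
        rw [abs_of_neg (show ((x c : ℤ) - x c3) < 0 by omega), abs_of_neg (show ((x c1 : ℤ) - x c2) < 0 by omega)]
        constructor
        · rintro ⟨a, b, e⟩
          refine ⟨by omega, by omega, ?_⟩
          rw [abs_of_neg (show ((k c : ℤ) - k c3) < 0 by omega), abs_of_neg (show ((k c1 : ℤ) - k c2) < 0 by omega)]
          simpa using e
        · rintro ⟨a, b, e⟩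
          rw [abs_of_neg a, abs_of_neg b] at e
          exact ⟨by omega, by omega, by simpa using e⟩
    · exact two (Or.inr hy)
    · obtain ⟨d, S, E, hg⟩ := block_gen x c c3 c2 c1 h03 h02 h01 h23.symm h13.symm h12.symm (by
        rw [nrm_comm c2 c1]; exact hnc')
      refine ⟨d, S, E, hg.congr ?_ ?_⟩
      · ext i; simp only [Finset.mem_insert, Finset.mem_singleton]; tauto
      · ext k
        simp only [blockSet, Set.mem_ofPred_eq]
        rw [sameSign_neg ((k c : ℤ) - k c3) _ (by omega), sameSign_pos ((k c1 : ℤ) - k c2) _ (by omega)]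
        rw [abs_of_neg (show ((x c : ℤ) - x c3) < 0 by omega), abs_of_pos (show 0 < ((x c1 : ℤ) - x c2) by omega)]
        constructor
        · rintro ⟨a, b, e⟩
          refine ⟨by omega, by omega, ?_⟩
          rw [abs_of_neg (show ((k c : ℤ) - k c3) < 0 by omega), abs_of_pos (show 0 < ((k c1 : ℤ) - k c2) by omega)]
          simpa using e
        · rintro ⟨a, b, e⟩
          rw [abs_of_neg a, abs_of_pos b] at e
          exact ⟨by omega, by omega, by simpa using e⟩
  · exact two (Or.inl hx)
  · rcases lt_trichotomy (x c1) (x c2) with hy | hy | hy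
    · obtain ⟨d, S, E, hg⟩ := block_gen x c3 c c1 c2 h03.symm h13.symm h23.symm h01 h02 h12 (by
        rw [nrm_comm c3 c]; exact hnc')
      refine ⟨d, S, E, hg.congr ?_ ?_⟩
      · ext i; simp only [Finset.mem_insert, Finset.mem_singleton]; tauto
      · ext k
        simp only [blockSet, Set.mem_ofPred_eq]
        rw [sameSign_pos ((k c : ℤ) - k c3) _ (by omega), sameSign_neg ((k c1 : ℤ) - k c2) _ (by omega)]
        rw [abs_of_pos (show 0 < ((x c : ℤ) - x c3) by omega), abs_of_neg (show ((x c1 : ℤ) - x c2) < 0 by omega)]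
        constructor
        · rintro ⟨a, b, e⟩
          refine ⟨by omega, by omega, ?_⟩
          rw [abs_of_pos (show 0 < ((k c : ℤ) - k c3) by omega), abs_of_neg (show ((k c1 : ℤ) - k c2) < 0 by omega)]
          simpa using e
        · rintro ⟨a, b, e⟩
          rw [abs_of_pos a, abs_of_neg b] at e
          exact ⟨by omega, by omega, by simpa using e⟩
    · exact two (Or.inr hy)
    · obtain ⟨d, S, E, hg⟩ := block_gen x c3 c c2 c1 h03.symm h23.symm h13.symm h02 h01 h12.symm (by
        rw [nrm_comm c3 c, nrm_comm c2 c1]; exact hnc')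
      refine ⟨d, S, E, hg.congr ?_ ?_⟩
      · ext i; simp only [Finset.mem_insert, Finset.mem_singleton]; tauto
      · ext k
        simp only [blockSet, Set.mem_ofPred_eq]
        rw [sameSign_pos ((k c : ℤ) - k c3) _ (by omega), sameSign_pos ((k c1 : ℤ) - k c2) _ (by omega)]
        rw [abs_of_pos (show 0 < ((x c : ℤ) - x c3) by omega), abs_of_pos (show 0 < ((x c1 : ℤ) - x c2) by omega)]
        constructor
        · rintro ⟨a, b, e⟩
          refine ⟨by omega, by omega, ?_⟩
          rw [abs_of_pos (show 0 < ((k c : ℤ) - k c3) by omega), abs_of_pos (show 0 < ((k c1 : ℤ) - k c2) by omega)]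
          simpa using e
        · rintro ⟨a, b, e⟩
          rw [abs_of_pos a, abs_of_pos b] at e
          exact ⟨by omega, by omega, by simpa using e⟩

lemma mem_arc_left {n : ℕ} (v : ZMod n) (l : ℕ) : v ∈ arc v l := ⟨0, by omega, by simp⟩

lemma mem_arc_right {n : ℕ} (v : ZMod n) (l : ℕ) : v + (l : ZMod n) ∈ arc v l := ⟨l, le_refl _, rfl⟩

theorem Sys.good {n : ℕ} [NeZero n] {x : ZMod n → ℕ} {Y : Finset (ZMod n)} {A : Set (ZMod n → ℕ)}
    (h : Sys x Y A) : ∃ c S E, Good Y A c S E := by
  induction h with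
  | empty => exact ⟨_, _, _, Good.start⟩
  | block c t1 t2 t3 h1 h2 h3 h4 => exact block_real x c t1 t2 t3 h1 h2 h3 h4
  | chord Y A hS v l hl hln harc ih =>
    obtain ⟨c, S, E, hg⟩ := ih
    have hv : v ∉ Y := fun h => harc v h (mem_arc_left v l)
    have hw : v + (l : ZMod n) ∉ Y := fun h => harc _ h (mem_arc_right v l)
    have hvw : v ≠ v + (l : ZMod n) := by
      intro h; exact natCast_ne (n := n) 0 l hl hln (by simp at h; simp [h])
    obtain ⟨c', S', E', hg', -⟩ := hg.addSign x v (v + (l : ZMod n)) hvw hv hw (by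
      intro e he
      apply not_cross_arc v l hln e
      · intro hin
        have : e.1 ∉ Y := fun h => harc _ h hin
        exact (hg.tch e.1 this e he).1 rfl
      · intro hin
        have : e.2 ∉ Y := fun h => harc _ h hin
        exact (hg.tch e.2 this e he).2 rfl)
    exact ⟨c', S', E', hg'⟩

lemma cntZ_append {n : ℕ} (l1 l2 : List (ZMod n × ZMod n)) (i : ZMod n) :
    cntZ (l1 ++ l2) i = cntZ l1 i + cntZ l2 i := by
  simp [cntZ]

lemma cntZ_replicate {n : ℕ} (m : ℕ) (e : ZMod n × ZMod n) (i : ZMod n) :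
    cntZ (List.replicate m e) i = m * dl e i := by
  simp [cntZ, dl]

lemma cntZ_cons {n : ℕ} (e : ZMod n × ZMod n) (l : List (ZMod n × ZMod n)) (i : ZMod n) :
    cntZ (e :: l) i = dl e i + cntZ l i := by
  simp [cntZ, dl]

lemma exists_list {n : ℕ} (E : Finset (ZMod n × ZMod n)) (lam : ZMod n × ZMod n → ℕ) :
    ∃ l : List (ZMod n × ZMod n), (∀ e ∈ l, e ∈ E) ∧ ∀ i, cntZ l i = ∑ e ∈ E, lam e * dl e i := by
  classical
  induction E using Finset.induction_on with
  | empty => exact ⟨[], by simp, by simp [cntZ]⟩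
  | insert a s ha ih =>
    obtain ⟨l, h1, h2⟩ := ih
    refine ⟨List.replicate (lam a) a ++ l, ?_, ?_⟩
    · intro e he
      rw [List.mem_append] at he
      rcases he with he | he
      · rw [List.eq_of_mem_replicate he]; simp
      · exact Finset.mem_insert_of_mem (h1 e he)
    · intro i
      rw [cntZ_append, cntZ_replicate, h2, Finset.sum_insert ha]

lemma list_lam {n : ℕ} (E : Finset (ZMod n × ZMod n)) (l : List (ZMod n × ZMod n))
    (h : ∀ e ∈ l, e ∈ E) : ∃ lam : ZMod n × ZMod n → ℕ, ∀ i, cntZ l i = ∑ e ∈ E, lam e * dl e i := by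
  induction l with
  | nil => exact ⟨fun _ => 0, by simp [cntZ]⟩
  | cons a l ih =>
    obtain ⟨lam, hl⟩ := ih (fun e he => h e (List.mem_cons_of_mem _ he))
    refine ⟨fun e => lam e + (if e = a then 1 else 0), fun i => ?_⟩
    rw [cntZ_cons, hl i]
    simp only [add_mul, Finset.sum_add_distrib, ite_mul, one_mul, zero_mul]
    rw [Finset.sum_ite_eq' E a]
    have : a ∈ E := h a List.mem_cons_self
    simp [this, add_comm]

/-- Every system of recorded comparisons is a stratified linear set. -/
theorem Sys.realize {n : ℕ} [NeZero n] {x : ZMod n → ℕ} {Y : Finset (ZMod n)}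
    {A : Set (ZMod n → ℕ)} (h : Sys x Y A) :
    ∃ (c : ZMod n → ℕ) (S : Finset (ZMod n)) (E : Finset (ZMod n × ZMod n)),
      (∀ i, c i ≤ 2) ∧ (∀ e ∈ E, e.1.val < e.2.val) ∧
      (∀ e ∈ E, ∀ e' ∈ E, ¬ (e.1.val < e'.1.val ∧ e'.1.val < e.2.val ∧ e.2.val < e'.2.val)) ∧
      ∀ k : ZMod n → ℕ, k ∈ A ↔ ∃ (f : ZMod n → ℕ) (l : List (ZMod n × ZMod n)),
        (∀ i, i ∉ S → f i = 0) ∧ (∀ e ∈ l, e ∈ E) ∧ ∀ i, k i = c i + f i + cntZ l i := by
  obtain ⟨c, S, E, hg⟩ := h.good
  refine ⟨c, S, E, hg.le, hg.lt, hg.nc, ?_⟩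
  intro k
  rw [hg.rep k]
  constructor
  · rintro ⟨f, lam, hr1, hr2⟩
    obtain ⟨l, hl1, hl2⟩ := exists_list E lam
    exact ⟨f, l, hr1, hl1, fun i => by rw [hr2 i, hl2 i]⟩
  · rintro ⟨f, l, hr1, hl1, hr2⟩
    obtain ⟨lam, hlam⟩ := list_lam E l hl1
    exact ⟨f, lam, hr1, fun i => by rw [hr2 i, hlam i]⟩

end Pool.Agent.MP_5c6631_lc
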