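import Pool.Agent.Lib.MP_5c6631_lc.Claim
import Pool.Agent.Lib.MP_5c6631_lc.Assemble
import Pool.Agent.Lib.MP_5c6631_lc.Realize

set_option autoImplicit false

/-!
Arbitrary alphabets and arbitrary sets of forbidden prime exponents.
-/

namespace Pool.Agent.MP_5c6631_lc

namespace Ins

open CFGImpl

section map

variable {S T : Type}

/-- renaming the letters of a sentential form -/
def ms {N : Type*} (f : S → T) : Symbol S N → Symbol T N
  | Symbol.terminal s => Symbol.terminal (f s)
  | Symbol.nonterminal A => Symbol.nonterminal A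

/-- renaming the letters of a rule -/
def mr {N : Type*} (f : S → T) (r : ContextFreeRule S N) : ContextFreeRule T N :=
  ⟨r.input, r.output.map (ms f)⟩

open Classical in
/-- renaming the letters of a grammar -/
noncomputable def mg (f : S → T) (g : ContextFreeGrammar S) : ContextFreeGrammar T where
  NT := g.NT
  initial := g.initial
  rules := g.rules.image (mr f)

lemma ms_term {N : Type*} (f : S → T) (w : List S) :
    (w.map (Symbol.terminal (N := N))).map (ms f) = (w.map f).map Symbol.terminal := by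
  simp [List.map_map, Function.comp_def, ms]

lemma map3 {N : Type*} (f : S → T) (p o q : List (Symbol S N)) :
    (p ++ o ++ q).map (ms f) = p.map (ms f) ++ o.map (ms f) ++ q.map (ms f) := by
  simp

/-- the interpretation of the nonterminals of the new grammar -/
def MI (f : S → T) (g : ContextFreeGrammar S) : (mg f g).NT → Set (List T) := fun A =>
  {w | ∃ v : List S, w = v.map f ∧ g.Derives [Symbol.nonterminal A] (v.map Symbol.terminal)}

lemma mat_MI (f : S → T) (g : ContextFreeGrammar S) (u : List (Symbol S g.NT)) (w : List T)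
    (h : Mat (MI f g) (u.map (ms f)) w) :
    ∃ v : List S, w = v.map f ∧ g.Derives u (v.map Symbol.terminal) := by
  induction u generalizing w with
  | nil =>
    have h' : w = [] := h
    exact ⟨[], by simp [h'], Relation.ReflTransGen.refl⟩
  | cons s u ih =>
    cases s with
    | terminal t =>
      obtain ⟨w', rfl, h'⟩ := h
      obtain ⟨v, rfl, hv⟩ := ih w' h'
      refine ⟨t :: v, rfl, ?_⟩
      have := ContextFreeGrammar.Derives.append_left hv [Symbol.terminal t]
      simpa using this
    | nonterminal A =>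
      obtain ⟨w₁, w₂, rfl, ⟨v₁, rfl, h1⟩, h2⟩ := h
      obtain ⟨v₂, rfl, hv⟩ := ih w₂ h2
      refine ⟨v₁ ++ v₂, by simp, ?_⟩
      have a1 := ContextFreeGrammar.Derives.append_right h1 u
      have a2 := ContextFreeGrammar.Derives.append_left hv (v₁.map Symbol.terminal)
      have a3 := a1.trans a2
      simpa using a3

lemma mg_derives (f : S → T) (g : ContextFreeGrammar S) (u v : List (Symbol S g.NT))
    (h : g.Derives u v) : (mg f g).Derives (u.map (ms f)) (v.map (ms f)) := by
  classical
  induction h with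
  | refl => exact Relation.ReflTransGen.refl
  | tail _ hstep ih =>
    refine ih.tail ?_
    obtain ⟨r, hr, hrw⟩ := hstep
    obtain ⟨p, q, rfl, rfl⟩ := hrw.exists_parts
    refine ⟨mr f r, Finset.mem_image_of_mem _ hr, ?_⟩
    rw [ContextFreeRule.rewrites_iff]
    exact ⟨p.map (ms f), q.map (ms f), map3 f p [Symbol.nonterminal r.input] q,
      map3 f p r.output q⟩

/-- context-free languages are closed under renaming of letters -/
theorem cf_map (f : S → T) {L : Language S} (hL : L.IsContextFree) :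
    Language.IsContextFree ({w | ∃ v ∈ L, w = v.map f} : Language T) := by
  classical
  obtain ⟨g, rfl⟩ := hL
  refine ⟨mg f g, ?_⟩
  ext w
  constructor
  · intro hw
    have h1 := sound (mg f g) (MI f g) (by
      intro r hr w h
      obtain ⟨r', hr', rfl⟩ := Finset.mem_image.1 hr
      obtain ⟨v, rfl, hv⟩ := mat_MI f g r'.output w h
      refine ⟨v, rfl, ?_⟩
      have h2 : g.Produces [Symbol.nonterminal r'.input] r'.output :=
        ⟨r', hr', ContextFreeRule.Rewrites.input_output⟩
      exact Relation.ReflTransGen.head h2 hv) w hw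
    obtain ⟨v, rfl, hv⟩ := h1
    exact ⟨v, hv, rfl⟩
  · rintro ⟨v, hv, rfl⟩
    have h1 := mg_derives f g _ _ hv
    have e := ms_term (N := g.NT) f v
    exact (congrArg (fun z => (mg f g).Derives
      (List.map (ms f) [Symbol.nonterminal g.initial]) z) e).mp h1

end map

/-- general form of `cf_of_data` -/
theorem cf_of_data' (n : ℕ) [NeZero n] (J : (ZMod n → ℕ) → Prop)
    (H : ∀ x : ZMod n → ℕ, J x → ∃ d : Dat n,
      ((∀ e ∈ d.2.2, e.1.val < e.2.val) ∧
      (∀ e ∈ d.2.2, ∀ e' ∈ d.2.2,
        ¬ (e.1.val < e'.1.val ∧ e'.1.val < e.2.val ∧ e.2.val < e'.2.val)) ∧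
      ∀ k, d.mem k → J k) ∧ d.mem x) :
    Language.IsContextFree
      ({w : List Bool | ∃ x : ZMod n → ℕ, J x ∧ w = wordOf n (fun i => x (i : ZMod n))} :
        Language Bool) := by
  have key := cf_union n (ι := {d : Dat n // (∀ e ∈ d.2.2, e.1.val < e.2.val) ∧
      (∀ e ∈ d.2.2, ∀ e' ∈ d.2.2,
        ¬ (e.1.val < e'.1.val ∧ e'.1.val < e.2.val ∧ e.2.val < e'.2.val)) ∧
      ∀ k, d.mem k → J k})
    (fun d i => (d.1.1 (i : ZMod n) : ℕ))
    (fun d i => (i : ZMod n) ∈ d.1.2.1)
    (fun d a b => a < n ∧ b < n ∧ ((a : ZMod n), (b : ZMod n)) ∈ d.1.2.2)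
    (by
      rintro ⟨d, hd⟩ a b ⟨ha, hb, he⟩
      have := hd.1 _ he
      simp only [ZMod.val_natCast_of_lt ha, ZMod.val_natCast_of_lt hb] at this
      exact ⟨this, hb⟩)
    (by
      rintro ⟨d, hd⟩ a b a' b' ⟨ha, hb, he⟩ ⟨ha', hb', he'⟩
      have := hd.2.1 _ he _ he'
      simpa only [ZMod.val_natCast_of_lt ha, ZMod.val_natCast_of_lt hb,
        ZMod.val_natCast_of_lt ha', ZMod.val_natCast_of_lt hb'] using this)
  refine cf_transport ?_ key
  intro w
  constructor
  · rintro ⟨x, hx, rfl⟩
    obtain ⟨d, hd, f, l, hf, hl, hk⟩ := H x hx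
    refine ⟨⟨d, hd⟩, fun i => f (i : ZMod n), l.map (fun e => (e.1.val, e.2.val)), ?_, ?_, ?_⟩
    · intro i hi
      exact hf _ hi
    · intro e he
      obtain ⟨e', he', rfl⟩ := List.mem_map.1 he
      refine ⟨ZMod.val_lt _, ZMod.val_lt _, ?_⟩
      simp only [ZMod.natCast_zmod_val]
      exact hl e' he'
    · apply wordOf_congr
      intro i hi
      rw [hk, cnt_map_val l hi]
  · rintro ⟨⟨d, hd⟩, f, l, hf, hl, rfl⟩
    have hmem : d.mem (fun u => (d.1 u : ℕ) + f u.val +
        cntZ (l.map (fun e => ((e.1 : ZMod n), (e.2 : ZMod n)))) u) := by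
      refine ⟨fun u => f u.val, l.map (fun e => ((e.1 : ZMod n), (e.2 : ZMod n))), ?_, ?_,
        fun i => rfl⟩
      · intro i hi
        apply hf
        simpa using hi
      · intro e he
        obtain ⟨e', he', rfl⟩ := List.mem_map.1 he
        exact (hl e' he').2.2
    refine ⟨_, hd.2.2 _ hmem, ?_⟩
    apply wordOf_congr
    intro i hi
    simp only
    rw [cntZ_map_cast l (fun e he => ⟨(hl e he).1, (hl e he).2.1⟩) hi, ZMod.val_natCast_of_lt hi]

/-- the claim for an arbitrary finite set of prime divisors -/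
theorem claim_P {n : ℕ} (hn0 : n ≠ 0) (x : ZMod n → ℕ) (P : Finset ℕ) (hP : ∀ p ∈ P, p.Prime)
    (hPn : ∀ p ∈ P, p ∣ n) (hx : ∀ p ∈ P, ¬ Per x p) :
    ∃ Y A, Sys x Y A ∧ ∀ k ∈ A, ∀ p ∈ P, ¬ Per k p := by
  by_cases h2 : P = {2}
  · subst h2
    obtain ⟨Y, A, hS, hA, _⟩ := single hn0 Nat.prime_two (hPn 2 (by simp)) (hx 2 (by simp))
    refine ⟨Y, A, hS, ?_⟩
    intro k hk p hp
    rw [Finset.mem_singleton] at hp
    subst hp
    exact hA k hk
  · obtain ⟨Y, A, hS, hA, _⟩ := claim hn0 x P hP hPn hx h2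
    exact ⟨Y, A, hS, fun k hk p hp => hA p hp k hk⟩

/-- a word of `(a b^*)^n` is a `p`-th power iff its vector is periodic -/
lemma power_iff {n : ℕ} (hn : n ≠ 0) (k : ℕ → ℕ) {p : ℕ} (hp : p ≠ 0) :
    (∃ u : List Bool, wordOf n k = (List.replicate p u).flatten) ↔
      p ∣ n ∧ ∀ i, k (i % n) = k ((i + n / p) % n) := by
  rw [← flatten_eq_iff hn k hp, wordOf_eq_enc]
  constructor
  · rintro ⟨u, hu⟩
    obtain ⟨us, rfl⟩ := exists_enc_of_flatten hp hu.symm
    refine ⟨us, enc_injective ?_⟩
    rw [enc_replicate_flatten, hu]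
  · rintro ⟨us, hus⟩
    exact ⟨enc us, by rw [← enc_replicate_flatten, hus]⟩

/-- the binary case for an arbitrary set of primes -/
theorem cf_primes (n : ℕ) (P : Set ℕ) (hP : ∀ p ∈ P, p.Prime) :
    Language.IsContextFree ({w : List Bool | (∃ k : ℕ → ℕ, w = wordOf n k) ∧
      ∀ p ∈ P, ∀ u : List Bool, w ≠ (List.replicate p u).flatten} : Language Bool) := by
  classical
  rcases Nat.eq_zero_or_pos n with rfl | hn
  · by_cases hPe : P = ∅
    · have key := cf_union 0 (ι := Unit) (fun _ _ => 0) (fun _ _ => False)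
        (fun _ _ _ => False) (fun _ _ _ h => h.elim) (fun _ _ _ _ _ h => h.elim)
      refine cf_transport ?_ key
      intro w
      constructor
      · rintro ⟨⟨k, rfl⟩, -⟩
        exact ⟨(), fun _ => 0, [], fun _ _ => rfl, by simp, rfl⟩
      · rintro ⟨d, f, l, -, -, rfl⟩
        refine ⟨⟨_, rfl⟩, ?_⟩
        intro p hp
        rw [hPe] at hp
        exact hp.elim
    · have key := cf_union 0 (ι := Empty) (fun d _ => d.elim) (fun d _ => d.elim)
        (fun d _ _ => d.elim) (fun d => d.elim) (fun d => d.elim)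
      refine cf_transport ?_ key
      intro w
      constructor
      · rintro ⟨⟨k, rfl⟩, h⟩
        exfalso
        obtain ⟨p, hp⟩ := Set.nonempty_iff_ne_empty.2 hPe
        exact h p hp [] (by simp [wordOf])
      · rintro ⟨d, _⟩; exact d.elim
  · have : NeZero n := ⟨hn.ne'⟩
    set P' : Finset ℕ := n.primeFactors.filter (fun p => p ∈ P) with hP'
    have h1 : ∀ p ∈ P', p.Prime := fun p hp => hP p (Finset.mem_filter.1 hp).2
    have h2 : ∀ p ∈ P', p ∣ n := fun p hp =>
      Nat.dvd_of_mem_primeFactors (Finset.mem_filter.1 hp).1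
    have key := cf_of_data' n (fun x => ∀ p ∈ P', ¬ Per x p) (by
      intro x hx
      obtain ⟨Y, A, hS, hA⟩ := claim_P hn.ne' x P' h1 h2 hx
      obtain ⟨c, S, E, hc, hE, hnc, hk⟩ := hS.realize
      have hmem : ∀ k, Dat.mem (n := n) (fun i => ⟨c i, by have := hc i; omega⟩, S, E) k ↔
          k ∈ A := by
        intro k
        rw [hk]
        rfl
      refine ⟨(fun i => ⟨c i, by have := hc i; omega⟩, S, E), ⟨hE, hnc, ?_⟩, ?_⟩
      · intro k hk'
        exact hA k ((hmem k).1 hk')
      · exact (hmem x).2 hS.self_mem)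
    refine cf_transport ?_ key
    have hiff : ∀ x : ZMod n → ℕ, (∀ p ∈ P', ¬ Per x p) ↔
        ∀ p ∈ P, ∀ u : List Bool,
          wordOf n (fun i => x (i : ZMod n)) ≠ (List.replicate p u).flatten := by
      intro x
      have hper : ∀ p, p ∣ n → ((∀ i : ℕ, x ((i % n : ℕ) : ZMod n) =
          x (((i + n / p) % n : ℕ) : ZMod n)) ↔ Per x p) := by
        intro p _
        have := zmod_shift_iff x (n / p)
        constructor
        · intro h
          by_contra hc
          obtain ⟨i, hi⟩ := this.2 hc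
          exact hi (h i)
        · intro h i
          by_contra hc
          exact this.1 ⟨i, hc⟩ h
      constructor
      · intro h p hp u hu
        obtain ⟨hpn, h3⟩ := (power_iff hn.ne' (fun i => x (i : ZMod n))
          (hP p hp).ne_zero).1 ⟨u, hu⟩
        exact h p (Finset.mem_filter.2 ⟨Nat.mem_primeFactors.2 ⟨hP p hp, hpn, hn.ne'⟩, hp⟩)
          ((hper p hpn).1 h3)
      · intro h p hp hper'
        have hpn := h2 p hp
        have h3 := (hper p hpn).2 hper'
        obtain ⟨u, hu⟩ := (power_iff hn.ne' (fun i => x (i : ZMod n))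
          (h1 p hp).ne_zero).2 ⟨hpn, h3⟩
        exact h p (Finset.mem_filter.1 hp).2 u hu
    intro w
    constructor
    · rintro ⟨⟨k, rfl⟩, h⟩
      have hw : wordOf n k = wordOf n (fun i => k ((i : ZMod n)).val) := by
        apply wordOf_congr
        intro i hi
        rw [ZMod.val_natCast_of_lt hi]
      refine ⟨fun u => k u.val, ?_, hw⟩
      rw [hiff]
      intro p hp u
      rw [← hw]
      exact h p hp u
    · rintro ⟨x, hx, rfl⟩
      exact ⟨⟨_, rfl⟩, (hiff x).1 hx⟩

end Ins

end Pool.Agent.MP_5c6631_lc
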