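import Pool.Agent.Lib.MP_5c6631_lc.Sys
import Pool.Agent.Lib.MP_5c6631_lc.Bundle

set_option autoImplicit false

namespace Pool.Agent.MP_5c6631_lc

open Finset

/-- the points of the class of `a0`, numbered by the integers -/
def pt {n : ℕ} (a0 : ZMod n) (s : ℕ) (z : ℤ) : ZMod n := a0 + ((z * s : ℤ) : ZMod n)

lemma pt_zero {n : ℕ} (a0 : ZMod n) (s : ℕ) : pt a0 s 0 = a0 := by simp [pt]

lemma pt_add {n : ℕ} (a0 : ZMod n) (s : ℕ) (z : ℤ) (m : ℕ) :
    pt a0 s (z + m) = pt a0 s z + ((m * s : ℕ) : ZMod n) := by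
  simp only [pt]; push_cast; ring

lemma pt_add_one {n : ℕ} (a0 : ZMod n) (s : ℕ) (z : ℤ) :
    pt a0 s (z + 1) = pt a0 s z + (s : ZMod n) := by
  have := pt_add a0 s z 1
  simpa using this

lemma pt_add_mul {n R s : ℕ} (hn : n = R * s) (a0 : ZMod n) (z m : ℤ) :
    pt a0 s (z + m * R) = pt a0 s z := by
  simp only [pt]
  have : (((z + m * R) * s : ℤ) : ZMod n) = ((z * s : ℤ) : ZMod n) := by
    rw [ZMod.intCast_eq_intCast_iff_dvd_sub, hn]
    refine ⟨-m, ?_⟩
    push_cast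
    ring
  rw [this]

lemma pt_add_dvd {n R s : ℕ} (hn : n = R * s) (a0 : ZMod n) (z g : ℤ) (hg : (R : ℤ) ∣ g) :
    pt a0 s (z + g) = pt a0 s z := by
  obtain ⟨m, rfl⟩ := hg
  rw [mul_comm]
  exact pt_add_mul hn a0 z m

/-- position arithmetic -/
lemma arc_index {n R s : ℕ} (hn : n = R * s) (hs : 0 < s) (a0 : ZMod n) (z z' : ℤ) (i i' : ℕ)
    (hi : i ≤ s) (hi' : i' ≤ s)
    (h : pt a0 s z + (i : ZMod n) = pt a0 s z' + (i' : ZMod n)) :
    (i = i' ∧ (R : ℤ) ∣ z - z') ∨ (i = 0 ∧ i' = s ∧ (R : ℤ) ∣ z - z' - 1) ∨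
      (i = s ∧ i' = 0 ∧ (R : ℤ) ∣ z - z' + 1) := by
  have h1 : ((z * s + i : ℤ) : ZMod n) = ((z' * s + i' : ℤ) : ZMod n) := by
    simp only [pt] at h
    push_cast at h ⊢
    have := congrArg (fun t => t - a0) h
    ring_nf at this ⊢
    exact this
  rw [ZMod.intCast_eq_intCast_iff_dvd_sub] at h1
  obtain ⟨m, hm⟩ := h1
  have hs' : (0 : ℤ) < s := by exact_mod_cast hs
  have hn' : (n : ℤ) = R * s := by rw [hn]; push_cast; ring
  rw [hn'] at hm
  -- (z' - z - R m) s = i - i'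
  have h2 : (z' - z - R * m) * s = i - i' := by linarith
  set d : ℤ := z' - z - R * m with hd
  have hii : (i : ℤ) ≤ s := by exact_mod_cast hi
  have hii' : (i' : ℤ) ≤ s := by exact_mod_cast hi'
  have hi0 : (0 : ℤ) ≤ i := by positivity
  have hi0' : (0 : ℤ) ≤ i' := by positivity
  have hd1 : d ≤ 1 := by
    by_contra hc
    have : 2 ≤ d := by omega
    nlinarith
  have hd2 : -1 ≤ d := by
    by_contra hc
    have : d ≤ -2 := by omega
    nlinarith
  have hd3 : d = -1 ∨ d = 0 ∨ d = 1 := by omega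
  rcases hd3 with h3 | h3 | h3
  · right; left
    rw [h3] at h2
    refine ⟨by omega, by omega, ⟨-m, ?_⟩⟩
    rw [h3] at hd
    linarith
  · left
    rw [h3] at h2
    refine ⟨by omega, ⟨-m, ?_⟩⟩
    rw [h3] at hd
    linarith
  · right; right
    rw [h3] at h2
    refine ⟨by omega, by omega, ⟨-m, ?_⟩⟩
    rw [h3] at hd
    linarith

lemma Sys.addChords {n : ℕ} {x : ZMod n → ℕ} {l : ℕ} (hl : 0 < l) (hln : l < n)
    (V : Finset (ZMod n)) : ∀ (Y : Finset (ZMod n)) (A : Set (ZMod n → ℕ)), Sys x Y A →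
    (∀ v ∈ V, ∀ w ∈ Y, w ∉ arc v l) →
    (∀ v ∈ V, ∀ v' ∈ V, v ≠ v' → v ∉ arc v' l ∧ v + (l : ZMod n) ∉ arc v' l) →
    ∃ (Y1 : Finset (ZMod n)) (A1 : Set (ZMod n → ℕ)), Sys x Y1 A1 ∧
      Y1.card ≤ Y.card + 2 * V.card ∧ A1 ⊆ A ∧
      ∀ v ∈ V, A1 ⊆ chordSet x v (v + (l : ZMod n)) := by
  induction V using Finset.induction_on with
  | empty =>
    intro Y A hS _ _
    exact ⟨Y, A, hS, by simp, subset_rfl, by simp⟩
  | insert v V hv ih =>
    intro Y A hS hY hV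
    have hS' := Sys.chord Y A hS v l hl hln (hY v (Finset.mem_insert_self _ _))
    obtain ⟨Y1, A1, h1, h2, h3, h4⟩ := ih _ _ hS' (by
      intro v' hv' w hw
      have hne : v ≠ v' := fun e => hv (e ▸ hv')
      have := hV v (Finset.mem_insert_self _ _) v' (Finset.mem_insert_of_mem hv') hne
      rcases Finset.mem_insert.1 hw with rfl | hw
      · exact this.1
      rcases Finset.mem_insert.1 hw with rfl | hw
      · exact this.2
      exact hY v' (Finset.mem_insert_of_mem hv') w hw)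
      (by
        intro v1 hv1 v2 hv2 hne
        exact hV v1 (Finset.mem_insert_of_mem hv1) v2 (Finset.mem_insert_of_mem hv2) hne)
    refine ⟨Y1, A1, h1, ?_, ?_, ?_⟩
    · rw [Finset.card_insert_of_notMem hv]
      have h5 := Finset.card_insert_le v (insert (v + (l : ZMod n)) Y)
      have h6 := Finset.card_insert_le (v + (l : ZMod n)) Y
      omega
    · exact h3.trans Set.inter_subset_left
    · intro v' hv'
      rcases Finset.mem_insert.1 hv' with rfl | hv'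
      · exact h3.trans Set.inter_subset_right
      · exact h4 v' hv'

/-- a pigeonhole principle -/
lemma exists_good {β : Type*} (T : Finset ℕ) (Z : Finset β) (r : ℕ → β → Prop)
    (hinj : ∀ t ∈ T, ∀ t' ∈ T, ∀ z ∈ Z, r t z → r t' z → t = t') (hcard : Z.card < T.card) :
    ∃ t ∈ T, ∀ z ∈ Z, ¬ r t z := by
  classical
  by_contra hcon
  push Not at hcon
  have := Finset.card_le_card_of_forall_subsingleton (s := T) (t := Z) r
    (fun a ha => by obtain ⟨z, hz, h⟩ := hcon a ha; exact ⟨z, hz, h⟩)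
    (by
      intro b hb t ht t' ht'
      exact hinj t ht.1 t' ht'.1 b hb ht.2 ht'.2)
  omega

lemma eq_of_trans {R : ℕ} {W : ℤ} {W' : ℕ} (hR : (R : ℤ) = W * W') (hW : W ≠ 0)
    {J : Finset ℤ} (hdist0 : ∀ y ∈ J, ∀ y' ∈ J, W ∣ y - y' → y = y')
    {t t' : ℕ} (ht : t < W') (ht' : t' < W') {y y' : ℤ} (hy : y ∈ J) (hy' : y' ∈ J)
    (h : (R : ℤ) ∣ y + W * t - (y' + W * t')) : t = t' := by
  have hWR : W ∣ (R : ℤ) := ⟨W', hR⟩
  have h1 : W ∣ y - y' := by
    have h2 := hWR.trans h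
    have h3 : W ∣ W * (t : ℤ) - W * t' := ⟨t - t', by ring⟩
    have := dvd_sub h2 h3
    rwa [show y + W * t - (y' + W * t') - (W * (t : ℤ) - W * t') = y - y' by ring] at this
  have h2 := hdist0 y hy y' hy' h1
  subst h2
  rw [show y + W * t - (y + W * t') = W * ((t : ℤ) - t') by ring, hR] at h
  have h3 : (W' : ℤ) ∣ (t : ℤ) - t' := (mul_dvd_mul_iff_left hW).1 h
  obtain ⟨c, hc⟩ := h3
  have h4 : (t : ℤ) < W' := by exact_mod_cast ht
  have h5 : (t' : ℤ) < W' := by exact_mod_cast ht'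
  have h6 : (0 : ℤ) ≤ t := by positivity
  have h7 : (0 : ℤ) ≤ t' := by positivity
  have h8 : c = 0 := by
    have h9 : c < 1 := by
      by_contra hcon
      have : 1 ≤ c := by omega
      nlinarith
    have h10 : -1 < c := by
      by_contra hcon
      have : c ≤ -1 := by omega
      nlinarith
    omega
  rw [h8] at hc
  have : (t : ℤ) = t' := by linarith
  exact_mod_cast this

lemma place {n R s : ℕ} (hn : n = R * s) (hs : 0 < s) (a0 : ZMod n) {W : ℤ} {W' : ℕ}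
    (hR : (R : ℤ) = W * W') (hW : W ≠ 0)
    {J : Finset ℤ} (hdist0 : ∀ y ∈ J, ∀ y' ∈ J, W ∣ y - y' → y = y') (Y' : Finset (ZMod n))
    (hcase : 2 * Y'.card < W' ∨ (Y'.card < W' ∧ ∀ y ∈ J, ∀ y' ∈ J, ¬ W ∣ y - y' - 1)) :
    ∃ g : ℤ, W ∣ g ∧ ∀ y ∈ J, ∀ w ∈ Y', w ∉ arc (pt a0 s (y + g)) s := by
  classical
  rcases hcase with hcase | ⟨hcase, hsp⟩
  · obtain ⟨t, ht, hgood⟩ := exists_good (Finset.range W') (Y' ×ˢ (Finset.univ : Finset Bool))
      (fun t wb => ∃ y ∈ J, ∃ i : ℕ, i ≤ s ∧ wb.1 = pt a0 s (y + W * t) + (i : ZMod n) ∧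
        (wb.2 = true ↔ i = s)) (by
        rintro t ht t' ht' ⟨w, b⟩ hw ⟨y, hy, i, hi, hwi, hb⟩ ⟨y', hy', i', hi', hwi', hb'⟩
        have h := arc_index hn hs a0 _ _ i i' hi hi' (hwi.symm.trans hwi')
        have hii : i = s ↔ i' = s := hb.symm.trans hb'
        rcases h with ⟨_, h⟩ | ⟨h1, h2, _⟩ | ⟨h1, h2, _⟩
        · exact eq_of_trans hR hW hdist0 (Finset.mem_range.1 ht) (Finset.mem_range.1 ht') hy hy' h
        · exfalso; omega
        · exfalso; omega)
      (by simp [Finset.card_product]; omega)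
    refine ⟨W * t, ⟨t, rfl⟩, ?_⟩
    rintro y hy w hw ⟨i, hi, hwi⟩
    exact hgood (w, decide (i = s)) (Finset.mem_product.2 ⟨hw, Finset.mem_univ _⟩)
      ⟨y, hy, i, hi, hwi, by simp⟩
  · obtain ⟨t, ht, hgood⟩ := exists_good (Finset.range W') Y'
      (fun t w => ∃ y ∈ J, ∃ i : ℕ, i ≤ s ∧ w = pt a0 s (y + W * t) + (i : ZMod n)) (by
        rintro t ht t' ht' w hw ⟨y, hy, i, hi, hwi⟩ ⟨y', hy', i', hi', hwi'⟩
        have hWR : W ∣ (R : ℤ) := ⟨W', hR⟩
        have h := arc_index hn hs a0 _ _ i i' hi hi' (hwi.symm.trans hwi')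
        rcases h with ⟨_, h⟩ | ⟨_, _, h⟩ | ⟨_, _, h⟩
        · exact eq_of_trans hR hW hdist0 (Finset.mem_range.1 ht) (Finset.mem_range.1 ht') hy hy' h
        · exfalso
          apply hsp y hy y' hy'
          have h3 : W ∣ W * (t : ℤ) - W * t' := ⟨t - t', by ring⟩
          have := dvd_sub (hWR.trans h) h3
          rwa [show y + W * t - (y' + W * t') - 1 - (W * (t : ℤ) - W * t') = y - y' - 1 by ring]
            at this
        · exfalso
          apply hsp y' hy' y hy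
          have h3 : W ∣ W * (t : ℤ) - W * t' := ⟨t - t', by ring⟩
          have := (dvd_sub (hWR.trans h) h3).neg_right
          rwa [show -(y + W * t - (y' + W * t') + 1 - (W * (t : ℤ) - W * t')) = y' - y - 1 by ring]
            at this)
      (by simpa using hcase)
    refine ⟨W * t, ⟨t, rfl⟩, ?_⟩
    rintro y hy w hw ⟨i, hi, hwi⟩
    exact hgood w hw ⟨y, hy, i, hi, hwi⟩

/-- the chords starting in a set `J` of indices with no two consecutive -/
lemma Sys.addIdx {n R s : ℕ} (hn : n = R * s) (hs : 0 < s) (hR : 1 < R) {x : ZMod n → ℕ}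
    (a0 : ZMod n) (J : Finset ℤ)
    (hd : ∀ y ∈ J, ∀ y' ∈ J, y ≠ y' → ¬ (R : ℤ) ∣ y - y' ∧ ¬ (R : ℤ) ∣ y - y' - 1)
    {Y : Finset (ZMod n)} {A : Set (ZMod n → ℕ)} (hS : Sys x Y A)
    (hY : ∀ y ∈ J, ∀ w ∈ Y, w ∉ arc (pt a0 s y) s) :
    ∃ (Y1 : Finset (ZMod n)) (A1 : Set (ZMod n → ℕ)), Sys x Y1 A1 ∧
      Y1.card ≤ Y.card + 2 * J.card ∧ A1 ⊆ A ∧
      ∀ y ∈ J, A1 ⊆ chordSet x (pt a0 s y) (pt a0 s (y + 1)) := by
  classical
  have hln : s < n := by rw [hn]; nlinarith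
  obtain ⟨Y1, A1, h1, h2, h3, h4⟩ := Sys.addChords (x := x) hs hln (J.image (pt a0 s)) Y A hS (by
      intro v hv w hw
      obtain ⟨y, hy, rfl⟩ := Finset.mem_image.1 hv
      exact hY y hy w hw) (by
      intro v hv v' hv' hne
      obtain ⟨y, hy, rfl⟩ := Finset.mem_image.1 hv
      obtain ⟨y', hy', rfl⟩ := Finset.mem_image.1 hv'
      have hyy : y ≠ y' := fun e => hne (by rw [e])
      obtain ⟨ha, hb⟩ := hd y hy y' hy' hyy
      obtain ⟨_, hc⟩ := hd y' hy' y hy hyy.symm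
      constructor
      · rintro ⟨i, hi, hwi⟩
        have := arc_index hn hs a0 y y' 0 i (by omega) hi (by simpa using hwi)
        rcases this with ⟨_, h⟩ | ⟨_, _, h⟩ | ⟨h, h', _⟩
        · exact ha h
        · exact hb h
        · omega
      · rintro ⟨i, hi, hwi⟩
        have := arc_index hn hs a0 y y' s i le_rfl hi hwi
        rcases this with ⟨_, h⟩ | ⟨h, h', _⟩ | ⟨_, _, h⟩
        · exact ha h
        · omega
        · apply hc
          have := h.neg_right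
          rwa [show -(y - y' + 1) = y' - y - 1 by ring] at this)
  refine ⟨Y1, A1, h1, ?_, h3, ?_⟩
  · have := Finset.card_image_le (s := J) (f := pt a0 s)
    omega
  · intro y hy
    rw [pt_add_one]
    exact h4 _ (Finset.mem_image_of_mem _ hy)

end Pool.Agent.MP_5c6631_lc
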