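import Pool.Agent.Lib.MP_5c6631_lc.StepB

set_option autoImplicit false

namespace Pool.Agent.MP_5c6631_lc

open Finset

lemma klemma {q : ℕ} (hq3 : 3 ≤ q) (hodd : q % 2 = 1) {X : ℤ → ℤ}
    (hper : ∀ z, X (z + 2 * q) = X z) (h2 : ∃ k, X (k + q) ≠ X k) (h2' : ∃ k, X (k + 2) ≠ X k) :
    ∃ (j : ℤ) (e o : ℕ), e % 2 = 0 ∧ o % 2 = 1 ∧ 0 < e ∧ e < q ∧ o < q ∧ X j ≠ X (j + q) ∧
      X j - X (j + q) ≠ X (j + e) - X (j + o) := by
  by_contra hcon
  push Not at hcon
  obtain ⟨k0, hk0⟩ := h2
  set Z : ℤ → ℤ := fun z => X (k0 + z) with hZ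
  have H : ∀ (j : ℤ) (e o : ℕ), e % 2 = 0 → o % 2 = 1 → 0 < e → e < q → o < q → Z j ≠ Z (j + q) →
      Z j - Z (j + q) = Z (j + e) - Z (j + o) := by
    intro j e o he ho he0 heq hoq hne
    have := hcon (k0 + j) e o he ho he0 heq hoq (by simpa [hZ, add_assoc] using hne)
    simpa [hZ, add_assoc] using this
  have hZper : Function.Periodic Z (2 * q) := by
    intro z
    simp only [hZ]
    rw [← add_assoc]
    exact hper _
  have hd : Z 0 ≠ Z q := by
    simp only [hZ, add_zero]
    exact fun h => hk0 h.symm
  -- reduction to a period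
  have hred : ∀ z : ℤ, ∃ i : ℕ, i < 2 * q ∧ Z z = Z i ∧ z % 2 = (i : ℤ) % 2 := by
    intro z
    have hq0 : (0 : ℤ) < 2 * q := by positivity
    refine ⟨(z % (2 * q)).toNat, ?_, ?_, ?_⟩
    · have := Int.emod_lt_of_pos z hq0
      have := Int.emod_nonneg z hq0.ne'
      omega
    · rw [Int.toNat_of_nonneg (Int.emod_nonneg z hq0.ne')]
      have h1 := Int.emod_add_mul_ediv z (2 * q)
      have h2 := (hZper.int_mul (z / (2 * q))) (z % (2 * q))
      rw [← h2]
      congr 1
      rw [Int.cast_id]
      linarith
    · rw [Int.toNat_of_nonneg (Int.emod_nonneg z hq0.ne')]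
      rw [Int.emod_emod_of_dvd]
      exact ⟨q, rfl⟩
  have hmain : ∀ i : ℕ, i < 2 * q → Z i = if i % 2 = 0 then Z 0 else Z 1 := by
    by_cases hq : q = 3
    · subst hq
      have p0 : Z 6 = Z 0 := by have := hZper 0; simpa using this
      have p1 : Z 7 = Z 1 := by have := hZper 1; norm_num at this; exact this
      have p2 : Z 8 = Z 2 := by have := hZper 2; norm_num at this; exact this
      have i0 : Z 0 ≠ Z 3 → Z 0 - Z 3 = Z 2 - Z 1 := by
        intro h
        have := H 0 2 1 rfl rfl (by norm_num) (by norm_num) (by norm_num) (by simpa using h)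
        simpa using this
      have i1 : Z 1 ≠ Z 4 → Z 1 - Z 4 = Z 3 - Z 2 := by
        intro h
        have := H 1 2 1 rfl rfl (by norm_num) (by norm_num) (by norm_num) (by norm_num; exact h)
        norm_num at this
        exact this
      have i2 : Z 2 ≠ Z 5 → Z 2 - Z 5 = Z 4 - Z 3 := by
        intro h
        have := H 2 2 1 rfl rfl (by norm_num) (by norm_num) (by norm_num) (by norm_num; exact h)
        norm_num at this
        exact this
      have i3 : Z 3 ≠ Z 0 → Z 3 - Z 0 = Z 5 - Z 4 := by
        intro h
        have := H 3 2 1 rfl rfl (by norm_num) (by norm_num) (by norm_num)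
          (by norm_num; rw [p0]; exact h)
        norm_num at this
        rw [p0] at this
        exact this
      have i4 : Z 4 ≠ Z 1 → Z 4 - Z 1 = Z 0 - Z 5 := by
        intro h
        have := H 4 2 1 rfl rfl (by norm_num) (by norm_num) (by norm_num)
          (by norm_num; rw [p1]; exact h)
        norm_num at this
        rw [p1, p0] at this
        exact this
      have i5 : Z 5 ≠ Z 2 → Z 5 - Z 2 = Z 1 - Z 0 := by
        intro h
        have := H 5 2 1 rfl rfl (by norm_num) (by norm_num) (by norm_num)
          (by norm_num; rw [p2]; exact h)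
        norm_num at this
        rw [p2, p1, p0] at this
        exact this
      have hd3 : Z 0 ≠ Z 3 := by simpa using hd
      have r2 : Z 2 = Z 0 := by omega
      have r3 : Z 3 = Z 1 := by omega
      have r4 : Z 4 = Z 0 := by omega
      have r5 : Z 5 = Z 1 := by omega
      intro i hi
      have : i = 0 ∨ i = 1 ∨ i = 2 ∨ i = 3 ∨ i = 4 ∨ i = 5 := by omega
      rcases this with rfl | rfl | rfl | rfl | rfl | rfl
      · simp
      · simp
      · simpa using r2
      · simpa using r3
      · simpa using r4
      · simpa using r5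
    · have hq5 : 5 ≤ q := by omega
      have p0 : Z (q + q) = Z 0 := by
        have := hZper 0
        rw [← this]
        congr 1
        ring
      -- first half
      have a1 : ∀ (e o : ℕ), e % 2 = 0 → o % 2 = 1 → 0 < e → e < q → o < q →
          Z 0 - Z q = Z e - Z o := by
        intro e o he ho he0 heq hoq
        have := H 0 e o he ho he0 heq hoq (by simpa using hd)
        simpa using this
      have a2 : ∀ (e o : ℕ), e % 2 = 0 → o % 2 = 1 → 0 < e → e < q → o < q →
          Z q - Z 0 = Z (q + e) - Z (q + o) := by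
        intro e o he ho he0 heq hoq
        have := H q e o he ho he0 heq hoq (by rw [p0]; exact hd.symm)
        rwa [p0] at this
      have b21 := a1 2 1 rfl rfl (by norm_num) (by omega) (by omega)
      have b43 := a1 4 3 rfl rfl (by norm_num) (by omega) (by omega)
      have b23 := a1 2 3 rfl rfl (by norm_num) (by omega) (by omega)
      have c21 := a2 2 1 rfl rfl (by norm_num) (by omega) (by omega)
      push_cast at b21 b43 b23 c21
      -- D1
      have hD1 : Z 1 ≠ Z (q + 1) := by
        intro h1
        have h2 : Z 2 ≠ Z (2 + q) := by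
          rw [show (2 : ℤ) + q = q + 2 by ring]
          intro h2
          apply hd
          linarith
        have := H 2 2 1 rfl rfl (by norm_num) (by omega) (by omega) h2
        rw [show (2 : ℤ) + q = q + 2 by ring] at this
        norm_num at this
        apply hd
        linarith
      have hD1' : Z 1 ≠ Z (1 + q) := by
        rw [show (1 : ℤ) + q = q + 1 by ring]
        exact hD1
      have d1 := H 1 2 1 rfl rfl (by norm_num) (by omega) (by omega) hD1'
      rw [show (1 : ℤ) + q = q + 1 by ring] at d1
      norm_num at d1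
      have d2 := H 1 (q - 1) 1 (by omega) rfl (by omega) (by omega) (by omega) hD1'
      rw [show (1 : ℤ) + q = q + 1 by ring, show (1 : ℤ) + ((q - 1 : ℕ) : ℤ) = q by
        push_cast [Nat.cast_sub (show 1 ≤ q by omega)]; ring] at d2
      norm_num at d2
      have hq1 : Z q = Z 1 := by linarith
      have h20 : Z 2 = Z 0 := by linarith
      intro i hi
      split_ifs with hpar
      · by_cases hi0 : i = 0
        · subst hi0; simp
        by_cases hiq : i < q
        · have := a1 i 1 hpar rfl (by omega) hiq (by omega)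
          push_cast at this
          linarith
        · have hlt : q < i := by omega
          have := a2 2 (i - q) rfl (by omega) (by norm_num) (by omega) (by omega)
          rw [show (q : ℤ) + ((i - q : ℕ) : ℤ) = i by
            push_cast [Nat.cast_sub hlt.le]; ring] at this
          push_cast at this
          linarith
      · by_cases hiq : i < q
        · have := a1 2 i rfl (by omega) (by norm_num) (by omega) hiq
          push_cast at this
          linarith
        · by_cases hiq' : i = q
          · subst hiq'; exact hq1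
          have hlt : q < i := by omega
          have := a2 (i - q) 1 (by omega) rfl (by omega) (by omega) (by omega)
          rw [show (q : ℤ) + ((i - q : ℕ) : ℤ) = i by
            push_cast [Nat.cast_sub hlt.le]; ring] at this
          push_cast at this
          linarith
  obtain ⟨k, hk⟩ := h2'
  apply hk
  obtain ⟨i, hi, e1, e2⟩ := hred (k - k0)
  obtain ⟨i', hi', e1', e2'⟩ := hred (k + 2 - k0)
  have f1 : X k = Z i := by
    rw [← e1]
    simp only [hZ]
    congr 1
    ring
  have f2 : X (k + 2) = Z i' := by
    rw [← e1']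
    simp only [hZ]
    congr 1
    ring
  have hpar : i % 2 = i' % 2 := by omega
  rw [f1, f2, hmain i hi, hmain i' hi', hpar]


/-- the case of two primes one of which is `2` -/
theorem stepC2 {n s q : ℕ} (hq3 : 3 ≤ q) (hodd : q % 2 = 1) (hn : n = (2 * q) * s) (hs : 0 < s)
    {x : ZMod n → ℕ} (h2 : ¬ Per x 2) (hq : ¬ Per x q) :
    ∃ Y A, Sys x Y A ∧ (∀ k ∈ A, ¬ Per k 2) ∧ (∀ k ∈ A, ¬ Per k q) ∧ Y.card ≤ 4 := by
  classical
  have hn2 : n / 2 = q * s := by rw [hn, mul_assoc]; omega
  have hnq : n / q = 2 * s := by
    rw [hn, show 2 * q * s = q * (2 * s) by ring]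
    exact Nat.mul_div_cancel_left _ (by omega)
  by_cases hA : ∃ a0 : ZMod n, (∃ k : ℤ, (x (pt a0 s (k + q)) : ℤ) ≠ x (pt a0 s k)) ∧
      ∃ k : ℤ, (x (pt a0 s (k + 2)) : ℤ) ≠ x (pt a0 s k)
  · obtain ⟨a0, h1, h1'⟩ := hA
    obtain ⟨j, e, o, he, ho, he0, heq, hoq, hne, hne'⟩ := klemma hq3 hodd
      (X := fun z => (x (pt a0 s z) : ℤ)) (by
        intro z
        have := pt_add_dvd hn a0 z (2 * q) (by push_cast; exact dvd_rfl)
        simp only [this]) h1 h1'
    -- consequences of periodicity
    have c2 : ∀ k : ZMod n → ℕ, Per k 2 → k (pt a0 s (j + q)) = k (pt a0 s j) := by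
      intro k hk
      rw [pt_add, ← hn2]
      exact hk _
    have cq : ∀ k : ZMod n → ℕ, Per k q → k (pt a0 s (j + e)) = k (pt a0 s j) ∧
        k (pt a0 s (j + q)) = k (pt a0 s (j + o)) := by
      intro k hk
      constructor
      · rw [pt_add, show e * s = (e / 2) * (n / q) by
          rw [hnq, ← mul_assoc]; congr 1; omega]
        exact hk.mul _ _
      · rw [show j + (q : ℤ) = (j + o) + ((q - o : ℕ) : ℤ) by push_cast [Nat.cast_sub hoq.le]; ring,
          pt_add, show (q - o) * s = ((q - o) / 2) * (n / q) by
          rw [hnq, ← mul_assoc]; congr 1; omega]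
        exact hk.mul _ _
    have e1 : ∀ m : ℕ, pt a0 s j + ((m * s : ℕ) : ZMod n) = pt a0 s (j + m) :=
      fun m => (pt_add a0 s j m).symm
    rcases lt_or_gt_of_ne (show e ≠ o by omega) with hlt | hlt
    · have hb := Sys.block (x := x) (pt a0 s j) (e * s) (o * s) (q * s)
        (Nat.mul_pos he0 hs) (Nat.mul_lt_mul_of_pos_right hlt hs)
        (Nat.mul_lt_mul_of_pos_right hoq hs)
        (by rw [hn]; exact Nat.mul_lt_mul_of_pos_right (by omega) hs)
      rw [e1, e1, e1] at hb
      refine ⟨_, _, hb, ?_, ?_, card_four _ _ _ _⟩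
      · rintro k ⟨h3, _, _⟩ hper
        rw [sameSign_iff, c2 k hper, sub_self, Int.sign_zero] at h3
        have := Int.sign_eq_zero_iff_zero.1 h3.symm
        apply hne
        linarith
      · intro k hk hper
        obtain ⟨_, h4⟩ := block_signs hk
        obtain ⟨h5, h6⟩ := cq k hper
        rw [h5, h6, sub_self, Int.sign_zero] at h4
        have := Int.sign_eq_zero_iff_zero.1 h4.symm
        apply hne'
        linarith
    · have hb := Sys.block (x := x) (pt a0 s j) (o * s) (e * s) (q * s)
        (Nat.mul_pos (by omega) hs) (Nat.mul_lt_mul_of_pos_right hlt hs)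
        (Nat.mul_lt_mul_of_pos_right heq hs)
        (by rw [hn]; exact Nat.mul_lt_mul_of_pos_right (by omega) hs)
      rw [e1, e1, e1] at hb
      refine ⟨_, _, hb, ?_, ?_, card_four _ _ _ _⟩
      · rintro k ⟨h3, _, _⟩ hper
        rw [sameSign_iff, c2 k hper, sub_self, Int.sign_zero] at h3
        have := Int.sign_eq_zero_iff_zero.1 h3.symm
        apply hne
        linarith
      · intro k hk hper
        obtain ⟨h4, _⟩ := block_signs hk
        obtain ⟨h5, h6⟩ := cq k hper
        rw [h5, h6, show ((k (pt a0 s j) : ℤ) - k (pt a0 s (j + o))) +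
          ((k (pt a0 s (j + o)) : ℤ) - k (pt a0 s j)) = 0 by ring, Int.sign_zero] at h4
        have := Int.sign_eq_zero_iff_zero.1 h4.symm
        apply hne'
        linarith
  · push Not at hA
    unfold Per at h2 hq
    push Not at h2 hq
    obtain ⟨a, ha⟩ := h2
    obtain ⟨b, hb⟩ := hq
    have ha' : x (pt a s ((0 : ℤ) + q)) ≠ x (pt a s 0) := by
      rw [pt_add, pt_zero, ← hn2]
      exact ha
    have h2per : ∀ k : ℤ, x (pt a s (k + 2)) = x (pt a s k) := by
      intro k
      have := hA a ⟨0, by exact_mod_cast ha'⟩ k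
      exact_mod_cast this
    have h2per' : ∀ (m : ℕ) (k : ℤ), x (pt a s (k + 2 * m)) = x (pt a s k) := by
      intro m
      induction m with
      | zero => intro k; simp
      | succ m ih =>
        intro k
        rw [show k + 2 * ((m + 1 : ℕ) : ℤ) = (k + 2 * m) + 2 by push_cast; ring, h2per, ih]
    have hn0 : 0 < n := by rw [hn]; positivity
    have : NeZero n := ⟨hn0.ne'⟩
    have hdiam : ∀ m : ℕ, x (pt a s ((m : ℤ) + q)) ≠ x (pt a s m) := by
      intro m
      rcases Nat.even_or_odd' m with ⟨c, rfl | rfl⟩
      · rw [show (((2 * c : ℕ) : ℤ) + q) = (0 + q) + 2 * c by push_cast; ring, h2per',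
          show (((2 * c : ℕ) : ℤ)) = 0 + 2 * c by push_cast; ring, h2per']
        exact ha'
      · have e1 : x (pt a s (((2 * c + 1 : ℕ) : ℤ) + q)) = x (pt a s 0) := by
          rw [show (((2 * c + 1 : ℕ) : ℤ) + q) = 0 + 2 * ((c + (q + 1) / 2 : ℕ) : ℤ) by
            push_cast; omega, h2per']
        have e2 : x (pt a s ((2 * c + 1 : ℕ) : ℤ)) = x (pt a s (0 + q)) := by
          have e3 : x (pt a s ((2 * c + 1 : ℕ) : ℤ)) = x (pt a s 1) := by
            rw [show ((2 * c + 1 : ℕ) : ℤ) = 1 + 2 * c by push_cast; ring, h2per']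
          have e4 : x (pt a s (0 + q)) = x (pt a s 1) := by
            rw [show ((0 : ℤ) + q) = 1 + 2 * ((q / 2 : ℕ) : ℤ) by push_cast; omega, h2per']
          rw [e3, e4]
        rw [e1, e2]
        exact ha'.symm
    set t : ℕ := (b - a).val % s with ht
    set m : ℕ := (b - a).val / s with hm
    have hbm : b = pt a s m + (t : ZMod n) := by
      have h3 : ((b - a).val : ZMod n) = b - a := ZMod.natCast_zmod_val _
      have h4 := Nat.div_add_mod (b - a).val s
      rw [← ht, ← hm] at h4
      have h5 : ((s * m + t : ℕ) : ZMod n) = b - a := by rw [h4, h3]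
      simp only [pt]
      push_cast at h5 ⊢
      linear_combination -h5
    have ht0 : 0 < t := by
      by_contra hcon
      have : t = 0 := by omega
      rw [this, Nat.cast_zero, add_zero] at hbm
      apply hb
      rw [hbm, hnq, ← pt_add]
      exact h2per _
    have hts : t < s := Nat.mod_lt _ hs
    have hqs : 3 * s ≤ q * s := Nat.mul_le_mul_right _ hq3
    have hS1 := Sys.chord (x := x) ∅ Set.univ Sys.empty (pt a s m) (n / 2)
      (by rw [hn2]; positivity) (Nat.div_lt_self hn0 (by norm_num)) (by simp)
    have hS2 := Sys.chord _ _ hS1 b (n / q) (by rw [hnq]; positivity)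
      (by rw [hnq, hn]; nlinarith) (by
        intro w hw
        simp only [Finset.mem_insert, Finset.notMem_empty, or_false] at hw
        rw [hnq]
        rcases hw with rfl | rfl
        · rintro ⟨i, hi, hwi⟩
          rw [hbm] at hwi
          have h3 : ((t + i : ℕ) : ZMod n) = 0 := by
            push_cast
            linear_combination -hwi
          rw [ZMod.natCast_eq_zero_iff] at h3
          have := Nat.le_of_dvd (by omega) h3
          rw [hn] at this
          nlinarith
        · rintro ⟨i, hi, hwi⟩
          rw [hbm] at hwi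
          have h3 : ((t + i : ℕ) : ZMod n) = ((n / 2 : ℕ) : ZMod n) := by
            push_cast
            push_cast at hwi
            linear_combination -hwi
          rw [ZMod.natCast_eq_natCast_iff] at h3
          have h4 : n / 2 < n := Nat.div_lt_self hn0 (by norm_num)
          have h5 : t + i < n / 2 := by rw [hn2]; omega
          have h6 := Nat.ModEq.eq_of_lt_of_lt h3 (h5.trans h4) h4
          omega)
    refine ⟨_, _, hS2, ?_, ?_, ?_⟩
    · rintro k ⟨⟨_, h3⟩, _⟩ hper
      have h4 := (sameSign_iff _ _).1 h3
      rw [hper, sub_self, Int.sign_zero] at h4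
      have h5 := Int.sign_eq_zero_iff_zero.1 h4.symm
      apply hdiam m
      rw [pt_add, ← hn2]
      have : (x (pt a s m + ((n / 2 : ℕ) : ZMod n)) : ℤ) = x (pt a s m) := by linarith
      exact_mod_cast this
    · rintro k ⟨_, h3⟩ hper
      have h4 := (sameSign_iff _ _).1 h3
      rw [hper, sub_self, Int.sign_zero] at h4
      have h5 := Int.sign_eq_zero_iff_zero.1 h4.symm
      apply hb
      have : (x (b + ((n / q : ℕ) : ZMod n)) : ℤ) = x b := by linarith
      exact_mod_cast this
    · exact card_four _ _ _ _

end Pool.Agent.MP_5c6631_lc
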