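import Pool.Agent.Lib.MP_5c6631_lc.Data
import Pool.Agent.Lib.MP_5c6631_lc.Ineq

set_option autoImplicit false

namespace Pool.Agent.MP_5c6631_lc

open Finset

section aux

variable {P : Finset ℕ} {F : ℤ → ℤ} {K : ℕ → ℤ} {J : Finset ℤ} {B : Finset ℕ}

lemma IsTB.eq_of_dvd (hT : IsTB P F K kap J B) {W : ℤ} (hW : ∀ q ∈ B, (q : ℤ) ∣ W) :
    ∀ y ∈ J, ∀ y' ∈ J, W ∣ y - y' → y = y' := by
  intro y hy y' hy' h
  by_contra hne
  obtain ⟨q, hq, hqd⟩ := hT.dist y hy y' hy' hne
  exact hqd ((hW q hq).trans h)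

lemma IsTB.five (hT : IsTB P F K kap J B) {p0 : ℕ} (hp0 : p0 ∈ B) (h5 : 5 ≤ p0) :
    ∀ y ∈ J, ∀ y' ∈ J, ¬ (p0 : ℤ) ∣ y - y' - 1 := by
  intro y hy y' hy' h
  obtain ⟨ε, hε, hd⟩ := hT.inn y hy y' hy' p0 hp0
  have hk : kap p0 = 2 := by unfold kap; rw [if_neg (by omega)]
  rw [hk] at hd
  have h1 := dvd_sub h hd
  rw [show y - y' - 1 - (y - y' - ε * 2) = 2 * ε - 1 by ring] at h1
  have h5' : (5 : ℤ) ≤ p0 := by exact_mod_cast h5
  have h2 : 2 * ε - 1 ≠ 0 := by omega
  have h3 := Int.le_of_dvd (abs_pos.2 h2) ((dvd_abs _ _).2 h1)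
  rcases hε with rfl | rfl | rfl <;> norm_num at h3 <;> omega

end aux

lemma signs_of_chord {n s : ℕ} {x k : ZMod n → ℕ} {a0 : ZMod n} {z : ℤ}
    (h : k ∈ chordSet x (pt a0 s z) (pt a0 s (z + 1))) :
    Int.sign ((k (pt a0 s z) : ℤ) - k (pt a0 s (z + 1))) = sg x a0 s z :=
  (sameSign_iff _ _).1 h

theorem stepA {n s : ℕ} {P : Finset ℕ} (hP : ∀ p ∈ P, p.Prime) (hn : n = (∏ p ∈ P, p) * s)
    (hs : 0 < s) {x : ZMod n → ℕ} {a0 : ZMod n} (hP1 : ∀ q, P ≠ {q}) (hP2 : ∀ q, P ≠ {2, q})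
    {K : ℕ → ℤ} (hKm : ∀ p ∈ P, ∃ m : ℕ, K p = m * ((∏ q ∈ P.erase p, q : ℕ) : ℤ))
    {J : Finset ℤ} {B : Finset ℕ} (hT : IsTB P (sg x a0 s) K kap J B)
    (hinv : ∀ y ∈ J, ∀ g : ℤ, (∏ q ∈ B, (q : ℤ)) ∣ g → sg x a0 s (y + g) = sg x a0 s y)
    (hne : P \ B ≠ {2}) {Y' : Finset (ZMod n)} {A' : Set (ZMod n → ℕ)} (hS : Sys x Y' A')
    (hA' : ∀ p ∈ P \ B, ∀ k ∈ A', ¬ Per k p) (hbd : Bd (P \ B) Y'.card) :
    ∃ Y A, Sys x Y A ∧ (∀ p ∈ P, ∀ k ∈ A, ¬ Per k p) ∧ Bd P Y.card := by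
  classical
  have hRW : ((∏ p ∈ P, p : ℕ) : ℤ) = (∏ q ∈ B, (q : ℤ)) * ((∏ p ∈ P \ B, p : ℕ) : ℤ) := by
    rw [← Finset.prod_sdiff hT.sub]
    push_cast
    ring
  have hPu : ∀ p ∈ P, p ∈ B ∨ p ∈ P \ B := by
    intro p hp
    by_cases h : p ∈ B
    · exact Or.inl h
    · exact Or.inr (Finset.mem_sdiff.2 ⟨hp, h⟩)
  set W : ℤ := ∏ q ∈ B, (q : ℤ) with hW
  set R : ℕ := ∏ p ∈ P, p with hR
  set W' : ℕ := ∏ p ∈ P \ B, p with hW'
  have hW0 : W ≠ 0 := Finset.prod_ne_zero_iff.2 (fun q hq => by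
    exact_mod_cast (hP q (hT.sub hq)).ne_zero)
  have hqW : ∀ q ∈ B, (q : ℤ) ∣ W := fun q hq => Finset.dvd_prod_of_mem _ hq
  have hqR : ∀ q ∈ P, (q : ℤ) ∣ (R : ℤ) := fun q hq => by
    exact_mod_cast (Finset.dvd_prod_of_mem (fun q => q) hq)
  have hWR : W ∣ (R : ℤ) := ⟨_, hRW⟩
  have hdist0 := hT.eq_of_dvd hqW
  have hsp : (∃ p0 ∈ B, 5 ≤ p0) → ∀ y ∈ J, ∀ y' ∈ J, ¬ W ∣ y - y' - 1 := by
    rintro ⟨p0, hp0, h5⟩ y hy y' hy' h
    exact hT.five hp0 h5 y hy y' hy' ((hqW p0 hp0).trans h)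
  have hd : ∀ y ∈ J, ∀ y' ∈ J, y ≠ y' → ¬ (R : ℤ) ∣ y - y' ∧ ¬ (R : ℤ) ∣ y - y' - 1 := by
    intro y hy y' hy' hne'
    refine ⟨fun h => hne' (hdist0 y hy y' hy' (hWR.trans h)), fun h => ?_⟩
    by_cases he : (P \ B).Nonempty
    · obtain ⟨q, hq⟩ := he
      have hq' := Finset.mem_sdiff.1 hq
      have h1 := hT.out y hy y' hy' q hq'.1 hq'.2
      have h2 := dvd_sub h1 ((hqR q hq'.1).trans h)
      rw [show y - y' - (y - y' - 1) = 1 by ring] at h2
      have h3 : q ∣ 1 := by exact_mod_cast h2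
      exact (hP q hq'.1).one_lt.ne' (Nat.dvd_one.1 h3)
    · rw [Finset.not_nonempty_iff_eq_empty] at he
      have h5 : ∃ p0 ∈ B, 5 ≤ p0 := by
        by_contra hcon
        push Not at hcon
        have hPB : P ⊆ B := Finset.sdiff_eq_empty_iff_subset.1 he
        have h23 : ∀ p ∈ P, p = 2 ∨ p = 3 := by
          intro p hp
          by_contra hc
          push Not at hc
          have := five_le (hP p hp) hc.1 hc.2
          have := hcon p (hPB hp)
          omega
        have hsub : P ⊆ {2, 3} := fun p hp => by simpa using h23 p hp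
        by_cases h2 : 2 ∈ P
        · by_cases h3 : 3 ∈ P
          · apply hP2 3
            apply Finset.Subset.antisymm hsub
            intro p hp
            simp only [Finset.mem_insert, Finset.mem_singleton] at hp
            rcases hp with rfl | rfl <;> assumption
          · apply hP1 2
            apply Finset.Subset.antisymm
            · intro p hp
              rcases h23 p hp with rfl | rfl
              · simp
              · exact absurd hp h3
            · simpa using h2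
        · obtain ⟨b, hb⟩ := hT.neB
          have hb3 : b = 3 := by
            rcases h23 b (hT.sub hb) with rfl | rfl
            · exact absurd (hT.sub hb) h2
            · rfl
          subst hb3
          apply hP1 3
          apply Finset.Subset.antisymm
          · intro p hp
            rcases h23 p hp with rfl | rfl
            · exact absurd hp h2
            · simp
          · simpa using (hT.sub hb)
      exact hsp h5 y hy y' hy' (hWR.trans h)
  have hPu' : P = (P \ B) ∪ B := (Finset.sdiff_union_of_subset hT.sub).symm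
  have hcase : 2 * Y'.card < W' ∨ (Y'.card < W' ∧ ∀ y ∈ J, ∀ y' ∈ J, ¬ W ∣ y - y' - 1) := by
    by_cases e3 : P \ B = {3}
    · right
      refine ⟨bd_lt hbd, hsp ?_⟩
      by_contra hcon
      push Not at hcon
      have h2 : ∀ p ∈ B, p = 2 := by
        intro p hp
        by_contra hp2
        have hp3 : p ≠ 3 := by
          rintro rfl
          have h3 : 3 ∈ P \ B := by rw [e3]; simp
          exact (Finset.mem_sdiff.1 h3).2 hp
        have := five_le (hP p (hT.sub hp)) hp2 hp3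
        have := hcon p hp
        omega
      obtain ⟨b, hb⟩ := hT.neB
      have hB : B = {2} := by
        apply Finset.Subset.antisymm
        · intro p hp; simpa using h2 p hp
        · have := h2 b hb
          subst this
          simpa using hb
      apply hP2 3
      rw [hPu', e3, hB]
      decide
    · by_cases e23 : P \ B = {2, 3}
      · right
        refine ⟨bd_lt hbd, hsp ?_⟩
        obtain ⟨b, hb⟩ := hT.neB
        refine ⟨b, hb, five_le (hP b (hT.sub hb)) ?_ ?_⟩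
        · rintro rfl
          have h3 : 2 ∈ P \ B := by rw [e23]; simp
          exact (Finset.mem_sdiff.1 h3).2 hb
        · rintro rfl
          have h3 : 3 ∈ P \ B := by rw [e23]; simp
          exact (Finset.mem_sdiff.1 h3).2 hb
      · left
        exact hbd.2.2 e3 e23
  obtain ⟨g, hg, hpl⟩ := place hn hs a0 hRW hW0 hdist0 Y' hcase
  have hR1 : 1 < R := by
    obtain ⟨b, hb⟩ := hT.neB
    have h1 : b ∣ R := Finset.dvd_prod_of_mem (fun q => q) (hT.sub hb)
    have h2 : 0 < R := Finset.prod_pos (fun p hp => (hP p hp).pos)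
    exact lt_of_lt_of_le (hP b (hT.sub hb)).one_lt (Nat.le_of_dvd h2 h1)
  obtain ⟨Y, A, h1, h2, h3, h4⟩ := Sys.addIdx hn hs hR1 a0 (J.image (· + g)) (by
      intro y hy y' hy' hne'
      obtain ⟨z, hz, rfl⟩ := Finset.mem_image.1 hy
      obtain ⟨z', hz', rfl⟩ := Finset.mem_image.1 hy'
      have := hd z hz z' hz' (fun e => hne' (by rw [e]))
      rwa [show z + g - (z' + g) = z - z' by ring])
    hS (by
      intro y hy w hw
      obtain ⟨z, hz, rfl⟩ := Finset.mem_image.1 hy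
      exact hpl z hz w hw)
  refine ⟨Y, A, h1, ?_, ?_⟩
  · intro p hp k hk hper
    rcases hPu p hp with hpB | hpB
    · obtain ⟨y, hy, hyK, hneF⟩ := hT.pair p hpB
      obtain ⟨m, hm⟩ := hKm p hp
      apply hneF
      have e1 := signs_of_chord (h4 (y + g) (Finset.mem_image_of_mem _ hy) hk)
      have e2 := signs_of_chord (h4 (y + K p + g) (Finset.mem_image_of_mem _ hyK) hk)
      rw [hinv y hy g hg] at e1
      rw [hinv _ hyK g hg] at e2
      rw [← e1, ← e2, show y + K p + g + 1 = (y + g + 1) + K p by ring,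
        show y + K p + g = (y + g) + K p by ring, hper.pt hP hn hp hm, hper.pt hP hn hp hm]
    · exact hA' p hpB k (h3 hk) hper
  · apply ineq_main hP hT.sub rfl hT.neB hP1 hP2 hne hbd
    have h5 : (J.image (· + g)).card ≤ J.card := Finset.card_image_le
    have h6 := hT.card
    omega

end Pool.Agent.MP_5c6631_lc
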