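import Pool.Agent.Lib.MP_5c6631_lc.StepA

set_option autoImplicit false

namespace Pool.Agent.MP_5c6631_lc

open Finset

lemma sameSign_add {a b a' b' : ℤ} (h1 : SameSign a a') (h2 : SameSign b b')
    (h3 : SameSign (|a| - |b|) (|a'| - |b'|)) :
    SameSign (a + b) (a' + b') ∧ SameSign (a - b) (a' - b') := by
  unfold SameSign at *
  rcases abs_cases a with ⟨e1, e1'⟩ | ⟨e1, e1'⟩ <;> rcases abs_cases b with ⟨e2, e2'⟩ | ⟨e2, e2'⟩ <;>
    rcases abs_cases a' with ⟨e3, e3'⟩ | ⟨e3, e3'⟩ <;>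
    rcases abs_cases b' with ⟨e4, e4'⟩ | ⟨e4, e4'⟩ <;>
    rw [e1, e2, e3, e4] at h3 <;> omega

lemma block_signs {n : ℕ} {x k : ZMod n → ℕ} {c0 c1 c2 c3 : ZMod n}
    (h : k ∈ blockSet x c0 c1 c2 c3) :
    Int.sign (((k c0 : ℤ) - k c3) + ((k c1 : ℤ) - k c2)) =
      Int.sign (((x c0 : ℤ) - x c3) + ((x c1 : ℤ) - x c2)) ∧
    Int.sign (((k c0 : ℤ) - k c3) - ((k c1 : ℤ) - k c2)) =
      Int.sign (((x c0 : ℤ) - x c3) - ((x c1 : ℤ) - x c2)) := by
  obtain ⟨h1, h2, h3⟩ := h
  have := sameSign_add h1 h2 h3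
  exact ⟨(sameSign_iff _ _).1 this.1, (sameSign_iff _ _).1 this.2⟩

lemma sign_add_eq {a b c : ℤ} (ha : Int.sign a = c) (hb : Int.sign b = c) :
    Int.sign (a + b) = c := by
  rcases lt_trichotomy a 0 with h | h | h
  · rw [Int.sign_eq_neg_one_of_neg h] at ha
    subst ha
    have := Int.sign_eq_neg_one_iff_neg.1 hb
    exact Int.sign_eq_neg_one_of_neg (by omega)
  · subst h
    simpa using hb
  · rw [Int.sign_eq_one_of_pos h] at ha
    subst ha
    have := Int.sign_eq_one_iff_pos.1 hb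
    exact Int.sign_eq_one_of_pos (by omega)

lemma card_four {α : Type*} [DecidableEq α] (a b c d : α) : ({a, b, c, d} : Finset α).card ≤ 4 :=
  Finset.card_le_four

/-- the thick diameter -/
lemma thick {n r s : ℕ} (hn : n = (2 * r) * s) (hs : 0 < s) (hr : 1 < r) (x : ZMod n → ℕ)
    (a0 : ZMod n) (y0 : ℤ)
    (hD : x (pt a0 s y0) ≠ x (pt a0 s (y0 + r)) ∨ x (pt a0 s (y0 + 1)) ≠ x (pt a0 s (y0 + r + 1)))
    (hF : sg x a0 s (y0 + r) = sg x a0 s y0) :
    ∃ (Y : Finset (ZMod n)) (A : Set (ZMod n → ℕ)), Sys x Y A ∧ Y.card ≤ 4 ∧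
      (∀ w ∈ Y, ∃ ε : ℤ, ∃ δ : ℤ, (δ = 0 ∨ δ = 1) ∧ w = pt a0 s (y0 + ε * r + δ)) ∧
      (∀ k ∈ A, ¬ Per k 2) ∧
      (∀ k ∈ A, Int.sign (((k (pt a0 s y0) : ℤ) - k (pt a0 s (y0 + 1))) +
        ((k (pt a0 s (y0 + r)) : ℤ) - k (pt a0 s (y0 + r + 1)))) = sg x a0 s y0) := by
  classical
  have hn' : n = ((2 * r : ℕ)) * s := hn
  have hn2 : n / 2 = r * s := by rw [hn, mul_assoc]; omega
  have hshift : ∀ z : ℤ, pt a0 s (z + r) = pt a0 s z + ((n / 2 : ℕ) : ZMod n) := by
    intro z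
    rw [hn2, pt_add]
  have hper2 : ∀ k : ZMod n → ℕ, Per k 2 → k (pt a0 s (y0 + r)) = k (pt a0 s y0) ∧
      k (pt a0 s (y0 + r + 1)) = k (pt a0 s (y0 + 1)) := by
    intro k hk
    constructor
    · rw [hshift]; exact hk _
    · rw [show y0 + r + 1 = (y0 + 1) + r by ring, hshift]; exact hk _
  have hxsum : Int.sign (((x (pt a0 s y0) : ℤ) - x (pt a0 s (y0 + 1))) +
        ((x (pt a0 s (y0 + r)) : ℤ) - x (pt a0 s (y0 + r + 1)))) = sg x a0 s y0 :=
    sign_add_eq rfl hF
  by_cases hsum : (x (pt a0 s y0) : ℤ) - x (pt a0 s (y0 + r)) +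
      (x (pt a0 s (y0 + 1)) - x (pt a0 s (y0 + r + 1))) = 0
  · -- rotated
    have e1 : pt a0 s (y0 + 1) + (((r - 1) * s : ℕ) : ZMod n) = pt a0 s (y0 + r) := by
      rw [← pt_add]
      congr 1
      push_cast [Nat.cast_sub hr.le]
      ring
    have e2 : pt a0 s (y0 + 1) + ((r * s : ℕ) : ZMod n) = pt a0 s (y0 + r + 1) := by
      rw [← pt_add]
      congr 1
      ring
    have e3 : pt a0 s (y0 + 1) + (((2 * r - 1) * s : ℕ) : ZMod n) = pt a0 s y0 := by
      rw [← pt_add]
      rw [← pt_add_dvd hn' a0 y0 ((2 * r : ℕ) : ℤ) dvd_rfl]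
      congr 1
      have : 1 ≤ 2 * r := by omega
      push_cast [Nat.cast_sub this]
      ring
    have hb := Sys.block (x := x) (pt a0 s (y0 + 1)) ((r - 1) * s) (r * s) ((2 * r - 1) * s)
      (Nat.mul_pos (by omega) hs) (Nat.mul_lt_mul_of_pos_right (by omega) hs)
      (Nat.mul_lt_mul_of_pos_right (by omega) hs)
      (by rw [hn]; exact Nat.mul_lt_mul_of_pos_right (by omega) hs)
    rw [e1, e2, e3] at hb
    refine ⟨_, _, hb, card_four _ _ _ _, ?_, ?_, ?_⟩
    · intro w hw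
      simp only [Finset.mem_insert, Finset.mem_singleton] at hw
      rcases hw with rfl | rfl | rfl | rfl
      · exact ⟨0, 1, Or.inr rfl, by congr 1; ring⟩
      · exact ⟨1, 0, Or.inl rfl, by congr 1; ring⟩
      · exact ⟨1, 1, Or.inr rfl, by congr 1; ring⟩
      · exact ⟨0, 0, Or.inl rfl, by congr 1; ring⟩
    · intro k hk hper
      obtain ⟨h1, h2⟩ := block_signs hk
      obtain ⟨h3, h4⟩ := hper2 k hper
      rw [h3, h4] at h1
      rw [show ((k (pt a0 s (y0 + 1)) : ℤ) - k (pt a0 s y0)) +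
        ((k (pt a0 s y0) : ℤ) - k (pt a0 s (y0 + 1))) = 0 by ring, Int.sign_zero] at h1
      have h5 := Int.sign_eq_zero_iff_zero.1 h1.symm
      rcases hD with hD | hD
      · apply hD
        have : (x (pt a0 s y0) : ℤ) = x (pt a0 s (y0 + r)) := by linarith
        exact_mod_cast this
      · apply hD
        have : (x (pt a0 s (y0 + 1)) : ℤ) = x (pt a0 s (y0 + r + 1)) := by linarith
        exact_mod_cast this
    · intro k hk
      obtain ⟨h1, h2⟩ := block_signs hk
      rw [← hxsum]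
      have h6 := congrArg (fun t => - t) h2
      simp only [← Int.sign_neg] at h6
      rw [show -(((k (pt a0 s (y0 + 1)) : ℤ) - k (pt a0 s y0)) -
        ((k (pt a0 s (y0 + r)) : ℤ) - k (pt a0 s (y0 + r + 1)))) =
        ((k (pt a0 s y0) : ℤ) - k (pt a0 s (y0 + 1))) +
        ((k (pt a0 s (y0 + r)) : ℤ) - k (pt a0 s (y0 + r + 1))) by ring,
        show -(((x (pt a0 s (y0 + 1)) : ℤ) - x (pt a0 s y0)) -
        ((x (pt a0 s (y0 + r)) : ℤ) - x (pt a0 s (y0 + r + 1)))) =
        ((x (pt a0 s y0) : ℤ) - x (pt a0 s (y0 + 1))) +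
        ((x (pt a0 s (y0 + r)) : ℤ) - x (pt a0 s (y0 + r + 1))) by ring] at h6
      exact h6
  · have e1 : pt a0 s y0 + ((s : ℕ) : ZMod n) = pt a0 s (y0 + 1) := (pt_add_one a0 s y0).symm
    have e2 : pt a0 s y0 + ((r * s : ℕ) : ZMod n) = pt a0 s (y0 + r) := (pt_add a0 s y0 r).symm
    have e3 : pt a0 s y0 + (((r + 1) * s : ℕ) : ZMod n) = pt a0 s (y0 + r + 1) := by
      rw [← pt_add]
      congr 1
      push_cast
      ring
    have hb := Sys.block (x := x) (pt a0 s y0) s (r * s) ((r + 1) * s)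
      hs (by nlinarith) (Nat.mul_lt_mul_of_pos_right (by omega) hs)
      (by rw [hn]; exact Nat.mul_lt_mul_of_pos_right (by omega) hs)
    rw [e1, e2, e3] at hb
    refine ⟨_, _, hb, card_four _ _ _ _, ?_, ?_, ?_⟩
    · intro w hw
      simp only [Finset.mem_insert, Finset.mem_singleton] at hw
      rcases hw with rfl | rfl | rfl | rfl
      · exact ⟨0, 0, Or.inl rfl, by congr 1; ring⟩
      · exact ⟨0, 1, Or.inr rfl, by congr 1; ring⟩
      · exact ⟨1, 0, Or.inl rfl, by congr 1; ring⟩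
      · exact ⟨1, 1, Or.inr rfl, by congr 1; ring⟩
    · intro k hk hper
      obtain ⟨h1, h2⟩ := block_signs hk
      obtain ⟨h3, h4⟩ := hper2 k hper
      rw [h3, h4] at h1
      rw [show ((k (pt a0 s y0) : ℤ) - k (pt a0 s (y0 + 1))) +
        ((k (pt a0 s (y0 + 1)) : ℤ) - k (pt a0 s y0)) = 0 by ring, Int.sign_zero] at h1
      have h5 := Int.sign_eq_zero_iff_zero.1 h1.symm
      apply hsum
      linarith
    · intro k hk
      obtain ⟨h1, h2⟩ := block_signs hk
      rw [← hxsum]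
      rw [show ((k (pt a0 s y0) : ℤ) - k (pt a0 s (y0 + r + 1))) -
        ((k (pt a0 s (y0 + 1)) : ℤ) - k (pt a0 s (y0 + r))) =
        ((k (pt a0 s y0) : ℤ) - k (pt a0 s (y0 + 1))) +
        ((k (pt a0 s (y0 + r)) : ℤ) - k (pt a0 s (y0 + r + 1))) by ring,
        show ((x (pt a0 s y0) : ℤ) - x (pt a0 s (y0 + r + 1))) -
        ((x (pt a0 s (y0 + 1)) : ℤ) - x (pt a0 s (y0 + r))) =
        ((x (pt a0 s y0) : ℤ) - x (pt a0 s (y0 + 1))) +
        ((x (pt a0 s (y0 + r)) : ℤ) - x (pt a0 s (y0 + r + 1))) by ring] at h2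
      exact h2


theorem stepB {n s : ℕ} {P : Finset ℕ} (hP : ∀ p ∈ P, p.Prime) (hn : n = (∏ p ∈ P, p) * s)
    (hs : 0 < s) {x : ZMod n → ℕ} {a0 : ZMod n} (ha0 : x (a0 + ((n / 2 : ℕ) : ZMod n)) ≠ x a0)
    (hP2 : ∀ q, P ≠ {2, q})
    {K : ℕ → ℤ} (hKm : ∀ p ∈ P, ∃ m : ℕ, K p = m * ((∏ q ∈ P.erase p, q : ℕ) : ℤ))
    {J : Finset ℤ} {B : Finset ℕ} (hT : IsTB P (sg x a0 s) K kap J B)
    (hinv : ∀ y ∈ J, ∀ g : ℤ, (∏ q ∈ B, (q : ℤ)) ∣ g → sg x a0 s (y + g) = sg x a0 s y)
    (he : P \ B = {2}) :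
    ∃ Y A, Sys x Y A ∧ (∀ p ∈ P, ∀ k ∈ A, ¬ Per k p) ∧ Bd P Y.card := by
  classical
  have h2 : 2 ∈ P \ B := by rw [he]; simp
  have h2B : 2 ∉ B := (Finset.mem_sdiff.1 h2).2
  have hBp : ∀ p ∈ B, p.Prime := fun p hp => hP p (hT.sub hp)
  have hprod : ∏ p ∈ P, p = 2 * ∏ p ∈ B, p := by
    rw [← Finset.prod_sdiff hT.sub, he, Finset.prod_singleton]
  have hPu : ∀ p ∈ P, p = 2 ∨ p ∈ B := by
    intro p hp
    by_cases h : p ∈ B
    · exact Or.inr h
    · left
      have : p ∈ P \ B := Finset.mem_sdiff.2 ⟨hp, h⟩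
      rw [he] at this
      simpa using this
  have hPB : P = insert 2 B := by
    rw [← Finset.sdiff_union_of_subset hT.sub, he]
    rfl
  have hBc : 2 ≤ B.card := by
    by_contra hc
    have h1 := Finset.card_pos.2 hT.neB
    have : B.card = 1 := by omega
    obtain ⟨q, hq⟩ := Finset.card_eq_one.1 this
    exact hP2 q (by rw [hPB, hq])
  have hineq := ineq_odd hBp hBc (Or.inl h2B)
  have h5 : ∃ p0 ∈ B, 5 ≤ p0 := by
    by_contra hcon
    push Not at hcon
    have hsub : B ⊆ {3} := by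
      intro p hp
      rw [Finset.mem_singleton]
      by_contra hc
      have := five_le (hBp p hp) (fun e => h2B (e ▸ hp)) hc
      have := hcon p hp
      omega
    have := Finset.card_le_card hsub
    simp at this
    omega
  obtain ⟨p0, hp0, h5⟩ := h5
  set r : ℕ := ∏ p ∈ B, p with hr
  have hr1 : 1 < r := by omega
  have hrc : (∏ q ∈ B, (q : ℤ)) = (r : ℤ) := by rw [hr]; push_cast; rfl
  rw [hrc] at hinv
  have hqr : ∀ q ∈ B, (q : ℤ) ∣ (r : ℤ) := fun q hq => by
    exact_mod_cast (Finset.dvd_prod_of_mem (fun q => q) hq)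
  have hdist0 := hT.eq_of_dvd hqr
  have hsp : ∀ y ∈ J, ∀ y' ∈ J, ¬ (r : ℤ) ∣ y - y' - 1 := by
    intro y hy y' hy' h
    exact hT.five hp0 h5 y hy y' hy' ((hqr p0 hp0).trans h)
  rw [hprod] at hn
  have hrR : (r : ℤ) ∣ ((2 * r : ℕ) : ℤ) := ⟨2, by push_cast; ring⟩
  have hn2 : n / 2 = r * s := by rw [hn, mul_assoc]; omega
  have hshift : ∀ z : ℤ, pt a0 s (z + r) = pt a0 s z + ((n / 2 : ℕ) : ZMod n) := by
    intro z
    rw [hn2, pt_add]
  have hbdP : ∀ m : ℕ, m ≤ 4 * (B.card + 1) → Bd P m := by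
    intro m hm
    refine ⟨fun h => ?_, fun h => absurd h (hP2 3), fun _ _ => ?_⟩
    · exfalso
      have : 2 ∈ P := (Finset.mem_sdiff.1 h2).1
      rw [h] at this
      simp at this
    · rw [hprod]
      omega
  have hnP : n = (∏ p ∈ P, p) * s := by rw [hprod]; exact hn
  by_cases hcase : ∃ y0 ∈ J, x (pt a0 s y0) ≠ x (pt a0 s (y0 + r)) ∨
      x (pt a0 s (y0 + 1)) ≠ x (pt a0 s (y0 + r + 1))
  · obtain ⟨y0, hy0, hD⟩ := hcase
    obtain ⟨Y, A, hS, hY4, hYpt, hA2, hA0⟩ := thick hn hs hr1 x a0 y0 hD (hinv y0 hy0 r dvd_rfl)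
    have hJ2 : ∀ z ∈ (J.erase y0) ∪ (J.erase y0).image (· + (r : ℤ)),
        ∃ y ∈ J, y ≠ y0 ∧ ∃ ε : ℤ, (ε = 0 ∨ ε = 1) ∧ z = y + ε * r := by
      intro z hz
      rcases Finset.mem_union.1 hz with hz | hz
      · have := Finset.mem_erase.1 hz
        exact ⟨z, this.2, this.1, 0, Or.inl rfl, by ring⟩
      · obtain ⟨y, hy, rfl⟩ := Finset.mem_image.1 hz
        have := Finset.mem_erase.1 hy
        exact ⟨y, this.2, this.1, 1, Or.inr rfl, by ring⟩
    obtain ⟨Y1, A1, g1, g2, g3, g4⟩ := Sys.addIdx hn hs (by omega) a0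
      ((J.erase y0) ∪ (J.erase y0).image (· + (r : ℤ))) (by
        intro z hz z' hz' hne
        obtain ⟨y, hy, hyne, ε, hε, rfl⟩ := hJ2 z hz
        obtain ⟨y', hy', hyne', ε', hε', rfl⟩ := hJ2 z' hz'
        constructor
        · intro h
          have h1 : (r : ℤ) ∣ y - y' := by
            have h3 : (r : ℤ) ∣ (ε - ε') * r := ⟨ε - ε', by ring⟩
            have := dvd_sub (hrR.trans h) h3
            rwa [show y + ε * r - (y' + ε' * r) - (ε - ε') * r = y - y' by ring] at this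
          have h4 := hdist0 y hy y' hy' h1
          subst h4
          have h5' : ((2 * r : ℕ) : ℤ) ∣ (ε - ε') * r := by
            rwa [show y + ε * r - (y + ε' * r) = (ε - ε') * r by ring] at h
          have hr0 : (0 : ℤ) < r := by exact_mod_cast (by omega : 0 < r)
          rcases hε with rfl | rfl <;> rcases hε' with rfl | rfl
          · exact hne rfl
          · have h6 := Int.le_of_dvd (by omega) (h5'.neg_right)
            push_cast at h6
            omega
          · have h6 := Int.le_of_dvd (by omega) h5'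
            push_cast at h6
            omega
          · exact hne rfl
        · intro h
          apply hsp y hy y' hy'
          have h3 : (r : ℤ) ∣ (ε - ε') * r := ⟨ε - ε', by ring⟩
          have := dvd_sub (hrR.trans h) h3
          rwa [show y + ε * r - (y' + ε' * r) - 1 - (ε - ε') * r = y - y' - 1 by ring] at this)
      hS (by
        rintro z hz w hw ⟨i, hi, hwi⟩
        obtain ⟨y, hy, hyne, ε, hε, rfl⟩ := hJ2 z hz
        obtain ⟨ε', δ, hδ, rfl⟩ := hYpt w hw
        have h := arc_index hn hs a0 _ _ 0 i (by omega) hi (by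
          rw [Nat.cast_zero, add_zero]; exact hwi)
        have h3 : (r : ℤ) ∣ (ε' - ε) * r := ⟨ε' - ε, by ring⟩
        rcases h with ⟨_, h⟩ | ⟨_, _, h⟩ | ⟨h, _, _⟩
        · have h4 := dvd_sub (hrR.trans h) h3
          rw [show y0 + ε' * r + δ - (y + ε * r) - (ε' - ε) * r = y0 - y + δ by ring] at h4
          rcases hδ with rfl | rfl
          · rw [add_zero] at h4
            exact hyne (hdist0 y0 hy0 y hy h4).symm
          · apply hsp y hy y0 hy0
            have := h4.neg_right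
            rwa [show -(y0 - y + 1) = y - y0 - 1 by ring] at this
        · have h4 := dvd_sub (hrR.trans h) h3
          rw [show y0 + ε' * r + δ - (y + ε * r) - 1 - (ε' - ε) * r = y0 - y + (δ - 1) by ring] at h4
          rcases hδ with rfl | rfl
          · apply hsp y0 hy0 y hy
            rwa [show y0 - y + (0 - 1) = y0 - y - 1 by ring] at h4
          · rw [sub_self, add_zero] at h4
            exact hyne (hdist0 y0 hy0 y hy h4).symm
        · omega)
    have hG : ∀ y ∈ J, ∀ k ∈ A1, Int.sign (((k (pt a0 s y) : ℤ) - k (pt a0 s (y + 1))) +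
        ((k (pt a0 s (y + r)) : ℤ) - k (pt a0 s (y + r + 1)))) = sg x a0 s y := by
      intro y hy k hk
      by_cases hyy : y = y0
      · subst hyy
        exact hA0 k (g3 hk)
      · apply sign_add_eq
        · exact signs_of_chord (g4 y (Finset.mem_union_left _ (Finset.mem_erase.2 ⟨hyy, hy⟩)) hk)
        · rw [← hinv y hy r dvd_rfl]
          exact signs_of_chord (g4 (y + r) (Finset.mem_union_right _
            (Finset.mem_image_of_mem _ (Finset.mem_erase.2 ⟨hyy, hy⟩))) hk)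
    refine ⟨Y1, A1, g1, ?_, hbdP _ ?_⟩
    · intro p hp k hk hper
      rcases hPu p hp with rfl | hpB
      · exact hA2 k (g3 hk) hper
      · obtain ⟨y, hy, hyK, hneF⟩ := hT.pair p hpB
        obtain ⟨m, hm⟩ := hKm p hp
        apply hneF
        rw [← hG y hy k hk, ← hG _ hyK k hk,
          show y + K p + r + 1 = (y + r + 1) + K p by ring,
          show y + K p + 1 = (y + 1) + K p by ring,
          show y + K p + r = (y + r) + K p by ring, hper.pt hP hnP hp hm, hper.pt hP hnP hp hm,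
          hper.pt hP hnP hp hm, hper.pt hP hnP hp hm]
    · have c1 := Finset.card_union_le (J.erase y0) ((J.erase y0).image (· + (r : ℤ)))
      have c2 : ((J.erase y0).image (· + (r : ℤ))).card ≤ (J.erase y0).card :=
        Finset.card_image_le
      have c3 := Finset.card_erase_of_mem hy0
      have c4 := hT.card
      have c5 := Finset.card_pos.2 hT.neJ
      omega
  · push Not at hcase
    have hn0 : 0 < n := by rw [hn]; positivity
    have hS := Sys.chord (x := x) ∅ Set.univ Sys.empty a0 (n / 2) (by rw [hn2]; positivity)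
      (Nat.div_lt_self hn0 (by norm_num)) (by simp)
    have hr0 : pt a0 s (r : ℤ) = a0 + ((n / 2 : ℕ) : ZMod n) := by
      have := hshift 0
      rwa [zero_add, pt_zero] at this
    have hr2 : pt a0 s ((r : ℤ) + r) = a0 := by
      have h1 := pt_add_dvd hn a0 0 ((2 * r : ℕ) : ℤ) dvd_rfl
      rw [zero_add, pt_zero] at h1
      rw [← h1]
      congr 1
      push_cast
      ring
    have hbad : ∀ z : ℤ, x (pt a0 s z) = x (pt a0 s (z + r)) →
        ∀ z' : ℤ, (z' = 0 ∨ z' = r) → ¬ ((2 * r : ℕ) : ℤ) ∣ z' - z := by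
      intro z hz z' hz' hdv
      have e1 : pt a0 s z = pt a0 s z' := by
        have := pt_add_dvd hn a0 z (z' - z) hdv
        rw [← this]
        congr 1
        ring
      have e2 : pt a0 s (z + r) = pt a0 s (z' + r) := by
        rw [hshift, hshift, e1]
      rw [e1, e2] at hz
      rcases hz' with rfl | rfl
      · rw [pt_zero, zero_add, hr0] at hz
        exact ha0 hz.symm
      · rw [hr2, hr0] at hz
        exact ha0 hz
    have havoid : ∀ y ∈ J, ∀ z' : ℤ, (z' = 0 ∨ z' = r) → pt a0 s z' ∉ arc (pt a0 s y) s := by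
      rintro y hy z' hz' ⟨i, hi, hwi⟩
      have h := arc_index hn hs a0 _ _ 0 i (by omega) hi (by
          rw [Nat.cast_zero, add_zero]; exact hwi)
      obtain ⟨hc1, hc2⟩ := hcase y hy
      rcases h with ⟨_, h⟩ | ⟨_, _, h⟩ | ⟨h, _, _⟩
      · exact hbad y hc1 z' hz' h
      · apply hbad (y + 1) (by rw [hc2]; congr 2; ring) z' hz'
        rwa [show z' - (y + 1) = z' - y - 1 by ring]
      · omega
    obtain ⟨Y1, A1, g1, g2, g3, g4⟩ := Sys.addIdx hn hs (by omega) a0 J (by
        intro y hy y' hy' hne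
        exact ⟨fun h => hne (hdist0 y hy y' hy' (hrR.trans h)),
          fun h => hsp y hy y' hy' (hrR.trans h)⟩)
      hS (by
        intro y hy w hw
        simp only [Finset.mem_insert, Finset.notMem_empty, or_false] at hw
        rcases hw with rfl | rfl
        · have := havoid y hy 0 (Or.inl rfl)
          rwa [pt_zero] at this
        · have := havoid y hy r (Or.inr rfl)
          rwa [hr0] at this)
    refine ⟨Y1, A1, g1, ?_, hbdP _ ?_⟩
    · intro p hp k hk hper
      rcases hPu p hp with rfl | hpB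
      · have h1 := (g3 hk).2
        have h2 : Int.sign ((k a0 : ℤ) - k (a0 + ((n / 2 : ℕ) : ZMod n))) =
          Int.sign ((x a0 : ℤ) - x (a0 + ((n / 2 : ℕ) : ZMod n))) := (sameSign_iff _ _).1 h1
        rw [hper a0, sub_self, Int.sign_zero] at h2
        have h3 := Int.sign_eq_zero_iff_zero.1 h2.symm
        apply ha0
        have : (x (a0 + ((n / 2 : ℕ) : ZMod n)) : ℤ) = x a0 := by linarith
        exact_mod_cast this
      · obtain ⟨y, hy, hyK, hneF⟩ := hT.pair p hpB
        obtain ⟨m, hm⟩ := hKm p hp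
        apply hneF
        have e1 := signs_of_chord (g4 y hy hk)
        have e2 := signs_of_chord (g4 (y + K p) hyK hk)
        rw [← e1, ← e2, show y + K p + 1 = (y + 1) + K p by ring,
          hper.pt hP hnP hp hm, hper.pt hP hnP hp hm]
    · have c1 : (insert a0 (insert (a0 + ((n / 2 : ℕ) : ZMod n)) (∅ : Finset (ZMod n)))).card ≤ 2 :=
        Finset.card_le_two
      have c4 := hT.card
      omega

end Pool.Agent.MP_5c6631_lc
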